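import Pool.Agent.K6.H31.BR.Omega
import Pool.Agent.Y616.BM.Ae

set_option autoImplicit false

/-!
# All weights are resonant, by Dirichlet's theorem
-/

namespace Pool.Agent.K6.H31.BR

open Finset Filter Topology Set
open Pool.Agent.Y616.BM

/-- Dirichlet's theorem on simultaneous approximation -/
theorem dir_sim (d : ℕ) (v : Fin d → ℝ) (Q : ℕ) (hQ : 1 ≤ Q) :
    ∃ q : ℕ, 1 ≤ q ∧ q ≤ Q ^ d ∧ ∀ a, ∃ p : ℤ, |(q : ℝ) * v a - p| < 1 / Q := by
  have hQr : (0 : ℝ) < Q := by exact_mod_cast hQ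
  have hfl : ∀ x : ℝ, ⌊(Q : ℝ) * Int.fract x⌋₊ < Q := by
    intro x
    rw [Nat.floor_lt (mul_nonneg hQr.le (Int.fract_nonneg x))]
    calc (Q : ℝ) * Int.fract x < Q * 1 := mul_lt_mul_of_pos_left (Int.fract_lt_one x) hQr
      _ = Q := mul_one _
  let f : Fin (Q ^ d + 1) → (Fin d → Fin Q) :=
    fun t a => ⟨⌊(Q : ℝ) * Int.fract ((t.1 : ℝ) * v a)⌋₊, hfl _⟩
  have hcard : Fintype.card (Fin d → Fin Q) < Fintype.card (Fin (Q ^ d + 1)) := by
    simp
  obtain ⟨t1, t2, hne, hf⟩ := Fintype.exists_ne_map_eq_of_card_lt f hcard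
  have key : ∀ s t : Fin (Q ^ d + 1), s.1 < t.1 → f s = f t →
      ∃ q : ℕ, 1 ≤ q ∧ q ≤ Q ^ d ∧ ∀ a, ∃ p : ℤ, |(q : ℝ) * v a - p| < 1 / Q := by
    intro s t hst hfst
    refine ⟨t.1 - s.1, by omega, by have := t.2; omega, fun a => ?_⟩
    refine ⟨⌊(t.1 : ℝ) * v a⌋ - ⌊(s.1 : ℝ) * v a⌋, ?_⟩
    have h1 := congrFun hfst a
    have h2 : ⌊(Q : ℝ) * Int.fract ((s.1 : ℝ) * v a)⌋₊ = ⌊(Q : ℝ) * Int.fract ((t.1 : ℝ) * v a)⌋₊ :=
      congrArg Fin.val h1
    have h3 : ((t.1 - s.1 : ℕ) : ℝ) = (t.1 : ℝ) - s.1 := by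
      rw [Nat.cast_sub hst.le]
    have h4 : ((t.1 - s.1 : ℕ) : ℝ) * v a - ((⌊(t.1 : ℝ) * v a⌋ - ⌊(s.1 : ℝ) * v a⌋ : ℤ) : ℝ) =
        Int.fract ((t.1 : ℝ) * v a) - Int.fract ((s.1 : ℝ) * v a) := by
      rw [h3]
      unfold Int.fract
      push_cast
      ring
    rw [h4]
    have h5 := Nat.floor_le (mul_nonneg hQr.le (Int.fract_nonneg ((s.1 : ℝ) * v a)))
    have h6 := Nat.lt_floor_add_one ((Q : ℝ) * Int.fract ((s.1 : ℝ) * v a))
    have h7 := Nat.floor_le (mul_nonneg hQr.le (Int.fract_nonneg ((t.1 : ℝ) * v a)))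
    have h8 := Nat.lt_floor_add_one ((Q : ℝ) * Int.fract ((t.1 : ℝ) * v a))
    rw [← h2] at h7 h8
    have h9 : |(Int.fract ((t.1 : ℝ) * v a) - Int.fract ((s.1 : ℝ) * v a)) * Q| < 1 := by
      rw [abs_lt]
      constructor
      · linarith
      · linarith
    rw [lt_div_iff₀ hQr]
    rwa [abs_mul, abs_of_pos hQr] at h9
  rcases lt_trichotomy t1.1 t2.1 with h | h | h
  · exact key t1 t2 h hf
  · exact absurd (Fin.ext h) hne
  · exact key t2 t1 h hf.symm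

/-- common denominators -/
lemma exists_den {r d : ℕ} (B : Fin r → Fin d → ℚ) :
    ∃ (N : ℕ) (M : Fin r → Fin d → ℤ), 1 ≤ N ∧ ∀ j i, (N : ℝ) * (B j i : ℝ) = M j i := by
  refine ⟨∏ j, ∏ i, (B j i).den,
    fun j i => (((∏ j, ∏ i, (B j i).den) / (B j i).den : ℕ) : ℤ) * (B j i).num, ?_, fun j i => ?_⟩
  · exact Finset.one_le_prod' fun j _ => Finset.one_le_prod' fun i _ => (B j i).pos
  · have h1 : (B j i).den ∣ ∏ j, ∏ i, (B j i).den :=
      (Finset.dvd_prod_of_mem _ (Finset.mem_univ i)).trans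
        (Finset.dvd_prod_of_mem (fun j => ∏ i, (B j i).den) (Finset.mem_univ j))
    obtain ⟨m, hm⟩ := h1
    have hd : (B j i).den ≠ 0 := (B j i).den_nz
    have h2 : (∏ j, ∏ i, (B j i).den) / (B j i).den = m := by
      rw [hm]
      exact Nat.mul_div_cancel_left _ (Nat.pos_of_ne_zero hd)
    simp only [h2]
    rw [hm]
    have h3 : ((B j i : ℚ) : ℝ) = (B j i).num / (B j i).den := by
      rw [Rat.cast_def]
    rw [h3]
    have h4 : ((B j i).den : ℝ) ≠ 0 := by exact_mod_cast hd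
    push_cast
    field_simp

/-- resonances of all weights in terms of a basis with positive first element -/
lemma resonant_basis {m r : ℕ} {v : Fin (m + 1) → ℝ} (hv0 : 0 < v 0) {w : Fin r → ℝ}
    {B : Fin r → Fin (m + 1) → ℚ} (hB : ∀ j, w j = ∑ i, (B j i : ℝ) * v i) {τ : ℝ} (hτ : 0 < τ)
    (hτm : τ * m < 1) : Resonant w τ := by
  obtain ⟨N, M, hN, hM⟩ := exists_den B
  have hN0 : (0 : ℝ) < N := by exact_mod_cast hN
  set K : ℝ := 1 + ∑ j, ∑ i, |(M j i : ℝ)| with hK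
  have hK1 : 1 ≤ K := by
    have : 0 ≤ ∑ j, ∑ i, |(M j i : ℝ)| := by positivity
    linarith
  set c₀ : ℝ := N / v 0 with hc₀
  have hc₀0 : 0 < c₀ := by positivity
  -- the exponent
  obtain ⟨E, hE⟩ := exists_nat_gt ((1 + τ) / (1 - τ * m))
  have h1m : 0 < 1 - τ * m := by linarith
  rw [div_lt_iff₀ h1m] at hE
  have hEx : 0 < E - 1 - τ * (1 + E * m) := by nlinarith
  have hE1 : 1 ≤ E := by
    by_contra h
    have : E = 0 := by omega
    rw [this] at hE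
    simp at hE
    linarith
  have ev : ∀ᶠ k : ℕ in atTop, K * c₀ ^ τ ≤ (k : ℝ) ^ ((E : ℝ) - 1 - τ * (1 + E * m)) := by
    have h1 : Tendsto (fun k : ℕ => (k : ℝ) ^ ((E : ℝ) - 1 - τ * (1 + E * m))) atTop atTop :=
      (tendsto_rpow_atTop hEx).comp tendsto_natCast_atTop_atTop
    exact h1.eventually_ge_atTop _
  rw [Resonant, Filter.frequently_atTop]
  intro u₁
  have ev2 : ∀ᶠ k : ℕ in atTop, u₁ ≤ k * c₀ := by
    have h1 : Tendsto (fun k : ℕ => (k : ℝ) * c₀) atTop atTop :=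
      tendsto_natCast_atTop_atTop.atTop_mul_const hc₀0
    exact h1.eventually_ge_atTop _
  obtain ⟨k, h1, h2, h3⟩ := (ev.and (ev2.and (eventually_ge_atTop 1))).exists
  have hk0 : (0 : ℝ) < k := by exact_mod_cast h3
  have hk1 : (1 : ℝ) ≤ k := by exact_mod_cast h3
  obtain ⟨q, hq1, hq2, hq3⟩ := dir_sim m (fun i => v i.succ / v 0) (k ^ E) (Nat.one_le_pow _ _ h3)
  choose p hp using hq3
  have hq0 : (0 : ℝ) < q := by exact_mod_cast hq1
  have hq1' : (1 : ℝ) ≤ q := by exact_mod_cast hq1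
  refine ⟨k * (c₀ * q), ?_, fun j => ?_⟩
  · calc u₁ ≤ k * c₀ := h2
      _ ≤ k * (c₀ * q) := by gcongr; nlinarith
  -- the nearest integers
  set P : Fin (m + 1) → ℤ := Fin.cons (q : ℤ) p with hP
  have hPi : ∀ i, |q * (v i / v 0) - P i| ≤ 1 / (k : ℝ) ^ E := by
    intro i
    refine Fin.cases ?_ (fun i => ?_) i
    · rw [hP, Fin.cons_zero, div_self hv0.ne']
      simp
    · rw [hP, Fin.cons_succ]
      have := (hp i).le
      push_cast at this
      exact this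
  refine ⟨∑ i, (k : ℤ) * (M j i * P i), ?_⟩
  have e1 : k * (c₀ * q) * w j - ((∑ i, (k : ℤ) * (M j i * P i) : ℤ) : ℝ) =
      ∑ i, k * (M j i * (q * (v i / v 0) - P i)) := by
    rw [hB j]
    push_cast
    rw [Finset.mul_sum, ← Finset.sum_sub_distrib]
    refine Finset.sum_congr rfl fun i _ => ?_
    rw [← hM j i, hc₀]
    field_simp
  rw [e1]
  have h4 : |∑ i, k * (M j i * (q * (v i / v 0) - P i))| ≤ k * (K * (1 / (k : ℝ) ^ E)) := by
    calc _ ≤ ∑ i, |k * (M j i * (q * (v i / v 0) - P i))| := Finset.abs_sum_le_sum_abs _ _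
      _ ≤ ∑ i, k * (|(M j i : ℝ)| * (1 / (k : ℝ) ^ E)) := by
          refine Finset.sum_le_sum fun i _ => ?_
          rw [abs_mul, abs_mul, abs_of_pos hk0]
          gcongr
          exact hPi i
      _ = k * ((∑ i, |(M j i : ℝ)|) * (1 / (k : ℝ) ^ E)) := by
          rw [← Finset.mul_sum, Finset.sum_mul]
      _ ≤ _ := by
          gcongr
          have h5 : ∑ i, |(M j i : ℝ)| ≤ ∑ j, ∑ i, |(M j i : ℝ)| :=
            Finset.single_le_sum (f := fun j => ∑ i, |(M j i : ℝ)|)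
              (fun j _ => by positivity) (Finset.mem_univ j)
          linarith
  refine h4.trans ?_
  have h5 : k * (c₀ * q) ≤ c₀ * (k : ℝ) ^ (1 + (E : ℝ) * m) := by
    have h6 : (q : ℝ) ≤ (k : ℝ) ^ ((E : ℝ) * m) := by
      have h7 : (q : ℝ) ≤ ((k ^ E) ^ m : ℕ) := by exact_mod_cast hq2
      refine h7.trans (le_of_eq ?_)
      push_cast
      rw [← pow_mul, ← Real.rpow_natCast]
      push_cast
      rfl
    rw [Real.rpow_add hk0, Real.rpow_one]
    calc k * (c₀ * q) = c₀ * (k * q) := by ring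
      _ ≤ _ := by gcongr
  have h6 : (c₀ * (k : ℝ) ^ (1 + (E : ℝ) * m)) ^ (-τ) ≤ (k * (c₀ * q)) ^ (-τ) :=
    Real.rpow_le_rpow_of_nonpos (by positivity) h5 (by linarith)
  refine le_trans ?_ h6
  rw [Real.mul_rpow hc₀0.le (by positivity), ← Real.rpow_mul hk0.le]
  have h7 : K * c₀ ^ τ * (k : ℝ) ^ (1 - (E : ℝ)) ≤ (k : ℝ) ^ ((1 + (E : ℝ) * m) * -τ) := by
    calc K * c₀ ^ τ * (k : ℝ) ^ (1 - (E : ℝ))
        ≤ (k : ℝ) ^ ((E : ℝ) - 1 - τ * (1 + E * m)) * (k : ℝ) ^ (1 - (E : ℝ)) := by gcongr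
      _ = _ := by
          rw [← Real.rpow_add hk0]
          congr 1; ring
  have h8 : c₀ ^ (-τ) * c₀ ^ τ = 1 := by
    rw [← Real.rpow_add hc₀0]; simp
  have h9 : k * (K * (1 / (k : ℝ) ^ E)) = K * (k : ℝ) ^ (1 - (E : ℝ)) := by
    rw [Real.rpow_sub hk0, Real.rpow_one, Real.rpow_natCast]
    ring
  rw [h9]
  calc K * (k : ℝ) ^ (1 - (E : ℝ)) = c₀ ^ (-τ) * (K * c₀ ^ τ * (k : ℝ) ^ (1 - (E : ℝ))) := by
        calc _ = (c₀ ^ (-τ) * c₀ ^ τ) * (K * (k : ℝ) ^ (1 - (E : ℝ))) := by rw [h8, one_mul]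
          _ = _ := by ring
    _ ≤ _ := by gcongr

/-- a basis of the rational space of the weights which consists of weights -/
lemma exists_basis {r : ℕ} (w : Fin r → ℝ) : ∃ v : Fin (Module.finrank ℚ
    (Submodule.span ℚ (range w))) → ℝ, (∀ i, v i ∈ range w) ∧ LinearIndependent ℚ v ∧
    Submodule.span ℚ (range w) = Submodule.span ℚ (range v) := by
  have : FiniteDimensional ℚ (Submodule.span ℚ (range w)) :=
    FiniteDimensional.span_of_finite ℚ (Set.finite_range w)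
  obtain ⟨f, h3, h5, h4⟩ := Submodule.exists_fun_fin_finrank_span_eq ℚ (range w)
  exact ⟨f, h3, h4, h5.symm⟩

lemma dim_ne_zero {r : ℕ} {w : Fin r → ℝ} (hr : 1 ≤ r) (hw : ∀ j, 0 < w j) :
    Module.finrank ℚ (Submodule.span ℚ (range w)) ≠ 0 := by
  intro h
  have : FiniteDimensional ℚ (Submodule.span ℚ (range w)) :=
    FiniteDimensional.span_of_finite ℚ (Set.finite_range w)
  have h1 := Submodule.finrank_eq_zero.1 h
  have h2 : w ⟨0, hr⟩ ∈ Submodule.span ℚ (range w) :=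
    Submodule.subset_span (mem_range_self _)
  rw [h1, Submodule.mem_bot] at h2
  have := hw ⟨0, hr⟩
  linarith

/-- all weights of dimension `d` are resonant for all `τ` with `τ (d - 1) < 1` -/
theorem resonant_dim {r : ℕ} {w : Fin r → ℝ} (hr : 1 ≤ r) (hw : ∀ j, 0 < w j) {τ : ℝ} (hτ : 0 < τ)
    (hd : τ * (((Module.finrank ℚ (Submodule.span ℚ (range w)) : ℕ) : ℝ) - 1) < 1) :
    Resonant w τ := by
  obtain ⟨v, hvw, hv, hspan⟩ := exists_basis w
  have hd1 := dim_ne_zero hr hw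
  obtain ⟨m, hm⟩ := Nat.exists_eq_succ_of_ne_zero hd1
  revert v
  rw [hm] at hd ⊢
  intro v hvw hv hspan
  have hτm : τ * m < 1 := by
    push_cast at hd
    linarith
  have hv0 : 0 < v 0 := by
    obtain ⟨j, hj⟩ := hvw 0
    rw [← hj]
    exact hw j
  obtain ⟨B, e, he, hdet, hwB⟩ := lin hv hspan
  refine resonant_basis (v := v) (B := B) hv0 (fun j => ?_) hτ hτm
  rw [hwB]
  simp [rm, Matrix.mulVec, dotProduct]

end Pool.Agent.K6.H31.BR
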