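import Mathlib

set_option autoImplicit false

/-!
# Dyadic sums
-/

namespace Pool.Agent.K6.H31.BR

open Finset Filter Topology MeasureTheory Set

lemma sum_two_pow {κ : ℝ} (hκ : 0 < κ) :
    Summable fun m : ℕ => ((2 : ℝ) ^ m) ^ κ * Real.exp (-(2 : ℝ) ^ m) := by
  obtain ⟨k, hk⟩ := exists_nat_ge κ
  have h1 := Real.summable_pow_mul_exp_neg_nat_mul k (one_pos)
  have h2 : Function.Injective fun m : ℕ => 2 ^ m := Nat.pow_right_injective le_rfl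
  have h3 := h1.comp_injective h2
  refine Summable.of_nonneg_of_le (fun m => by positivity) (fun m => ?_) h3
  simp only [Function.comp]
  push_cast
  have h4 : (1 : ℝ) ≤ 2 ^ m := one_le_pow₀ (by norm_num)
  have h5 : ((2 : ℝ) ^ m) ^ κ ≤ ((2 : ℝ) ^ m) ^ k := by
    rw [← Real.rpow_natCast ((2 : ℝ) ^ m) k]
    exact Real.rpow_le_rpow_of_exponent_le h4 hk
  have h6 : Real.exp (-(2 : ℝ) ^ m) = Real.exp (-1 * 2 ^ m) := by rw [neg_one_mul]
  rw [h6]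
  gcongr

/-- dyadic sums with exponential decay -/
lemma dyad_real {κ : ℝ} (hκ : 0 < κ) : ∃ C : ℝ, 0 ≤ C ∧ ∀ T : ℝ, 1 ≤ T →
    (Summable fun n : ℕ => ((2 : ℝ) ^ n) ^ κ * Real.exp (-((2 : ℝ) ^ n / T))) ∧
    ∑' n : ℕ, ((2 : ℝ) ^ n) ^ κ * Real.exp (-((2 : ℝ) ^ n / T)) ≤ C * T ^ κ := by
  have hS := sum_two_pow hκ
  set S := ∑' m : ℕ, ((2 : ℝ) ^ m) ^ κ * Real.exp (-(2 : ℝ) ^ m) with hSd
  have hS0 : 0 ≤ S := tsum_nonneg fun m => by positivity
  have hq : 1 < (2 : ℝ) ^ κ := Real.one_lt_rpow (by norm_num) hκ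
  have hq0 : 0 < (2 : ℝ) ^ κ - 1 := by linarith
  refine ⟨(2 : ℝ) ^ κ / ((2 : ℝ) ^ κ - 1) + 2 ^ κ * S, by positivity, fun T hT => ?_⟩
  have hT0 : 0 < T := by linarith
  obtain ⟨N, hN1, hN2⟩ := exists_nat_pow_near hT (one_lt_two)
  set f : ℕ → ℝ := fun n : ℕ => ((2 : ℝ) ^ n) ^ κ * Real.exp (-((2 : ℝ) ^ n / T)) with hf
  have htail : ∀ m : ℕ, f (m + (N + 1)) ≤ (2 * T) ^ κ * (((2 : ℝ) ^ m) ^ κ * Real.exp (-(2 : ℝ) ^ m)) := by
    intro m
    have h1 : ((2 : ℝ) ^ (m + (N + 1))) = 2 ^ m * 2 ^ (N + 1) := pow_add _ _ _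
    have h2 : (2 : ℝ) ^ (N + 1) ≤ 2 * T := by rw [pow_succ]; linarith
    have h3 : Real.exp (-((2 : ℝ) ^ (m + (N + 1)) / T)) ≤ Real.exp (-(2 : ℝ) ^ m) := by
      apply Real.exp_le_exp.2
      rw [h1, neg_le_neg_iff, le_div_iff₀ hT0]
      have : (0 : ℝ) < 2 ^ m := by positivity
      nlinarith
    have h4 : ((2 : ℝ) ^ (m + (N + 1))) ^ κ ≤ (2 * T) ^ κ * ((2 : ℝ) ^ m) ^ κ := by
      rw [h1, Real.mul_rpow (by positivity) (by positivity), mul_comm]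
      gcongr
    calc f (m + (N + 1)) ≤ ((2 * T) ^ κ * ((2 : ℝ) ^ m) ^ κ) * Real.exp (-(2 : ℝ) ^ m) := by
          simp only [hf]; gcongr
      _ = _ := by ring
  have hs1 : Summable fun m => f (m + (N + 1)) :=
    Summable.of_nonneg_of_le (fun m => by simp only [hf]; positivity) htail (hS.mul_left _)
  have hs : Summable f := (summable_nat_add_iff (N + 1)).1 hs1
  refine ⟨hs, ?_⟩
  rw [← hs.sum_add_tsum_nat_add (N + 1)]
  have ht : ∑' m, f (m + (N + 1)) ≤ 2 ^ κ * S * T ^ κ := by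
    calc _ ≤ ∑' m : ℕ, (2 * T) ^ κ * (((2 : ℝ) ^ m) ^ κ * Real.exp (-(2 : ℝ) ^ m)) :=
          hs1.tsum_le_tsum htail (hS.mul_left _)
      _ = (2 * T) ^ κ * S := by rw [tsum_mul_left]
      _ = _ := by rw [Real.mul_rpow (by norm_num) hT0.le]; ring
  have hh : ∑ i ∈ range (N + 1), f i ≤ (2 : ℝ) ^ κ / ((2 : ℝ) ^ κ - 1) * T ^ κ := by
    have h1 : ∀ i ∈ range (N + 1), f i ≤ ((2 : ℝ) ^ κ) ^ i := by
      intro i _
      have h2 : ((2 : ℝ) ^ i) ^ κ = ((2 : ℝ) ^ κ) ^ i := by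
        rw [← Real.rpow_natCast, ← Real.rpow_natCast, ← Real.rpow_mul (by norm_num),
          ← Real.rpow_mul (by norm_num), mul_comm]
      have h3 : Real.exp (-((2 : ℝ) ^ i / T)) ≤ 1 := by
        rw [Real.exp_le_one_iff]
        have : 0 ≤ (2 : ℝ) ^ i / T := by positivity
        linarith
      calc f i ≤ ((2 : ℝ) ^ i) ^ κ * 1 := by simp only [hf]; gcongr
        _ = _ := by rw [mul_one, h2]
    have h2 : ∑ i ∈ range (N + 1), ((2 : ℝ) ^ κ) ^ i ≤ (2 : ℝ) ^ κ / ((2 : ℝ) ^ κ - 1) * T ^ κ := by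
      rw [geom_sum_eq hq.ne', div_mul_eq_mul_div]
      apply div_le_div_of_nonneg_right _ hq0.le
      have h3 : ((2 : ℝ) ^ κ) ^ (N + 1) = 2 ^ κ * ((2 : ℝ) ^ N) ^ κ := by
        rw [pow_succ, mul_comm]
        congr 1
        rw [← Real.rpow_natCast, ← Real.rpow_natCast, ← Real.rpow_mul (by norm_num),
          ← Real.rpow_mul (by norm_num), mul_comm]
      rw [h3]
      have h4 : ((2 : ℝ) ^ N) ^ κ ≤ T ^ κ := Real.rpow_le_rpow (by positivity) hN1 hκ.le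
      nlinarith
    exact (Finset.sum_le_sum h1).trans h2
  calc _ ≤ (2 : ℝ) ^ κ / ((2 : ℝ) ^ κ - 1) * T ^ κ + 2 ^ κ * S * T ^ κ := add_le_add hh ht
    _ = _ := by ring

/-- weighted integrals of functions with a mean value bound -/
lemma weighted {A σ η : ℝ} (hA : 0 ≤ A) (hη : 0 ≤ η) (hσ : 0 < σ) : ∃ C : ℝ, 0 ≤ C ∧
    ∀ G : ℝ → ENNReal, (∀ X : ℝ, 1 ≤ X → ∫⁻ t in Icc 1 X, G t ≤ ENNReal.ofReal (A * X ^ (1 + η))) →
    ∀ T : ℝ, 1 ≤ T → ∫⁻ t in Ici 1, ENNReal.ofReal (t ^ (2 * σ - 1) * Real.exp (-(2 * t / T))) * G t ≤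
      ENNReal.ofReal (C * T ^ (2 * σ + η)) := by
  obtain ⟨C, hC, h⟩ := dyad_real (κ := 2 * σ + η) (by linarith)
  set M : ℝ := 2 ^ |2 * σ - 1| with hM
  have hM0 : 0 < M := by positivity
  refine ⟨M * A * 2 ^ (1 + η) * C, by positivity, fun G hG T hT => ?_⟩
  have hT0 : 0 < T := by linarith
  obtain ⟨hs, hle⟩ := h T hT
  have hcov : Ici (1 : ℝ) ⊆ ⋃ n : ℕ, Icc ((2 : ℝ) ^ n) (2 ^ (n + 1)) := by
    intro t ht
    obtain ⟨n, h1, h2⟩ := exists_nat_pow_near (show (1 : ℝ) ≤ t from ht) (one_lt_two)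
    exact Set.mem_iUnion.2 ⟨n, h1, h2.le⟩
  have hpiece : ∀ n : ℕ, ∫⁻ t in Icc ((2 : ℝ) ^ n) (2 ^ (n + 1)),
      ENNReal.ofReal (t ^ (2 * σ - 1) * Real.exp (-(2 * t / T))) * G t ≤
      ENNReal.ofReal (M * A * 2 ^ (1 + η) * (((2 : ℝ) ^ n) ^ (2 * σ + η) *
        Real.exp (-((2 : ℝ) ^ n / T)))) := by
    intro n
    set x : ℝ := 2 ^ n with hx
    have hx1 : 1 ≤ x := one_le_pow₀ (by norm_num)
    have hx0 : 0 < x := by linarith
    have hx2 : (2 : ℝ) ^ (n + 1) = 2 * x := by rw [pow_succ, mul_comm]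
    rw [hx2]
    have h1 : ∀ t ∈ Icc x (2 * x), ENNReal.ofReal (t ^ (2 * σ - 1) * Real.exp (-(2 * t / T))) * G t ≤
        ENNReal.ofReal (M * x ^ (2 * σ - 1) * Real.exp (-(x / T))) * G t := by
      intro t ht
      have ht0 : 0 < t := by linarith [ht.1]
      refine mul_le_mul_left (ENNReal.ofReal_le_ofReal ?_) _
      have h2 : t ^ (2 * σ - 1) ≤ M * x ^ (2 * σ - 1) := by
        rcases le_total 0 (2 * σ - 1) with h3 | h3
        · rw [hM, abs_of_nonneg h3, ← Real.mul_rpow (by norm_num) hx0.le]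
          exact Real.rpow_le_rpow ht0.le ht.2 h3
        · have h4 : t ^ (2 * σ - 1) ≤ x ^ (2 * σ - 1) :=
            Real.rpow_le_rpow_of_nonpos hx0 ht.1 h3
          have h5 : 1 ≤ M := by
            rw [hM]
            exact Real.one_le_rpow (by norm_num) (abs_nonneg _)
          have h6 : 0 ≤ x ^ (2 * σ - 1) := by positivity
          nlinarith
      have h3 : Real.exp (-(2 * t / T)) ≤ Real.exp (-(x / T)) := by
        apply Real.exp_le_exp.2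
        rw [neg_le_neg_iff]
        apply div_le_div_of_nonneg_right _ hT0.le
        linarith [ht.1]
      gcongr
    have hsub : Icc x (2 * x) ⊆ Icc 1 (2 * x) := Icc_subset_Icc_left hx1
    calc _ ≤ ∫⁻ t in Icc x (2 * x), ENNReal.ofReal (M * x ^ (2 * σ - 1) * Real.exp (-(x / T))) * G t :=
          setLIntegral_mono' measurableSet_Icc h1
      _ = ENNReal.ofReal (M * x ^ (2 * σ - 1) * Real.exp (-(x / T))) * ∫⁻ t in Icc x (2 * x), G t := by
          rw [lintegral_const_mul' _ _ ENNReal.ofReal_ne_top]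
      _ ≤ ENNReal.ofReal (M * x ^ (2 * σ - 1) * Real.exp (-(x / T))) *
          ENNReal.ofReal (A * (2 * x) ^ (1 + η)) := by
          gcongr
          exact (lintegral_mono_set hsub).trans (hG (2 * x) (by linarith))
      _ = _ := by
          rw [← ENNReal.ofReal_mul (by positivity)]
          congr 1
          rw [Real.mul_rpow (by norm_num) hx0.le]
          have h2 : x ^ (2 * σ + η) = x ^ (2 * σ - 1) * x ^ (1 + η) := by
            rw [← Real.rpow_add hx0]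
            congr 1; ring
          rw [h2]
          ring
  have hnn : ∀ n : ℕ, 0 ≤ M * A * 2 ^ (1 + η) * (((2 : ℝ) ^ n) ^ (2 * σ + η) *
        Real.exp (-((2 : ℝ) ^ n / T))) := fun n => by positivity
  calc _ ≤ ∫⁻ t in ⋃ n : ℕ, Icc ((2 : ℝ) ^ n) (2 ^ (n + 1)),
        ENNReal.ofReal (t ^ (2 * σ - 1) * Real.exp (-(2 * t / T))) * G t := lintegral_mono_set hcov
    _ ≤ ∑' n : ℕ, ∫⁻ t in Icc ((2 : ℝ) ^ n) (2 ^ (n + 1)),
        ENNReal.ofReal (t ^ (2 * σ - 1) * Real.exp (-(2 * t / T))) * G t := lintegral_iUnion_le _ _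
    _ ≤ ∑' n : ℕ, ENNReal.ofReal (M * A * 2 ^ (1 + η) * (((2 : ℝ) ^ n) ^ (2 * σ + η) *
        Real.exp (-((2 : ℝ) ^ n / T)))) := ENNReal.tsum_le_tsum hpiece
    _ = ENNReal.ofReal (∑' n : ℕ, M * A * 2 ^ (1 + η) * (((2 : ℝ) ^ n) ^ (2 * σ + η) *
        Real.exp (-((2 : ℝ) ^ n / T)))) := (ENNReal.ofReal_tsum_of_nonneg hnn (hs.mul_left _)).symm
    _ ≤ _ := by
        apply ENNReal.ofReal_le_ofReal
        rw [tsum_mul_left, mul_assoc (M * A * 2 ^ (1 + η))]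
        gcongr

end Pool.Agent.K6.H31.BR
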