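import Mathlib

set_option autoImplicit false

/-!
# Sums over multiples of a number which is not too well approximable
-/

namespace Pool.Agent.K6.H31.BR

open Finset

/-- the distance to the nearest integer -/
noncomputable def nd (y : ℝ) : ℝ := |y - round y|

lemma nd_nonneg (y : ℝ) : 0 ≤ nd y := abs_nonneg _

lemma nd_le_half (y : ℝ) : nd y ≤ 1 / 2 := abs_sub_round y

lemma nd_le (y : ℝ) (z : ℤ) : nd y ≤ |y - z| := round_le y z

lemma nd_sub_le (x y : ℝ) : nd (x - y) ≤ nd x + nd y := by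
  refine (nd_le (x - y) (round x - round y)).trans ?_
  have h : x - y - ((round x - round y : ℤ) : ℝ) = (x - round x) - (y - round y) := by
    push_cast; ring
  rw [h]
  exact abs_sub _ _

/-- the size of the resonance at `l` -/
structure Gauge (M : ℕ → ℝ) : Prop where
  nonneg : ∀ l, 0 ≤ M l
  bdd : ∃ B : ℝ, ∀ l, M l ≤ B
  sub : ∀ l l', l < l' → M (l' - l) ≤ M l + M l'

variable {M : ℕ → ℝ} {θ c : ℝ}

/-- the number of small values -/
lemma count (hM : Gauge M) (hθ : 0 ≤ θ) (hθ2 : θ ≤ 2) (hc : 0 < c)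
    (H : ∀ l : ℕ, 1 ≤ l → c ≤ l * M l ^ θ) (V : ℕ) {y : ℝ} (hy : 0 < y) :
    (((Icc 1 V).filter fun l : ℕ => M l ≤ y).card : ℝ) ≤ 5 / c * (V * y ^ θ) := by
  set A := (Icc 1 V).filter fun l : ℕ => M l ≤ y with hA
  rcases A.eq_empty_or_nonempty with h0 | ⟨l₀, hl₀⟩
  · rw [h0]
    simp only [card_empty, Nat.cast_zero]
    positivity
  set D : ℝ := c * ((2 * y) ^ θ)⁻¹ with hD
  have h2y : 0 < (2 * y) ^ θ := by positivity
  have hD0 : 0 < D := by positivity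
  have hsep : ∀ l ∈ A, ∀ l' ∈ A, l < l' → (l : ℝ) + D ≤ l' := by
    intro l hl l' hl' hll
    rw [hA, Finset.mem_filter, Finset.mem_Icc] at hl hl'
    have h1 := H (l' - l) (by omega)
    have h2 : M (l' - l) ≤ 2 * y := by
      have := hM.sub l l' hll
      linarith [hl.2, hl'.2]
    have h3 : M (l' - l) ^ θ ≤ (2 * y) ^ θ :=
      Real.rpow_le_rpow (hM.nonneg _) h2 hθ
    have h4 : c ≤ ((l' - l : ℕ) : ℝ) * (2 * y) ^ θ := by
      refine h1.trans ?_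
      gcongr
    rw [Nat.cast_sub hll.le] at h4
    have h5 : D ≤ (l' : ℝ) - l := by
      rw [hD, ← div_eq_mul_inv, div_le_iff₀ h2y]
      exact h4
    linarith
  have hinj : Set.InjOn (fun l : ℕ => ⌊(l : ℝ) / D⌋₊) A := by
    intro l hl l' hl' h
    have key : ∀ m ∈ A, ∀ m' ∈ A, m < m' → ⌊(m : ℝ) / D⌋₊ < ⌊(m' : ℝ) / D⌋₊ := by
      intro m hm m' hm' hmm
      have h1 := hsep m hm m' hm' hmm
      have h2 : (m : ℝ) / D + 1 ≤ m' / D := by
        rw [le_div_iff₀ hD0, add_mul, div_mul_cancel₀ _ hD0.ne', one_mul]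
        exact h1
      have h3 : ⌊(m : ℝ) / D⌋₊ + 1 ≤ ⌊(m' : ℝ) / D⌋₊ := by
        rw [← Nat.floor_add_one (by positivity)]
        exact Nat.floor_le_floor h2
      omega
    rcases lt_trichotomy l l' with h1 | h1 | h1
    · exact absurd h (key l hl l' hl' h1).ne
    · exact h1
    · exact absurd h (key l' hl' l hl h1).ne'
  have hmaps : ∀ l ∈ A, ⌊(l : ℝ) / D⌋₊ ∈ range (⌊(V : ℝ) / D⌋₊ + 1) := by
    intro l hl
    rw [hA, Finset.mem_filter, Finset.mem_Icc] at hl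
    rw [Finset.mem_range, Nat.lt_succ_iff]
    apply Nat.floor_le_floor
    have : (l : ℝ) ≤ V := by exact_mod_cast hl.1.2
    gcongr
  have hcard : (A.card : ℝ) ≤ V / D + 1 := by
    have h1 := Finset.card_le_card_of_injOn _ hmaps hinj
    rw [card_range] at h1
    have h2 : (A.card : ℝ) ≤ (⌊(V : ℝ) / D⌋₊ : ℝ) + 1 := by exact_mod_cast h1
    have h3 := Nat.floor_le (show 0 ≤ (V : ℝ) / D by positivity)
    linarith
  have hone : (1 : ℝ) ≤ 1 / c * (V * y ^ θ) := by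
    rw [hA, Finset.mem_filter, Finset.mem_Icc] at hl₀
    have h1 := H l₀ hl₀.1.1
    have h2 : M l₀ ^ θ ≤ y ^ θ := Real.rpow_le_rpow (hM.nonneg _) hl₀.2 hθ
    have h3 : (l₀ : ℝ) ≤ V := by exact_mod_cast hl₀.1.2
    have h4 : c ≤ V * y ^ θ := by
      refine h1.trans ?_
      gcongr
      exact Real.rpow_nonneg (hM.nonneg _) _
    rw [one_div, ← div_eq_inv_mul, le_div_iff₀ hc]
    linarith
  have hVD : (V : ℝ) / D ≤ 4 / c * (V * y ^ θ) := by
    have h1 : (2 * y) ^ θ ≤ 4 * y ^ θ := by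
      rw [Real.mul_rpow (by norm_num) hy.le]
      have : (2 : ℝ) ^ θ ≤ 2 ^ (2 : ℝ) := Real.rpow_le_rpow_of_exponent_le (by norm_num) hθ2
      have h22 : (2 : ℝ) ^ (2 : ℝ) = 4 := by norm_num
      rw [h22] at this
      gcongr
    have h2 : (V : ℝ) / D = 1 / c * (V * (2 * y) ^ θ) := by
      rw [hD]; field_simp
    rw [h2]
    calc 1 / c * (V * (2 * y) ^ θ) ≤ 1 / c * (V * (4 * y ^ θ)) := by gcongr
      _ = _ := by ring
  calc (A.card : ℝ) ≤ 4 / c * (V * y ^ θ) + 1 / c * (V * y ^ θ) := by linarith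
    _ = _ := by ring

lemma pt_bound {ρ δ : ℝ} (hρ0 : 0 ≤ ρ) (hδ : 0 < δ) {I : ℕ} (hI : ρ ≤ 2 ^ I * δ) :
    (δ ^ 2 + ρ ^ 2)⁻¹ ≤ ∑ i ∈ range (I + 1), 4 * ((4 : ℝ) ^ i)⁻¹ * (δ ^ 2)⁻¹ *
      (if ρ ≤ 2 ^ i * δ then 1 else 0) := by
  classical
  have hex : ∃ i : ℕ, ρ ≤ 2 ^ i * δ := ⟨I, hI⟩
  set i := Nat.find hex with hi
  have h1 : ρ ≤ 2 ^ i * δ := Nat.find_spec hex
  have h2 : i ≤ I := Nat.find_le hI
  have h3 : (δ ^ 2 + ρ ^ 2)⁻¹ ≤ 4 * ((4 : ℝ) ^ i)⁻¹ * (δ ^ 2)⁻¹ * (if ρ ≤ 2 ^ i * δ then 1 else 0) := by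
    rw [if_pos h1, mul_one]
    rcases Nat.eq_zero_or_pos i with h4 | h4
    · rw [h4, pow_zero, inv_one, mul_one]
      have h5 : (δ ^ 2 + ρ ^ 2)⁻¹ ≤ (δ ^ 2)⁻¹ := by
        apply inv_anti₀ (by positivity)
        nlinarith [sq_nonneg ρ]
      have h6 : 0 < (δ ^ 2)⁻¹ := by positivity
      linarith
    · have h5 : ¬ ρ ≤ 2 ^ (i - 1) * δ := Nat.find_min hex (by omega)
      push Not at h5
      have h6 : (4 : ℝ) ^ i = 4 * (2 ^ (i - 1)) ^ 2 := by
        have : (4 : ℝ) ^ i = 4 ^ ((i - 1) + 1) := by congr 1; omega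
        rw [this, pow_succ, ← pow_mul, mul_comm (i - 1) 2, pow_mul]
        norm_num
        ring
      have h7 : 4 * ((4 : ℝ) ^ i)⁻¹ * (δ ^ 2)⁻¹ = ((2 ^ (i - 1) * δ) ^ 2)⁻¹ := by
        rw [h6, mul_pow]
        field_simp
      rw [h7]
      apply inv_anti₀ (by positivity)
      have h8 : 0 < (2 : ℝ) ^ (i - 1) * δ := by positivity
      nlinarith [sq_nonneg δ]
  refine h3.trans (Finset.single_le_sum (f := fun i : ℕ => 4 * ((4 : ℝ) ^ i)⁻¹ * (δ ^ 2)⁻¹ *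
      (if ρ ≤ 2 ^ i * δ then 1 else 0)) (fun j _ => ?_) (Finset.mem_range.2 (by omega)))
  split_ifs <;> positivity

/-- the sum of the inverse squares -/
lemma sum_inv (hM : Gauge M) (hθ : 0 ≤ θ) (hθ2 : θ < 2) (hc : 0 < c)
    (H : ∀ l : ℕ, 1 ≤ l → c ≤ l * M l ^ θ) (V : ℕ) {δ : ℝ} (hδ : 0 < δ) :
    ∑ l ∈ Icc 1 V, (δ ^ 2 + M l ^ 2)⁻¹ ≤ 20 / c / (1 - 2 ^ (θ - 2)) * (V * δ ^ (θ - 2)) := by
  obtain ⟨B, hB⟩ := hM.bdd
  obtain ⟨I, hI⟩ := pow_unbounded_of_one_lt (B / δ) (one_lt_two)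
  have hI' : ∀ l : ℕ, M l ≤ 2 ^ I * δ := by
    intro l
    rw [div_lt_iff₀ hδ] at hI
    exact (hB l).trans hI.le
  set q : ℝ := 2 ^ (θ - 2) with hq
  have hq0 : 0 < q := by positivity
  have hq1 : q < 1 := Real.rpow_lt_one_of_one_lt_of_neg (by norm_num) (by linarith)
  calc ∑ l ∈ Icc 1 V, (δ ^ 2 + M l ^ 2)⁻¹
      ≤ ∑ l ∈ Icc 1 V, ∑ i ∈ range (I + 1), 4 * ((4 : ℝ) ^ i)⁻¹ * (δ ^ 2)⁻¹ *
        (if M l ≤ 2 ^ i * δ then 1 else 0) :=
        Finset.sum_le_sum fun l _ => pt_bound (hM.nonneg _) hδ (hI' l)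
    _ = ∑ i ∈ range (I + 1), 4 * ((4 : ℝ) ^ i)⁻¹ * (δ ^ 2)⁻¹ *
        (((Icc 1 V).filter fun l : ℕ => M l ≤ 2 ^ i * δ).card : ℝ) := by
        rw [Finset.sum_comm]
        refine Finset.sum_congr rfl fun i _ => ?_
        rw [← Finset.mul_sum, Finset.sum_boole]
    _ ≤ ∑ i ∈ range (I + 1), (20 / c * (V * δ ^ (θ - 2))) * q ^ i := by
        refine Finset.sum_le_sum fun i _ => ?_
        have h1 := count hM hθ hθ2.le hc H V (y := 2 ^ i * δ) (by positivity)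
        have h2 : ((2 : ℝ) ^ i * δ) ^ θ = (2 ^ θ) ^ i * δ ^ θ := by
          rw [Real.mul_rpow (by positivity) hδ.le]
          congr 1
          rw [← Real.rpow_natCast, ← Real.rpow_mul (by norm_num), mul_comm, Real.rpow_mul (by norm_num),
            Real.rpow_natCast]
        have h4 : δ ^ (θ - 2) = δ ^ θ * (δ ^ 2)⁻¹ := by
          rw [Real.rpow_sub hδ, div_eq_mul_inv]
          norm_cast
        have h5 : q = 2 ^ θ / 4 := by
          rw [hq, Real.rpow_sub (by norm_num)]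
          norm_num
        calc _ ≤ 4 * ((4 : ℝ) ^ i)⁻¹ * (δ ^ 2)⁻¹ * (5 / c * (V * ((2 ^ θ) ^ i * δ ^ θ))) := by
              rw [h2] at h1
              gcongr
          _ = _ := by
              rw [h4, h5, div_pow]
              have : (4 : ℝ) ^ i ≠ 0 := by positivity
              field_simp
              ring
    _ = (20 / c * (V * δ ^ (θ - 2))) * ∑ i ∈ range (I + 1), q ^ i := by
        rw [Finset.mul_sum]
    _ ≤ (20 / c * (V * δ ^ (θ - 2))) * (1 - q)⁻¹ := by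
        gcongr
        rw [← tsum_geometric_of_lt_one hq0.le hq1]
        exact (summable_geometric_of_lt_one hq0.le hq1).sum_le_tsum _ fun i _ => by positivity
    _ = _ := by
        rw [← div_eq_mul_inv]
        ring

/-- the sum of the inverse squares of the distances, interpolated with the bound from the smallest distance -/
lemma sum_inv2 (hM : Gauge M) (hθ : 0 ≤ θ) (hθ2 : θ < 2) (hc : 0 < c)
    (H : ∀ l : ℕ, 1 ≤ l → c ≤ l * M l ^ θ) {Λ : ℝ} (hΛ : 0 ≤ Λ) (hΛθ : Λ * θ ≤ 2 - θ) :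
    ∃ C : ℝ, 0 ≤ C ∧ ∀ (V : ℕ) (δ : ℝ), 1 ≤ V → 0 < δ →
      ∑ l ∈ Icc 1 V, (δ ^ 2 + M l ^ 2)⁻¹ ≤
        C * (V * (δ ^ (-(2 - θ - Λ * θ)) * (V : ℝ) ^ Λ)) := by
  have hq1 : (2 : ℝ) ^ (θ - 2) < 1 := Real.rpow_lt_one_of_one_lt_of_neg (by norm_num) (by linarith)
  obtain ⟨K, hK⟩ : ∃ K : ℝ, K = 20 / c / (1 - 2 ^ (θ - 2)) := ⟨_, rfl⟩
  have hKp : 0 < K := by
    rw [hK]
    exact div_pos (by positivity) (by linarith)
  have hK0 : 0 ≤ K := hKp.le
  rcases hθ.eq_or_lt with h0 | h0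
  · subst h0
    refine ⟨K, hK0, fun V δ hV hδ => ?_⟩
    have hV1 : (1 : ℝ) ≤ V := by exact_mod_cast hV
    refine (sum_inv hM le_rfl hθ2 hc H V hδ).trans ?_
    rw [← hK]
    have h1 : (1 : ℝ) ≤ (V : ℝ) ^ Λ := Real.one_le_rpow hV1 hΛ
    have h2 : (-(2 - 0 - Λ * 0) : ℝ) = 0 - 2 := by ring
    rw [h2]
    have h3 : 0 < δ ^ ((0 : ℝ) - 2) := by positivity
    gcongr
    nlinarith
  · set lam : ℝ := Λ * θ / (2 - θ) with hlam
    have h2θ : 0 < 2 - θ := by linarith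
    have hl0 : 0 ≤ lam := by positivity
    have hl1 : lam ≤ 1 := by rw [hlam, div_le_one h2θ]; exact hΛθ
    refine ⟨K ^ (1 - lam) * (2 * K) ^ lam * c ^ (-Λ), by positivity, fun V δ hV hδ => ?_⟩
    have hV1 : (1 : ℝ) ≤ V := by exact_mod_cast hV
    have hV0 : (0 : ℝ) < V := by linarith
    set S : ℝ := ∑ l ∈ Icc 1 V, (δ ^ 2 + M l ^ 2)⁻¹ with hS
    have hS0 : 0 < S := by
      rw [hS]
      refine Finset.sum_pos (fun l _ => by positivity) ⟨1, Finset.mem_Icc.2 ⟨le_rfl, hV⟩⟩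
    have hA := sum_inv hM hθ hθ2 hc H V hδ
    rw [← hS, ← hK] at hA
    set δ₀ : ℝ := (c / V) ^ (1 / θ) with hδ₀
    have hδ₀0 : 0 < δ₀ := by positivity
    have hB : S ≤ 2 * K * (V * δ₀ ^ (θ - 2)) := by
      have h1 := sum_inv hM hθ hθ2 hc H V hδ₀0
      rw [← hK] at h1
      calc S ≤ ∑ l ∈ Icc 1 V, 2 * (δ₀ ^ 2 + M l ^ 2)⁻¹ := by
            refine Finset.sum_le_sum fun l hl => ?_
            rw [Finset.mem_Icc] at hl
            have hl0 : (0 : ℝ) < l := by exact_mod_cast hl.1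
            have hlV : (l : ℝ) ≤ V := by exact_mod_cast hl.2
            have h2 := H l hl.1
            have h3 : c / V ≤ M l ^ θ := by
              rw [div_le_iff₀ hV0]
              have h4 : 0 ≤ M l ^ θ := Real.rpow_nonneg (hM.nonneg _) _
              nlinarith
            have h4 : δ₀ ≤ M l := by
              calc δ₀ ≤ (M l ^ θ) ^ (1 / θ) := by
                    rw [hδ₀]
                    exact Real.rpow_le_rpow (by positivity) h3 (by positivity)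
                _ = M l := by
                    rw [← Real.rpow_mul (hM.nonneg _), mul_one_div_cancel h0.ne', Real.rpow_one]
            have h5 : 0 < M l := lt_of_lt_of_le hδ₀0 h4
            have h6 : δ₀ ^ 2 ≤ M l ^ 2 := by gcongr
            rw [← div_eq_mul_inv, le_div_iff₀ (by positivity), ← div_eq_inv_mul,
              div_le_iff₀ (by positivity)]
            nlinarith [sq_nonneg δ]
        _ = 2 * ∑ l ∈ Icc 1 V, (δ₀ ^ 2 + M l ^ 2)⁻¹ := by rw [Finset.mul_sum]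
        _ ≤ 2 * (K * (V * δ₀ ^ (θ - 2))) := by gcongr
        _ = _ := by ring
    have hAB : S ≤ (K * (V * δ ^ (θ - 2))) ^ (1 - lam) *
        (2 * K * (V * δ₀ ^ (θ - 2))) ^ lam := by
      calc S = S ^ (1 - lam) * S ^ lam := by
            rw [← Real.rpow_add hS0]
            norm_num
        _ ≤ _ := by
            have h1 : S ^ (1 - lam) ≤ (K * (V * δ ^ (θ - 2))) ^ (1 - lam) :=
              Real.rpow_le_rpow hS0.le hA (by linarith)
            have h2 : S ^ lam ≤ (2 * K * (V * δ₀ ^ (θ - 2))) ^ lam :=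
              Real.rpow_le_rpow hS0.le hB hl0
            gcongr
    refine hAB.trans (le_of_eq ?_)
    have e1 : δ₀ ^ (θ - 2) = (c / V) ^ ((θ - 2) / θ) := by
      rw [hδ₀, ← Real.rpow_mul (by positivity)]
      congr 1; ring
    have e2 : (K * (V * δ ^ (θ - 2))) ^ (1 - lam) =
        (K) ^ (1 - lam) * ((V : ℝ) ^ (1 - lam) * δ ^ (-(2 - θ - Λ * θ))) := by
      rw [Real.mul_rpow (by positivity) (by positivity), Real.mul_rpow (by positivity) (by positivity),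
        ← Real.rpow_mul hδ.le]
      congr 3
      rw [hlam]; field_simp; ring
    have e3 : (2 * K * (V * δ₀ ^ (θ - 2))) ^ lam =
        (2 * K) ^ lam * ((V : ℝ) ^ lam * (c ^ (-Λ) * (V : ℝ) ^ Λ)) := by
      rw [e1, Real.mul_rpow (x := 2 * K) (by positivity) (by positivity),
        Real.mul_rpow (x := (V : ℝ)) (by positivity) (by positivity),
        ← Real.rpow_mul (by positivity)]
      have e4 : (θ - 2) / θ * lam = -Λ := by
        rw [hlam]; field_simp; ring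
      rw [e4, Real.div_rpow hc.le hV0.le, Real.rpow_neg hV0.le, div_inv_eq_mul]
    have e5 : (V : ℝ) = (V : ℝ) ^ (1 - lam) * (V : ℝ) ^ lam := by
      rw [← Real.rpow_add hV0]; norm_num
    rw [e2, e3]
    calc _ = (K) ^ (1 - lam) * (2 * K) ^ lam * c ^ (-Λ) *
          (((V : ℝ) ^ (1 - lam) * (V : ℝ) ^ lam) * (δ ^ (-(2 - θ - Λ * θ)) * (V : ℝ) ^ Λ)) := by ring
      _ = _ := by rw [← e5]

/-- the weighted sum -/
lemma sum_block (hM : Gauge M) (hθ : 0 ≤ θ) (hθ2 : θ < 2) (hc : 0 < c)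
    (H : ∀ l : ℕ, 1 ≤ l → c ≤ l * M l ^ θ) {Λ : ℝ} (hΛ : 0 ≤ Λ) (hΛθ : Λ * θ ≤ 2 - θ)
    {c₂ C₁ s : ℝ} (hc₂ : 0 < c₂) (hC₁ : 0 < C₁)
    (R : ℕ) (hg : 0 < s - (R + 2 - θ) + Λ * (1 + θ)) :
    ∃ C : ℝ, 0 ≤ C ∧ ∀ (T : ℝ) (L : ℕ), 1 ≤ T → (L : ℝ) ≤ C₁ * T →
      ∑ l ∈ Icc 1 L, (l : ℝ) ^ (s - 1) * ((T / l) ^ R * ((c₂ * l / T) ^ 2 + M l ^ 2)⁻¹) ≤
        C * T ^ (s + Λ) := by
  obtain ⟨K₁, hK₁, hinv⟩ := sum_inv2 hM hθ hθ2 hc H hΛ hΛθ
  set g : ℝ := s - (R + 2 - θ) + Λ * (1 + θ) with hgd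
  set Q : ℝ := 2 ^ |s - 1| with hQ
  have hQ0 : 0 < Q := by positivity
  have hQ1 : 1 ≤ Q := Real.one_le_rpow (by norm_num) (abs_nonneg _)
  have hq : 1 < (2 : ℝ) ^ g := Real.one_lt_rpow (by norm_num) hg
  have hq0 : 0 < (2 : ℝ) ^ g - 1 := by linarith
  set K : ℝ := Q * K₁ * 2 * c₂ ^ (-(2 - θ - Λ * θ)) * 2 ^ Λ with hK
  have hK0 : 0 ≤ K := by positivity
  refine ⟨K * (2 ^ g / (2 ^ g - 1)) * C₁ ^ g, by positivity, fun T L hT hL => ?_⟩
  have hT0 : 0 < T := by linarith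
  set f : ℕ → ℝ := fun l => (l : ℝ) ^ (s - 1) * ((T / l) ^ R * ((c₂ * l / T) ^ 2 + M l ^ 2)⁻¹)
    with hf
  rcases Nat.eq_zero_or_pos L with hL0 | hL0
  · subst hL0
    simp only [show Icc 1 0 = (∅ : Finset ℕ) by rfl, sum_empty]
    positivity
  set N := Nat.log 2 L with hN
  have hmaps : ∀ l ∈ Icc 1 L, Nat.log 2 l ∈ range (N + 1) := by
    intro l hl
    rw [Finset.mem_Icc] at hl
    rw [Finset.mem_range, Nat.lt_succ_iff]
    exact Nat.log_mono_right hl.2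
  rw [← Finset.sum_fiberwise_of_maps_to hmaps]
  have hblock : ∀ n ∈ range (N + 1), ∑ l ∈ (Icc 1 L).filter (fun l => Nat.log 2 l = n), f l ≤
      K * T ^ ((R : ℝ) + 2 - θ - Λ * θ) * ((2 : ℝ) ^ g) ^ n := by
    intro n _
    set P : ℝ := 2 ^ n with hP
    have hP0 : 0 < P := by positivity
    have h1 : ∀ l ∈ (Icc 1 L).filter (fun l => Nat.log 2 l = n),
        f l ≤ (Q * P ^ (s - 1) * (T / P) ^ R) * ((c₂ * P / T) ^ 2 + M l ^ 2)⁻¹ := by
      intro l hl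
      rw [Finset.mem_filter, Finset.mem_Icc] at hl
      have hl1 : 1 ≤ l := hl.1.1
      have hl0 : (0 : ℝ) < l := by exact_mod_cast hl1
      have hPl : P ≤ l := by
        have := Nat.pow_log_le_self 2 (show l ≠ 0 by omega)
        rw [hl.2] at this
        rw [hP]
        exact_mod_cast this
      have hlP : (l : ℝ) ≤ 2 * P := by
        have := Nat.lt_pow_succ_log_self (one_lt_two) l
        rw [hl.2] at this
        have h2 : (l : ℝ) ≤ ((2 ^ (n + 1) : ℕ) : ℝ) := by exact_mod_cast this.le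
        push_cast at h2
        rw [pow_succ] at h2
        linarith
      have h2 : (l : ℝ) ^ (s - 1) ≤ Q * P ^ (s - 1) := by
        rcases le_total 0 (s - 1) with h3 | h3
        · rw [hQ, abs_of_nonneg h3, ← Real.mul_rpow (by norm_num) hP0.le]
          exact Real.rpow_le_rpow hl0.le hlP h3
        · have h4 : (l : ℝ) ^ (s - 1) ≤ P ^ (s - 1) := Real.rpow_le_rpow_of_nonpos hP0 hPl h3
          have h6 : 0 ≤ P ^ (s - 1) := by positivity
          nlinarith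
      have h3 : (T / l) ^ R ≤ (T / P) ^ R := by gcongr
      have h4 : ((c₂ * l / T) ^ 2 + M l ^ 2)⁻¹ ≤ ((c₂ * P / T) ^ 2 + M l ^ 2)⁻¹ := by
        apply inv_anti₀ (by positivity)
        gcongr
      calc f l = (l : ℝ) ^ (s - 1) * ((T / l) ^ R * ((c₂ * l / T) ^ 2 + M l ^ 2)⁻¹) := rfl
        _ ≤ (Q * P ^ (s - 1)) * ((T / P) ^ R * ((c₂ * P / T) ^ 2 + M l ^ 2)⁻¹) := by gcongr
        _ = _ := by ring
    have hsub : (Icc 1 L).filter (fun l => Nat.log 2 l = n) ⊆ Icc 1 (2 ^ (n + 1)) := by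
      intro l hl
      rw [Finset.mem_filter, Finset.mem_Icc] at hl
      rw [Finset.mem_Icc]
      refine ⟨hl.1.1, ?_⟩
      have := Nat.lt_pow_succ_log_self (one_lt_two) l
      rw [hl.2] at this
      exact this.le
    have h5 := hinv (2 ^ (n + 1)) (c₂ * P / T) Nat.one_le_two_pow (by positivity)
    have h6 : ((2 ^ (n + 1) : ℕ) : ℝ) = 2 * P := by push_cast; rw [pow_succ, mul_comm]
    rw [h6] at h5
    calc _ ≤ ∑ l ∈ (Icc 1 L).filter (fun l => Nat.log 2 l = n),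
          (Q * P ^ (s - 1) * (T / P) ^ R) * ((c₂ * P / T) ^ 2 + M l ^ 2)⁻¹ :=
          Finset.sum_le_sum h1
      _ ≤ ∑ l ∈ Icc (1 : ℕ) (2 ^ (n + 1)),
          (Q * P ^ (s - 1) * (T / P) ^ R) * ((c₂ * P / T) ^ 2 + M l ^ 2)⁻¹ :=
          Finset.sum_le_sum_of_subset_of_nonneg hsub fun l _ _ => by positivity
      _ = (Q * P ^ (s - 1) * (T / P) ^ R) * ∑ l ∈ Icc (1 : ℕ) (2 ^ (n + 1)),
          ((c₂ * P / T) ^ 2 + M l ^ 2)⁻¹ := by rw [Finset.mul_sum]
      _ ≤ (Q * P ^ (s - 1) * (T / P) ^ R) * (K₁ * ((2 * P) * ((c₂ * P / T) ^ (-(2 - θ - Λ * θ)) *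
          (2 * P) ^ Λ))) := by
          gcongr
      _ = _ := by
          have e1 : (T / P) ^ R = T ^ (R : ℝ) * P ^ (-(R : ℝ)) := by
            rw [div_pow, Real.rpow_natCast, Real.rpow_neg hP0.le, Real.rpow_natCast, div_eq_mul_inv]
          have e2 : (c₂ * P / T) ^ (-(2 - θ - Λ * θ)) =
              c₂ ^ (-(2 - θ - Λ * θ)) * (P ^ (-(2 - θ - Λ * θ)) * T ^ (2 - θ - Λ * θ)) := by
            rw [Real.div_rpow (by positivity) hT0.le, Real.mul_rpow hc₂.le hP0.le, div_eq_mul_inv,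
              ← Real.rpow_neg hT0.le, neg_neg]
            ring
          have e2' : (2 * P) ^ Λ = 2 ^ Λ * P ^ Λ := Real.mul_rpow (by norm_num) hP0.le
          have e3 : ((2 : ℝ) ^ g) ^ n = P ^ g := by
            rw [hP, ← Real.rpow_natCast, ← Real.rpow_natCast, ← Real.rpow_mul (by norm_num),
              ← Real.rpow_mul (by norm_num), mul_comm]
          have e4 : P ^ g = P ^ (s - 1) * P ^ (-(R : ℝ)) * P * P ^ (-(2 - θ - Λ * θ)) * P ^ Λ := by
            have : P ^ (s - 1) * P ^ (-(R : ℝ)) * P * P ^ (-(2 - θ - Λ * θ)) * P ^ Λ =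
                P ^ (s - 1) * P ^ (-(R : ℝ)) * P ^ (1 : ℝ) * P ^ (-(2 - θ - Λ * θ)) * P ^ Λ := by
              rw [Real.rpow_one]
            rw [this, ← Real.rpow_add hP0, ← Real.rpow_add hP0, ← Real.rpow_add hP0,
              ← Real.rpow_add hP0]
            congr 1
            rw [hgd]; ring
          have e5 : T ^ ((R : ℝ) + 2 - θ - Λ * θ) = T ^ (R : ℝ) * T ^ (2 - θ - Λ * θ) := by
            rw [← Real.rpow_add hT0]
            congr 1; ring
          rw [e1, e2, e2', e3, e4, e5, hK]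
          ring
  calc _ ≤ ∑ n ∈ range (N + 1), K * T ^ ((R : ℝ) + 2 - θ - Λ * θ) * ((2 : ℝ) ^ g) ^ n :=
        Finset.sum_le_sum hblock
    _ = K * T ^ ((R : ℝ) + 2 - θ - Λ * θ) * ∑ n ∈ range (N + 1), ((2 : ℝ) ^ g) ^ n := by
        rw [Finset.mul_sum]
    _ ≤ K * T ^ ((R : ℝ) + 2 - θ - Λ * θ) * ((2 ^ g / (2 ^ g - 1)) * (C₁ * T) ^ g) := by
        gcongr
        rw [geom_sum_eq hq.ne', div_mul_eq_mul_div]
        apply div_le_div_of_nonneg_right _ hq0.le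
        have h3 : ((2 : ℝ) ^ g) ^ (N + 1) = 2 ^ g * ((2 : ℝ) ^ N) ^ g := by
          rw [pow_succ, mul_comm]
          congr 1
          rw [← Real.rpow_natCast, ← Real.rpow_natCast, ← Real.rpow_mul (by norm_num),
            ← Real.rpow_mul (by norm_num), mul_comm]
        rw [h3]
        have h5 : (2 : ℝ) ^ N ≤ C₁ * T := by
          refine le_trans ?_ hL
          have := Nat.pow_log_le_self 2 (show L ≠ 0 by omega)
          exact_mod_cast this
        have h4 : ((2 : ℝ) ^ N) ^ g ≤ (C₁ * T) ^ g := Real.rpow_le_rpow (by positivity) h5 hg.le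
        nlinarith
    _ = _ := by
        rw [Real.mul_rpow hC₁.le hT0.le]
        have : T ^ (s + Λ) = T ^ ((R : ℝ) + 2 - θ - Λ * θ) * T ^ g := by
          rw [← Real.rpow_add hT0]
          congr 1
          rw [hgd]; ring
        rw [this]
        ring

end Pool.Agent.K6.H31.BR
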