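import Pool.Agent.H147R3.KK.One
import Pool.Agent.K6.H31.BR.Sum

set_option autoImplicit false

/-!
# Almost all vectors are not multiplicatively very well approximable
-/

namespace Pool.Agent.K6.H31.BR

open MeasureTheory Set Filter
open scoped ENNReal

/-- `x` is not multiplicatively very well approximable -/
def NMA {m : ℕ} (x : Fin m → ℝ) : Prop :=
  ∀ θ : ℝ, 0 < θ → θ < 1 → ∃ c : ℝ, 0 < c ∧ ∀ l : ℕ, 1 ≤ l → c ≤ l * (∏ i, nd (l * x i)) ^ θ

/-- the singular function -/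
noncomputable def gs (p t : ℝ) : ℝ≥0∞ := (ENNReal.ofReal |t|) ^ (-p)

lemma gs_meas (p : ℝ) : Measurable (gs p) := by
  unfold gs
  fun_prop

lemma gs_fin {p : ℝ} (hp1 : p < 1) :
    ∫⁻ t in Icc (-(1 / 2) : ℝ) (1 / 2), gs p t ≠ ⊤ := by
  have h1 : ∫⁻ t in Ioc (0 : ℝ) 1, gs p t ≠ ⊤ := by
    have h2 : IntegrableOn (fun t : ℝ => t ^ (-p)) (Ioc 0 1) := by
      have := (intervalIntegral.intervalIntegrable_rpow' (a := 0) (b := 1) (r := -p) (by linarith)).1
      exact this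
    have h3 := h2.2
    rw [hasFiniteIntegral_iff_enorm] at h3
    refine ne_of_lt (lt_of_le_of_lt ?_ h3)
    refine setLIntegral_mono' measurableSet_Ioc fun t ht => ?_
    unfold gs
    rw [abs_of_pos ht.1, ENNReal.ofReal_rpow_of_pos ht.1, Real.enorm_eq_ofReal
      (Real.rpow_nonneg ht.1.le _)]
  have h0 : ∫⁻ t in ({0} : Set ℝ), gs p t = 0 := by
    rw [setLIntegral_measure_zero]
    simp
  have h2 : ∫⁻ t in Ico (-1 : ℝ) 0, gs p t = ∫⁻ t in Ioc (0 : ℝ) 1, gs p t := by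
    have hmp := (Measure.measurePreserving_neg (volume : Measure ℝ))
    have := hmp.setLIntegral_comp_preimage (s := Ioc (0 : ℝ) 1) measurableSet_Ioc (gs_meas p)
    rw [← this]
    have e : (Neg.neg ⁻¹' Ioc (0 : ℝ) 1) = Ico (-1 : ℝ) 0 := by
      ext t
      simp only [mem_preimage, mem_Ioc, mem_Ico]
      constructor
      · rintro ⟨h, h'⟩; constructor <;> linarith
      · rintro ⟨h, h'⟩; constructor <;> linarith
    rw [e]
    refine lintegral_congr fun t => ?_
    unfold gs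
    rw [abs_neg]
  have h3 : Icc (-(1 / 2) : ℝ) (1 / 2) ⊆ (Ico (-1 : ℝ) 0 ∪ {0}) ∪ Ioc (0 : ℝ) 1 := by
    intro t ht
    rcases lt_trichotomy t 0 with h | h | h
    · left; left; exact ⟨by linarith [ht.1], h⟩
    · left; right; exact h
    · right; exact ⟨h, by linarith [ht.2]⟩
  refine ne_top_of_le_ne_top ?_ (lintegral_mono_set h3)
  refine ne_top_of_le_ne_top ?_ (lintegral_union_le _ _ _)
  refine ENNReal.add_ne_top.2 ⟨ne_top_of_le_ne_top ?_ (lintegral_union_le _ _ _), h1⟩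
  rw [h2, h0, add_zero]
  exact h1

/-- the localised singular function of the distance to the nearest integer -/
noncomputable def ph (K : ℕ) (p : ℝ) (l : ℕ) (x : ℝ) : ℝ≥0∞ :=
  (Icc (-(K : ℝ)) K).indicator (fun x => gs p (nd (l * x))) x

lemma nd_meas : Measurable nd := by
  unfold nd
  have h : Measurable (fun x : ℝ => ((round x : ℤ) : ℝ)) := by
    have : (fun x : ℝ => ((round x : ℤ) : ℝ)) = fun x : ℝ => ((⌊x + 1 / 2⌋ : ℤ) : ℝ) := by
      funext x
      rw [round_eq]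
    rw [this]
    exact (Measurable.comp (measurable_from_top) (Int.measurable_floor.comp (by fun_prop)))
  exact (measurable_id.sub h).abs

lemma ph_meas (K : ℕ) (p : ℝ) (l : ℕ) : Measurable (ph K p l) := by
  unfold ph
  refine Measurable.indicator ?_ measurableSet_Icc
  exact (gs_meas p).comp (nd_meas.comp (measurable_const_mul _))

lemma ph_int (K : ℕ) {p : ℝ} {l : ℕ} (hl : 1 ≤ l) :
    ∫⁻ x, ph K p l x ≤ (2 * K + 1) * ∫⁻ t in Icc (-(1 / 2) : ℝ) (1 / 2), gs p t := by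
  have hl0 : (0 : ℝ) < l := by exact_mod_cast hl
  set G := ∫⁻ t in Icc (-(1 / 2) : ℝ) (1 / 2), gs p t with hG
  set k : ℤ → ℝ → ℝ≥0∞ := fun n y => (Icc (-(1 / 2) : ℝ) (1 / 2)).indicator (gs p) (y - n) with hk
  have hkm : ∀ n, Measurable (k n) := fun n =>
    ((gs_meas p).indicator measurableSet_Icc).comp (measurable_id.sub_const _)
  have hpt : ∀ x, ph K p l x ≤ ∑ n ∈ Finset.Icc (-(K * l : ℤ)) (K * l), k n (l * x) := by
    intro x
    unfold ph
    by_cases hx : x ∈ Icc (-(K : ℝ)) K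
    · rw [indicator_of_mem hx]
      set y : ℝ := l * x with hy
      have hmem : round y ∈ Finset.Icc (-(K * l : ℤ)) (K * l) := by
        rw [Finset.mem_Icc]
        have h1 : -((K : ℝ) * l) ≤ y := by rw [hy]; nlinarith [hx.1]
        have h2 : y ≤ (K : ℝ) * l := by rw [hy]; nlinarith [hx.2]
        have h3 := abs_le.1 (abs_sub_round y)
        constructor
        · have : (-(K * l : ℤ) : ℝ) - 1 < round y := by push_cast; linarith
          have h4 : (-(K * l : ℤ)) - 1 < round y := by exact_mod_cast this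
          omega
        · have : (round y : ℝ) < (K * l : ℤ) + 1 := by push_cast; linarith
          have h4 : round y < (K * l : ℤ) + 1 := by exact_mod_cast this
          omega
      refine le_trans ?_ (Finset.single_le_sum (f := fun n => k n y) (fun n _ => bot_le) hmem)
      simp only [hk]
      rw [indicator_of_mem (show y - (round y : ℝ) ∈ Icc (-(1 / 2) : ℝ) (1 / 2) from
        abs_le.1 (abs_sub_round y))]
      unfold gs nd
      rw [abs_abs]
    · rw [indicator_of_notMem hx]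
      exact bot_le
  have hkint : ∀ n : ℤ, ∫⁻ x, k n (l * x) = ENNReal.ofReal (l : ℝ)⁻¹ * G := by
    intro n
    rw [Pool.Agent.H147R3.KK.lint_scale (k n) (hkm n) l hl0]
    congr 1
    simp only [hk]
    rw [lintegral_sub_right_eq_self (fun y => (Icc (-(1 / 2) : ℝ) (1 / 2)).indicator (gs p) y) (n : ℝ),
      lintegral_indicator measurableSet_Icc]
  calc ∫⁻ x, ph K p l x ≤ ∫⁻ x, ∑ n ∈ Finset.Icc (-(K * l : ℤ)) (K * l), k n (l * x) :=
        lintegral_mono hpt
    _ = ∑ n ∈ Finset.Icc (-(K * l : ℤ)) (K * l), ∫⁻ x, k n (l * x) :=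
        lintegral_finsetSum _ fun n _ => (hkm n).comp (measurable_const_mul _)
    _ = (2 * K * l + 1 : ℕ) * (ENNReal.ofReal (l : ℝ)⁻¹ * G) := by
        simp_rw [hkint]
        rw [Finset.sum_const, Int.card_Icc, nsmul_eq_mul]
        have e : ((K : ℤ) * l + 1 - -((K : ℤ) * l)).toNat = 2 * K * l + 1 := by
          have h1 : ((K : ℤ) * l + 1 - -((K : ℤ) * l)) = ((2 * K * l + 1 : ℕ) : ℤ) := by
            push_cast; ring
          rw [h1, Int.toNat_natCast]
        rw [e]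
    _ ≤ _ := by
        rw [← mul_assoc]
        gcongr
        have h1 : ((2 * K * l + 1 : ℕ) : ℝ≥0∞) = ENNReal.ofReal ((2 * K * l + 1 : ℕ) : ℝ) := by
          rw [ENNReal.ofReal_natCast]
        have h2 : (2 * (K : ℝ≥0∞) + 1) = ENNReal.ofReal ((2 * K + 1 : ℕ) : ℝ) := by
          rw [ENNReal.ofReal_natCast]; push_cast; rfl
        rw [h1, h2, ← ENNReal.ofReal_mul (by positivity)]
        apply ENNReal.ofReal_le_ofReal
        rw [← div_eq_mul_inv, div_le_iff₀ hl0]
        push_cast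
        have : (1 : ℝ) ≤ l := by exact_mod_cast hl
        nlinarith

/-- almost all vectors in a box, for one exponent -/
lemma ae_box {m : ℕ} (K : ℕ) {p s : ℝ} (hp1 : p < 1) (hs : 1 < s) :
    ∀ᵐ x : Fin m → ℝ, ∑' l : ℕ, ENNReal.ofReal (((l + 1 : ℕ) : ℝ) ^ (-s)) *
      ∏ i, ph K p (l + 1) (x i) < ⊤ := by
  set G := (2 * (K : ℝ≥0∞) + 1) * ∫⁻ t in Icc (-(1 / 2) : ℝ) (1 / 2), gs p t with hG
  have hGt : G ≠ ⊤ := by
    rw [hG]
    exact ENNReal.mul_ne_top (by simp [ENNReal.mul_eq_top]) (gs_fin hp1)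
  have hm : ∀ l : ℕ, Measurable fun x : Fin m → ℝ => ENNReal.ofReal (((l + 1 : ℕ) : ℝ) ^ (-s)) *
      ∏ i, ph K p (l + 1) (x i) := fun l =>
    (Finset.measurable_prod _ fun i _ => (ph_meas K p (l + 1)).comp (measurable_pi_apply i)).const_mul _
  refine ae_lt_top (Measurable.ennreal_tsum hm) ?_
  rw [lintegral_tsum fun l => (hm l).aemeasurable]
  have h1 : ∀ l : ℕ, ∫⁻ x : Fin m → ℝ, ENNReal.ofReal (((l + 1 : ℕ) : ℝ) ^ (-s)) *
      ∏ i, ph K p (l + 1) (x i) ≤ ENNReal.ofReal (((l + 1 : ℕ) : ℝ) ^ (-s)) * G ^ m := by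
    intro l
    have hmi : Measurable fun x : Fin m → ℝ => ∏ i, ph K p (l + 1) (x i) :=
      Finset.measurable_prod _ fun i _ => (ph_meas K p (l + 1)).comp (measurable_pi_apply i)
    rw [lintegral_const_mul _ hmi]
    gcongr
    rw [Pool.Agent.H147R3.KK.lint_pi_prod m (fun _ => ph K p (l + 1)) fun _ => ph_meas K p (l + 1)]
    calc ∏ _i : Fin m, ∫⁻ x, ph K p (l + 1) x ≤ ∏ _i : Fin m, G := by
          gcongr
          exact ph_int K (by omega)
      _ = _ := by rw [Finset.prod_const, Finset.card_univ, Fintype.card_fin]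
  refine ne_top_of_le_ne_top ?_ (ENNReal.tsum_le_tsum h1)
  rw [ENNReal.tsum_mul_right]
  refine ENNReal.mul_ne_top ?_ (ENNReal.pow_ne_top hGt)
  have h2 : Summable fun l : ℕ => ((l + 1 : ℕ) : ℝ) ^ (-s) := by
    have := Real.summable_nat_rpow.2 (show -s < -1 by linarith)
    exact (summable_nat_add_iff 1).2 this
  exact h2.tsum_ofReal_ne_top

/-- almost all vectors -/
theorem ae_nma (m : ℕ) : ∀ᵐ x : Fin m → ℝ, NMA x := by
  have h1 : ∀ᵐ x : Fin m → ℝ, ∀ K n : ℕ,
      ∑' l : ℕ, ENNReal.ofReal (((l + 1 : ℕ) : ℝ) ^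
        (-((1 - 1 / (2 * (n + 2 : ℝ))) / (1 - 1 / (n + 2 : ℝ))))) *
      ∏ i, ph K (1 - 1 / (2 * (n + 2 : ℝ))) (l + 1) (x i) < ⊤ := by
    rw [ae_all_iff]
    intro K
    rw [ae_all_iff]
    intro n
    have hn : (0 : ℝ) < n + 2 := by positivity
    have h2 : 0 < 1 / (2 * (n + 2 : ℝ)) := by positivity
    have h3 : 1 / (2 * (n + 2 : ℝ)) < 1 / (n + 2 : ℝ) := by
      apply one_div_lt_one_div_of_lt hn
      linarith
    have h4 : 1 / (n + 2 : ℝ) ≤ 1 / 2 := by
      apply one_div_le_one_div_of_le (by norm_num)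
      have : (0 : ℝ) ≤ n := Nat.cast_nonneg n
      linarith
    refine ae_box K (by linarith) ?_
    rw [lt_div_iff₀ (by linarith)]
    linarith
  filter_upwards [h1] with x hx
  intro θ hθ0 hθ1
  obtain ⟨n, hn⟩ := exists_nat_gt (1 / (1 - θ))
  have hn0 : (0 : ℝ) < n + 2 := by positivity
  set θn : ℝ := 1 - 1 / (n + 2 : ℝ) with hθn
  set p : ℝ := 1 - 1 / (2 * (n + 2 : ℝ)) with hp
  have h2 : 0 < 1 / (2 * (n + 2 : ℝ)) := by positivity
  have h3 : 1 / (2 * (n + 2 : ℝ)) < 1 / (n + 2 : ℝ) := by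
    apply one_div_lt_one_div_of_lt hn0
    linarith
  have h4 : 1 / (n + 2 : ℝ) ≤ 1 / 2 := by
    apply one_div_le_one_div_of_le (by norm_num)
    have : (0 : ℝ) ≤ n := Nat.cast_nonneg n
    linarith
  have hθn0 : 0 < θn := by rw [hθn]; linarith
  have hp0 : 0 < p := by rw [hp]; linarith
  have hθθ : θ ≤ θn := by
    have h5 : 1 / (n + 2 : ℝ) ≤ 1 - θ := by
      rw [div_le_iff₀ hn0]
      rw [div_lt_iff₀ (by linarith)] at hn
      nlinarith
    rw [hθn]; linarith
  set s : ℝ := p / θn with hs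
  have hs0 : 0 < s := by positivity
  obtain ⟨K, hK⟩ := exists_nat_ge (∑ i, |x i|)
  have hxK : ∀ i, x i ∈ Icc (-(K : ℝ)) K := by
    intro i
    have h5 : |x i| ≤ K := (Finset.single_le_sum (f := fun i => |x i|) (fun i _ => abs_nonneg _)
      (Finset.mem_univ i)).trans hK
    exact abs_le.1 h5
  have h5 := hx K n
  set S := ∑' l : ℕ, ENNReal.ofReal (((l + 1 : ℕ) : ℝ) ^ (-s)) * ∏ i, ph K p (l + 1) (x i) with hS
  have hterm : ∀ l : ℕ, 1 ≤ l → ENNReal.ofReal ((l : ℝ) ^ (-s)) * ∏ i, gs p (nd (l * x i)) ≤ S := by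
    intro l hl
    obtain ⟨l', rfl⟩ : ∃ l', l = l' + 1 := ⟨l - 1, by omega⟩
    refine le_trans (le_of_eq ?_) (ENNReal.le_tsum l')
    congr 1
    refine Finset.prod_congr rfl fun i _ => ?_
    unfold ph
    rw [indicator_of_mem (hxK i)]
  set C : ℝ := S.toReal + 1 with hC
  have hC0 : 0 < C := by positivity
  refine ⟨C ^ (-(1 / s)), by positivity, fun l hl => ?_⟩
  have hl0 : (0 : ℝ) < l := by exact_mod_cast hl
  set P : ℝ := ∏ i, nd (l * x i) with hP
  have hP0 : 0 ≤ P := Finset.prod_nonneg fun i _ => nd_nonneg _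
  have hP1 : P ≤ 1 := by
    apply Finset.prod_le_one (fun i _ => nd_nonneg _)
    intro i _
    have := nd_le_half (l * x i)
    linarith
  have h6 := hterm l hl
  have e1 : ∏ i, gs p (nd (l * x i)) = (ENNReal.ofReal P) ^ (-p) := by
    unfold gs
    rw [hP, ENNReal.ofReal_prod_of_nonneg fun i _ => nd_nonneg _]
    have : ∀ i : Fin m, (ENNReal.ofReal |nd (l * x i)|) ^ (-p) =
        (ENNReal.ofReal (nd (l * x i)) ^ p)⁻¹ := by
      intro i
      rw [abs_of_nonneg (nd_nonneg _), ENNReal.rpow_neg]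
    simp_rw [this]
    rw [ENNReal.rpow_neg, ← ENNReal.prod_rpow_of_nonneg hp0.le]
    rw [ENNReal.prod_inv_distrib]
    intro i _ j _ _
    right
    exact (ENNReal.rpow_lt_top_of_nonneg hp0.le ENNReal.ofReal_ne_top).ne
  rw [e1] at h6
  have hPpos : 0 < P := by
    rcases hP0.eq_or_lt with h | h
    · exfalso
      rw [← h, ENNReal.ofReal_zero, ENNReal.zero_rpow_of_neg (by linarith), ENNReal.mul_top] at h6
      · exact absurd (top_le_iff.1 h6) h5.ne
      · rw [ENNReal.ofReal_ne_zero_iff]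
        positivity
    · exact h
  rw [ENNReal.ofReal_rpow_of_pos hPpos, ← ENNReal.ofReal_mul (by positivity)] at h6
  have h7 : (l : ℝ) ^ (-s) * P ^ (-p) ≤ C := by
    have h8 := ENNReal.toReal_mono h5.ne h6
    rw [ENNReal.toReal_ofReal (by positivity)] at h8
    linarith
  have h8 : ((l : ℝ) ^ (-s) * P ^ (-p)) ^ (1 / s) ≤ C ^ (1 / s) :=
    Real.rpow_le_rpow (by positivity) h7 (by positivity)
  have h9 : ((l : ℝ) ^ (-s) * P ^ (-p)) ^ (1 / s) = (l * P ^ θn)⁻¹ := by
    rw [Real.mul_rpow (by positivity) (by positivity), ← Real.rpow_mul hl0.le, ← Real.rpow_mul hP0]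
    have e2 : -s * (1 / s) = -1 := by field_simp
    have e3 : -p * (1 / s) = -θn := by rw [hs]; field_simp
    rw [e2, e3, Real.rpow_neg_one, Real.rpow_neg hP0, mul_inv]
  rw [h9] at h8
  have h10 : P ^ θn ≤ P ^ θ := Real.rpow_le_rpow_of_exponent_ge hPpos hP1 hθθ
  have h11 : 0 < l * P ^ θn := by positivity
  calc C ^ (-(1 / s)) = (C ^ (1 / s))⁻¹ := Real.rpow_neg hC0.le _
    _ ≤ l * P ^ θn := by
        rw [inv_le_comm₀ (by positivity) h11]
        exact h8
    _ ≤ l * P ^ θ := by gcongr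

end Pool.Agent.K6.H31.BR
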