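import Pool.Agent.K6.H31.BR.Up2
import Pool.Agent.K6.H31.BR.Dir
import Pool.Agent.Y616.BM.Main

set_option autoImplicit false

/-!
# The mean square of the Barnes zeta-function for weights which are not too well approximable
-/

namespace Pool.Agent.K6.H31.BR

open Finset Filter Topology MeasureTheory Complex Set Asymptotics
open Pool.Agent.H131R5.BZ Pool.Agent.Y930.Bz Pool.Agent.Y616.BM

variable {r : ℕ} {a : ℝ} {w : Fin r → ℝ} {c : ℕ → ℂ}

/-- the condition for the upper bound follows if `w` is not resonant -/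
lemma cond_MM (hw : ∀ j, 0 < w j) {κ : ℝ} (hκ : 0 < κ) (hres : ¬ Resonant w κ) (j : Fin r) :
    ∃ c : ℝ, 0 < c ∧ ∀ l : ℕ, 1 ≤ l → c ≤ l * MM w j l ^ (1 / κ) := by
  have hwj := hw j
  have hG := MM_gauge w j
  unfold Resonant at hres
  rw [Filter.not_frequently] at hres
  obtain ⟨U, hU⟩ := eventually_atTop.1 hres
  have hle : ∀ (l : ℕ) (i : Fin r), nd (l * (w i / w j)) ≤ MM w j l := fun l i =>
    Finset.single_le_sum (f := fun i => nd (l * (w i / w j))) (fun i _ => nd_nonneg _)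
      (Finset.mem_univ i)
  have hpos : ∀ l : ℕ, 1 ≤ l → 0 < MM w j l := by
    intro l hl
    rcases (hG.nonneg l).eq_or_lt with h | h
    · exfalso
      have hl0 : (0 : ℝ) < l := by exact_mod_cast hl
      have h0 : ∀ i, (l : ℝ) * (w i / w j) = round ((l : ℝ) * (w i / w j)) := by
        intro i
        have h1 : nd (l * (w i / w j)) = 0 := le_antisymm (by rw [h]; exact hle l i) (nd_nonneg _)
        unfold nd at h1
        rw [abs_eq_zero, sub_eq_zero] at h1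
        exact h1
      obtain ⟨N, hN⟩ := exists_nat_ge (U * w j / l)
      set n : ℕ := max N 1 with hn
      have hn1 : (1 : ℝ) ≤ n := by exact_mod_cast le_max_right _ _
      have hnN : U * w j / l ≤ n := hN.trans (by exact_mod_cast le_max_left _ _)
      have hUu : U ≤ n * l / w j := by
        rw [le_div_iff₀ hwj]
        rwa [div_le_iff₀ hl0] at hnN
      refine hU (n * l / w j) hUu fun i => ⟨n * round ((l : ℝ) * (w i / w j)), ?_⟩
      have e1 : (n : ℝ) * l / w j * w i = n * ((l : ℝ) * (w i / w j)) := by field_simp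
      rw [e1]
      push_cast
      rw [← h0 i, sub_self, abs_zero]
      positivity
    · exact h
  obtain ⟨L, hL⟩ := exists_nat_ge (U * w j)
  obtain ⟨c₂, hc₂, hc₂l⟩ : ∃ c₂ : ℝ, 0 < c₂ ∧ ∀ l ∈ Finset.Icc 1 L, c₂ ≤ l * MM w j l ^ (1 / κ) := by
    rcases (Finset.Icc 1 L).eq_empty_or_nonempty with h | h
    · exact ⟨1, one_pos, by rw [h]; simp⟩
    · obtain ⟨l₀, h1, h2⟩ := Finset.exists_min_image (Finset.Icc 1 L)
        (fun l : ℕ => l * MM w j l ^ (1 / κ)) h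
      have h3 := (Finset.mem_Icc.1 h1).1
      have h4 : (0 : ℝ) < l₀ := by exact_mod_cast h3
      exact ⟨l₀ * MM w j l₀ ^ (1 / κ), mul_pos h4 (Real.rpow_pos_of_pos (hpos l₀ h3) _), h2⟩
  refine ⟨min (w j) c₂, lt_min hwj hc₂, fun l hl => ?_⟩
  rcases le_or_gt l L with h | h
  · exact (min_le_right _ _).trans (hc₂l l (Finset.mem_Icc.2 ⟨hl, h⟩))
  · refine (min_le_left _ _).trans ?_
    have hl0 : (0 : ℝ) < l := by exact_mod_cast hl
    have hlL : (L : ℝ) ≤ l := by exact_mod_cast h.le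
    have huU : U ≤ l / w j := by
      rw [le_div_iff₀ hwj]
      linarith
    have h1 := hU _ huU
    push Not at h1
    obtain ⟨i, hi⟩ := h1
    have h2 := hi (round ((l : ℝ) * (w i / w j)))
    have e1 : (l : ℝ) / w j * w i = l * (w i / w j) := by field_simp
    rw [e1] at h2
    have h3 : (l / w j) ^ (-κ) ≤ MM w j l := h2.le.trans (hle l i)
    have h4 : ((l / w j) ^ (-κ)) ^ (1 / κ) ≤ MM w j l ^ (1 / κ) :=
      Real.rpow_le_rpow (by positivity) h3 (by positivity)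
    have h5 : ((l / w j) ^ (-κ)) ^ (1 / κ) = w j / l := by
      rw [← Real.rpow_mul (by positivity)]
      have : -κ * (1 / κ) = -1 := by field_simp
      rw [this, Real.rpow_neg_one, inv_div]
    rw [h5] at h4
    calc w j = l * (w j / l) := by field_simp
      _ ≤ _ := by gcongr

/-- the upper bound for the second moment -/
theorem ms_upper (hr : 2 ≤ r) (ha : 0 < a) (hw : ∀ j, 0 < w j) (hc : Tay a w c)
    {θ : ℝ} (hθ : 0 ≤ θ) (hθ2 : θ < 2)
    (hH : ∀ j, ∃ c : ℝ, 0 < c ∧ ∀ l : ℕ, 1 ≤ l → c ≤ l * MM w j l ^ θ)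
    {Λ : ℝ} (hΛ : 0 ≤ Λ) (hΛθ : Λ * θ ≤ 2 - θ)
    {σ : ℝ} (hσ : 1 / 2 ≤ σ) (hg : 0 < 2 * σ - (2 * r - 1 - θ) + Λ * (1 + θ)) :
    ∃ C : ℝ, 0 ≤ C ∧ ∀ T : ℝ, 1 ≤ T → ∫⁻ t in Icc 1 T, ‖FF a w c ((σ : ℂ) + t * I)‖ₑ ^ 2 ≤
      ENNReal.ofReal (C * T ^ (1 + Λ)) := by
  obtain ⟨C₁, U, hC₁, hz⟩ := zone ha hw hc hσ
  obtain ⟨C₂, hC₂, hJ⟩ := JJ_upper hr ha hw hθ hθ2 hH hΛ hΛθ hσ hg U
  have hpiece : ∀ n : ℕ, ∫⁻ t in Icc ((2 : ℝ) ^ n) (2 * 2 ^ n),
      ‖FF a w c ((σ : ℂ) + t * I)‖ₑ ^ 2 ≤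
      ENNReal.ofReal ((C₁ + C₁ * C₂) * ((2 : ℝ) ^ n) ^ (1 + Λ)) := by
    intro n
    set T : ℝ := (2 : ℝ) ^ n with hT
    have hT1 : 1 ≤ T := one_le_pow₀ (by norm_num)
    have hT0 : 0 < T := by positivity
    have h2 := hz T hT1
    have h4 := hJ T hT1
    calc _ ≤ _ := h2
      _ ≤ ENNReal.ofReal (C₁ * T) + ENNReal.ofReal (C₁ * T ^ (1 - 2 * σ)) *
          ENNReal.ofReal (C₂ * T ^ (2 * σ + Λ)) := by
          gcongr
      _ = ENNReal.ofReal (C₁ * T + C₁ * C₂ * T ^ ((1 - 2 * σ) + (2 * σ + Λ))) := by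
          have e1 : T ^ ((1 - 2 * σ) + (2 * σ + Λ)) = T ^ (1 - 2 * σ) * T ^ (2 * σ + Λ) :=
            Real.rpow_add hT0 _ _
          rw [← ENNReal.ofReal_mul (by positivity),
            ← ENNReal.ofReal_add (by positivity) (by positivity), e1]
          congr 1
          ring
      _ ≤ _ := by
          apply ENNReal.ofReal_le_ofReal
          have h5 : T ≤ T ^ (1 + Λ) := by
            calc T = T ^ (1 : ℝ) := (Real.rpow_one T).symm
              _ ≤ T ^ (1 + Λ) := Real.rpow_le_rpow_of_exponent_le hT1 (by linarith)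
          have h6 : (1 - 2 * σ) + (2 * σ + Λ) = 1 + Λ := by ring
          rw [h6]
          have h7 : 0 ≤ C₁ * C₂ := by positivity
          calc _ ≤ C₁ * T ^ (1 + Λ) + C₁ * C₂ * T ^ (1 + Λ) := by gcongr
            _ = _ := by ring
  have hdy := dyadic (fun t : ℝ => ‖FF a w c ((σ : ℂ) + t * I)‖ₑ ^ 2)
    (C := C₁ + C₁ * C₂) (τ := 1 + Λ) (by positivity) (by linarith) hpiece
  refine ⟨(C₁ + C₁ * C₂) * 2 ^ (1 + Λ), by positivity, fun T hT => ?_⟩
  obtain ⟨n, hn1, hn2⟩ := exists_nat_pow_near hT (one_lt_two)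
  calc _ ≤ ∫⁻ t in Icc 1 ((2 : ℝ) ^ (n + 1)), ‖FF a w c ((σ : ℂ) + t * I)‖ₑ ^ 2 :=
        lintegral_mono_set (Icc_subset_Icc_right hn2.le)
    _ ≤ _ := hdy (n + 1)
    _ ≤ _ := by
        apply ENNReal.ofReal_le_ofReal
        have h1 : ((2 : ℝ) ^ (n + 1)) ^ (1 + Λ) ≤ (T * 2) ^ (1 + Λ) := by
          apply Real.rpow_le_rpow (by positivity) _ (by linarith)
          rw [pow_succ]
          linarith
        rw [Real.mul_rpow (by linarith) (by norm_num)] at h1
        have h2 : 0 ≤ C₁ + C₁ * C₂ := by positivity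
        calc _ ≤ (C₁ + C₁ * C₂) * (T ^ (1 + Λ) * 2 ^ (1 + Λ)) := by gcongr
          _ = _ := by ring

/-- the mean square bound from the arithmetic condition: if `w` is not `κ`-resonant for
any `κ` with `2 (r - σ) κ > E (1 + κ)` then the mean square is `O(T^(E+ε))` -/
theorem bound_gen (hw : ∀ j, 0 < w j) (hr : 2 ≤ r) {σ E : ℝ}
    (hσ : 1 / 2 ≤ σ) (hE : 1 ≤ E) (hEσ : 2 * (r - 1 - σ) ≤ E)
    (hres : ∀ κ : ℝ, 0 < κ → E * (1 + κ) < 2 * (r - σ) * κ → ¬ Resonant w κ)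
    (ha : 0 < a) (hc : Tay a w c) {ε : ℝ} (hε : 0 < ε) :
    ∃ C : ℝ, 0 ≤ C ∧ ∀ T : ℝ, 1 ≤ T → ∫⁻ t in Icc 1 T, ‖FF a w c ((σ : ℂ) + t * I)‖ₑ ^ 2 ≤
      ENNReal.ofReal (C * T ^ (E + ε)) := by
  obtain ⟨X, hX⟩ : ∃ X : ℝ, X = 2 * (r - σ) := ⟨_, rfl⟩
  rw [← hX] at hres
  have hE0 : 0 < E := by linarith
  have hX2 : X ≤ E + 2 := by rw [hX]; linarith
  rcases le_or_gt X E with h | h
  · -- the trivial bound
    have h4 := ms_upper hr ha hw hc le_rfl two_pos
      (fun j => ⟨1, one_pos, fun l hl => by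
        have : (1 : ℝ) ≤ l := by exact_mod_cast hl
        rw [Real.rpow_zero]
        linarith⟩) (Λ := E + ε - 1) (by linarith) (by linarith) hσ (by rw [hX] at h; linarith)
    have h5 : 1 + (E + ε - 1) = E + ε := by ring
    rwa [h5] at h4
  · -- `θ` slightly smaller than `X / E - 1`
    obtain ⟨θ, hθ0, hθ1, hθ2⟩ : ∃ θ : ℝ, 0 < θ ∧ E * (1 + θ) < X ∧ X < (E + ε) * (1 + θ) := by
      set u : ℝ := max 0 (X / (E + ε) - 1) with hu
      have hu0 : 0 ≤ u := le_max_left _ _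
      have h1 : X / (E + ε) < X / E := div_lt_div_of_pos_left (by linarith) hE0 (by linarith)
      have h3 : 1 < X / E := by rw [lt_div_iff₀ hE0]; linarith
      have h4 : u < X / E - 1 := max_lt (by linarith) (by linarith)
      refine ⟨(u + (X / E - 1)) / 2, by linarith, ?_, ?_⟩
      · have : 1 + (u + (X / E - 1)) / 2 < X / E := by linarith
        calc E * (1 + (u + (X / E - 1)) / 2) < E * (X / E) := by gcongr
          _ = X := by field_simp
      · have h5 : X / (E + ε) - 1 ≤ u := le_max_right _ _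
        have : X / (E + ε) < 1 + (u + (X / E - 1)) / 2 := by linarith
        rw [div_lt_iff₀ (by linarith)] at this
        linarith
    have hEθ : E * θ < 2 := by linarith
    have hθ3 : θ < 2 := by nlinarith
    have hnr : ¬ Resonant w (1 / θ) := by
      refine hres (1 / θ) (by positivity) ?_
      have h1 : E * (1 + 1 / θ) = E * (1 + θ) / θ := by
        field_simp
        ring
      rw [h1, mul_one_div]
      gcongr
    have hH : ∀ j : Fin r, ∃ c : ℝ, 0 < c ∧ ∀ l : ℕ, 1 ≤ l → c ≤ l * MM w j l ^ θ := by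
      intro j
      have h2 := cond_MM hw (by positivity) hnr j
      rwa [one_div_one_div] at h2
    set Λ : ℝ := min (E + ε - 1) ((2 - θ) / θ) with hΛ
    have hq : 0 < (2 - θ) / θ := by
      apply div_pos _ hθ0
      linarith
    have hΛ0 : 0 ≤ Λ := le_min (by linarith) hq.le
    have hΛ1 : Λ ≤ E + ε - 1 := min_le_left _ _
    have hΛθ : Λ * θ ≤ 2 - θ := by
      have : Λ ≤ (2 - θ) / θ := min_le_right _ _
      rwa [le_div_iff₀ hθ0] at this
    have hG : 0 < 2 * σ - (2 * r - 1 - θ) + Λ * (1 + θ) := by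
      have h1 : X - 1 - θ < Λ * (1 + θ) := by
        rcases le_total (E + ε - 1) ((2 - θ) / θ) with h2 | h2
        · rw [hΛ, min_eq_left h2]
          nlinarith
        · rw [hΛ, min_eq_right h2, div_mul_eq_mul_div, lt_div_iff₀ hθ0]
          nlinarith
      rw [hX] at h1
      linarith
    obtain ⟨C, hC, h4⟩ := ms_upper hr ha hw hc hθ0.le hθ3 hH hΛ0 hΛθ hσ hG
    refine ⟨C, hC, fun T hT => (h4 T hT).trans ?_⟩
    apply ENNReal.ofReal_le_ofReal
    have : T ^ (1 + Λ) ≤ T ^ (E + ε) := Real.rpow_le_rpow_of_exponent_le hT (by linarith)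
    gcongr

end Pool.Agent.K6.H31.BR
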