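import Pool.Agent.K6.H31.BR.GUp
import Pool.Agent.K6.H31.BR.Main

set_option autoImplicit false

/-!
# The mean square of the Barnes zeta-function for weights which are not multiplicatively well approximable
-/

namespace Pool.Agent.K6.H31.BR

open Finset Filter Topology MeasureTheory Complex Set Asymptotics
open Pool.Agent.H131R5.BZ Pool.Agent.Y930.Bz Pool.Agent.Y616.BM

variable {r : ℕ} {a : ℝ} {w : Fin r → ℝ} {c : ℕ → ℂ}

lemma nd_gauge (x : ℝ) : Gauge (fun l : ℕ => nd (l * x)) where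
  nonneg l := nd_nonneg _
  bdd := ⟨1 / 2, fun l => nd_le_half _⟩
  sub l l' hll := by
    rw [Nat.cast_sub hll.le, sub_mul, add_comm]
    exact nd_sub_le _ _

lemma nd_transfer {w₁ w₂ y : ℝ} (hw₁ : 0 < w₁) (hw₂ : 0 < w₂) (h : nd (w₁ * y) ≤ nd (w₂ * y))
    {l : ℕ} (hl : (round (w₁ * y) : ℝ) = l) :
    nd (l * (w₂ / w₁)) ≤ (1 + w₂ / w₁) * nd (w₂ * y) := by
  have hx : 0 < w₂ / w₁ := by positivity
  have h3 := nd_le_nd_add (l * (w₂ / w₁)) (w₂ * y)
  have h4 : |(l : ℝ) * (w₂ / w₁) - w₂ * y| = (w₂ / w₁) * nd (w₁ * y) := by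
    have e1 : (l : ℝ) * (w₂ / w₁) - w₂ * y = -((w₂ / w₁) * (w₁ * y - l)) := by
      field_simp
      ring
    rw [e1, abs_neg, abs_mul, abs_of_pos hx]
    unfold nd
    rw [hl]
  rw [h4] at h3
  nlinarith [mul_le_mul_of_nonneg_left h hx.le]

/-- the upper bound for the second moment, general version -/
theorem ms_upper_gen (ha : 0 < a) (hw : ∀ j, 0 < w j) (hc : Tay a w c) {σ Λ : ℝ}
    (hσ : 1 / 2 ≤ σ) (hΛ : 0 ≤ Λ)
    (hJJ : ∀ U : ℝ, ∃ C : ℝ, 0 ≤ C ∧ ∀ T : ℝ, 1 ≤ T →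
      JJ a w σ U (1 / T) ≤ ENNReal.ofReal (C * T ^ (2 * σ + Λ))) :
    ∃ C : ℝ, 0 ≤ C ∧ ∀ T : ℝ, 1 ≤ T → ∫⁻ t in Icc 1 T, ‖FF a w c ((σ : ℂ) + t * I)‖ₑ ^ 2 ≤
      ENNReal.ofReal (C * T ^ (1 + Λ)) := by
  obtain ⟨C₁, U, hC₁, hz⟩ := zone ha hw hc hσ
  obtain ⟨C₂, hC₂, hJ⟩ := hJJ U
  have hpiece : ∀ n : ℕ, ∫⁻ t in Icc ((2 : ℝ) ^ n) (2 * 2 ^ n),
      ‖FF a w c ((σ : ℂ) + t * I)‖ₑ ^ 2 ≤
      ENNReal.ofReal ((C₁ + C₁ * C₂) * ((2 : ℝ) ^ n) ^ (1 + Λ)) := by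
    intro n
    set T : ℝ := (2 : ℝ) ^ n with hT
    have hT1 : 1 ≤ T := one_le_pow₀ (by norm_num)
    have hT0 : 0 < T := by positivity
    have h2 := hz T hT1
    have h4 := hJ T hT1
    calc _ ≤ _ := h2
      _ ≤ ENNReal.ofReal (C₁ * T) + ENNReal.ofReal (C₁ * T ^ (1 - 2 * σ)) *
          ENNReal.ofReal (C₂ * T ^ (2 * σ + Λ)) := by
          gcongr
      _ = ENNReal.ofReal (C₁ * T + C₁ * C₂ * T ^ ((1 - 2 * σ) + (2 * σ + Λ))) := by
          have e1 : T ^ ((1 - 2 * σ) + (2 * σ + Λ)) = T ^ (1 - 2 * σ) * T ^ (2 * σ + Λ) :=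
            Real.rpow_add hT0 _ _
          rw [← ENNReal.ofReal_mul (by positivity),
            ← ENNReal.ofReal_add (by positivity) (by positivity), e1]
          congr 1
          ring
      _ ≤ _ := by
          apply ENNReal.ofReal_le_ofReal
          have h5 : T ≤ T ^ (1 + Λ) := by
            calc T = T ^ (1 : ℝ) := (Real.rpow_one T).symm
              _ ≤ T ^ (1 + Λ) := Real.rpow_le_rpow_of_exponent_le hT1 (by linarith)
          have h6 : (1 - 2 * σ) + (2 * σ + Λ) = 1 + Λ := by ring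
          rw [h6]
          have h7 : 0 ≤ C₁ * C₂ := by positivity
          calc _ ≤ C₁ * T ^ (1 + Λ) + C₁ * C₂ * T ^ (1 + Λ) := by gcongr
            _ = _ := by ring
  have hdy := dyadic (fun t : ℝ => ‖FF a w c ((σ : ℂ) + t * I)‖ₑ ^ 2)
    (C := C₁ + C₁ * C₂) (τ := 1 + Λ) (by positivity) (by linarith) hpiece
  refine ⟨(C₁ + C₁ * C₂) * 2 ^ (1 + Λ), by positivity, fun T hT => ?_⟩
  obtain ⟨n, hn1, hn2⟩ := exists_nat_pow_near hT (one_lt_two)
  calc _ ≤ ∫⁻ t in Icc 1 ((2 : ℝ) ^ (n + 1)), ‖FF a w c ((σ : ℂ) + t * I)‖ₑ ^ 2 :=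
        lintegral_mono_set (Icc_subset_Icc_right hn2.le)
    _ ≤ _ := hdy (n + 1)
    _ ≤ _ := by
        apply ENNReal.ofReal_le_ofReal
        have h1 : ((2 : ℝ) ^ (n + 1)) ^ (1 + Λ) ≤ (T * 2) ^ (1 + Λ) := by
          apply Real.rpow_le_rpow (by positivity) _ (by linarith)
          rw [pow_succ]
          linarith
        rw [Real.mul_rpow (by linarith) (by norm_num)] at h1
        have h2 : 0 ≤ C₁ + C₁ * C₂ := by positivity
        calc _ ≤ (C₁ + C₁ * C₂) * (T ^ (1 + Λ) * 2 ^ (1 + Λ)) := by gcongr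
          _ = _ := by ring

/-- the condition: for every `j` there are `m` other weights whose ratios to `w j` are not multiplicatively well
approximable -/
def MultGen {r : ℕ} (w : Fin r → ℝ) (m : ℕ) : Prop :=
  ∀ j : Fin r, ∃ e : Fin m → Fin r, Function.Injective e ∧ ∀ θ : ℝ, 0 < θ → θ < 1 →
    ∃ c : ℝ, 0 < c ∧ ∀ l : ℕ, 1 ≤ l → c ≤ l * (∏ i, nd (l * (w (e i) / w j))) ^ θ

theorem JJ_upper_mult {m : ℕ} (hm : m + 1 ≤ r) (ha : 0 < a) (hw : ∀ j, 0 < w j) (hMG : MultGen w m)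
    {θ lam Λ σ : ℝ} (hθ : 0 < θ) (hθ1 : θ < 1) (hl0 : 0 ≤ lam) (hl1 : lam ≤ 1)
    (hΛ : lam / θ ≤ Λ) (hσ : 1 / 2 ≤ σ)
    (hg : 0 < 2 * σ - (2 * ((r : ℝ) - (m + 1)) + 1 + m * (2 - θ - lam)) + Λ) (U : ℝ) :
    ∃ C : ℝ, 0 ≤ C ∧ ∀ T : ℝ, 1 ≤ T →
      JJ a w σ U (1 / T) ≤ ENNReal.ofReal (C * T ^ (2 * σ + Λ)) := by
  classical
  choose e he hH using hMG
  have hΛ0 : 0 ≤ Λ := le_trans (by positivity) hΛ
  have hpi := Real.pi_pos
  set n : ℕ := r - (m + 1) with hn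
  have hnr : ((n : ℕ) : ℝ) = (r : ℝ) - (m + 1) := by
    rw [hn, Nat.cast_sub hm]
    push_cast
    ring
  set F : Fin r → ℕ → ℝ → ℝ := fun j l δ =>
    ∏ i, (δ ^ 2 + nd (l * (w (e j i) / w j)) ^ 2)⁻¹ with hF
  have hF0 : ∀ j l δ, 0 < δ → 0 ≤ F j l δ := fun j l δ hδ =>
    Finset.prod_nonneg fun i _ => by positivity
  have hFm : ∀ j l δ δ', 0 < δ → δ ≤ δ' → F j l δ' ≤ F j l δ := by
    intro j l δ δ' hδ hδδ
    have hδ' : 0 < δ' := by linarith
    refine Finset.prod_le_prod (fun i _ => by positivity) fun i _ => ?_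
    apply inv_anti₀ (by positivity)
    gcongr
  refine JJ_upper_gen (by omega) ha hw n hF0 (B := fun j => ∏ i, (1 + w (e j i) / w j) ^ 2)
    (fun j => Finset.prod_nonneg fun i _ => by positivity) ?_ hσ hΛ0 ?_ U
  · -- the product
    intro x T j₁ hT hx hxT hmin
    have hT0 : 0 < T := by linarith
    have hη : 0 < 1 / T := by positivity
    refine ⟨∏ i, qf w x (1 / T) (e j₁ i), Finset.prod_nonneg fun i _ => (qf_pos hx hη _).le, ?_, ?_⟩
    · have hle : ∀ j, qf w x (1 / T) j ≤ qf w x (1 / T) j₁ := by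
        intro j
        unfold qf
        apply inv_anti₀ (by positivity)
        have := hmin j
        have h0 := nd_nonneg (w j₁ * (x * Real.cos (1 / T) / (2 * Real.pi)))
        gcongr
      set S : Finset (Fin r) := Finset.univ.image (e j₁) with hS
      have hcard : S.card = m := by
        rw [hS, Finset.card_image_of_injective _ (he j₁), Finset.card_univ, Fintype.card_fin]
      have h1 : ∏ j, qf w x (1 / T) j =
          (∏ j ∈ Sᶜ, qf w x (1 / T) j) * ∏ j ∈ S, qf w x (1 / T) j := by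
        rw [mul_comm, Finset.prod_mul_prod_compl]
      have h2 : ∏ j ∈ S, qf w x (1 / T) j = ∏ i, qf w x (1 / T) (e j₁ i) := by
        rw [hS, Finset.prod_image fun i _ i' _ h => he j₁ h]
      rw [h1, h2]
      refine mul_le_mul_of_nonneg_right ?_ (Finset.prod_nonneg fun i _ => (qf_pos hx hη _).le)
      calc ∏ j ∈ Sᶜ, qf w x (1 / T) j ≤ ∏ _j ∈ Sᶜ, qf w x (1 / T) j₁ :=
            Finset.prod_le_prod (fun j _ => (qf_pos hx hη j).le) fun j _ => hle j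
        _ = qf w x (1 / T) j₁ ^ (n + 1) := by
            rw [Finset.prod_const, Finset.card_compl, Fintype.card_fin, hcard]
            congr 1
            omega
    · intro l hl hround hδδ
      have hl0 : (0 : ℝ) < l := by exact_mod_cast hl
      have hwj := hw j₁
      simp only [hF]
      rw [← Finset.prod_mul_distrib]
      refine Finset.prod_le_prod (fun i _ => (qf_pos hx hη _).le) fun i _ => ?_
      have hwi := hw (e j₁ i)
      set δl : ℝ := Real.pi / w j₁ * l / T with hδl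
      have hδl0 : 0 < δl := by positivity
      set y : ℝ := x * Real.cos (1 / T) / (2 * Real.pi) with hy
      have h1 := nd_transfer (w₂ := w (e j₁ i)) (y := y) hwj hwi (hmin _) hround
      have hxp : 0 < w (e j₁ i) / w j₁ := by positivity
      unfold qf
      rw [← hy]
      have hY : 0 < (x * (1 / T)) ^ 2 + nd (w (e j₁ i) * y) ^ 2 := by positivity
      have hX : 0 < δl ^ 2 + nd (l * (w (e j₁ i) / w j₁)) ^ 2 := by positivity
      rw [← div_eq_mul_inv, le_div_iff₀ hX, ← div_eq_inv_mul, div_le_iff₀ hY, mul_add, ← mul_pow,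
        ← mul_pow]
      have h2 : δl ≤ (1 + w (e j₁ i) / w j₁) * (x * (1 / T)) := by
        have h3 : 0 < x * (1 / T) := by positivity
        nlinarith
      have h3 : nd (l * (w (e j₁ i) / w j₁)) ^ 2 ≤ ((1 + w (e j₁ i) / w j₁) * nd (w (e j₁ i) * y)) ^ 2 :=
        pow_le_pow_left₀ (nd_nonneg _) h1 2
      have h4 : δl ^ 2 ≤ ((1 + w (e j₁ i) / w j₁) * (x * (1 / T))) ^ 2 := pow_le_pow_left₀ hδl0.le h2 2
      linarith
  · intro j C₁ hC₁
    obtain ⟨c, hc, H⟩ := hH j θ hθ hθ1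
    obtain ⟨K, hK, hinv⟩ := sum2m (N := fun (i : Fin m) (l : ℕ) => nd (l * (w (e j i) / w j)))
      (fun i => nd_gauge _) hθ hθ1 hc H hl0 hl1 hΛ
    have hwj := hw j
    exact sum_block_gen (hF0 j) (hFm j) (A := m * (2 - θ - lam)) hK hinv (c₂ := Real.pi / w j)
      (by positivity) hC₁ (2 * n + 1) (by
        push_cast
        rw [hnr]
        exact hg)

/-- the mean square bound for multiplicatively generic weights -/
theorem bound_mult {m : ℕ} (hm : m + 1 ≤ r) (ha : 0 < a) (hw : ∀ j, 0 < w j) (hMG : MultGen w m)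
    (hc : Tay a w c) {σ E : ℝ} (hσ : 1 / 2 ≤ σ) (hσr : (r : ℝ) - (m + 1) ≤ σ) (hE : 1 ≤ E)
    (hEσ : 1 + 2 / (m + 1) * (r - (m + 1) / 2 - σ) ≤ E) {ε : ℝ} (hε : 0 < ε) :
    ∃ C : ℝ, 0 ≤ C ∧ ∀ T : ℝ, 1 ≤ T → ∫⁻ t in Icc 1 T, ‖FF a w c ((σ : ℂ) + t * I)‖ₑ ^ 2 ≤
      ENNReal.ofReal (C * T ^ (E + ε)) := by
  obtain ⟨d, hd⟩ : ∃ d : ℝ, d = m + 1 := ⟨_, rfl⟩
  have hm0 : (0 : ℝ) ≤ m := Nat.cast_nonneg m
  have hd1 : 1 ≤ d := by rw [hd]; linarith
  have hd0 : 0 < d := by linarith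
  rw [← hd] at hσr hEσ
  set l₀ : ℝ := max 0 ((2 * r - d - 2 * σ) / d) with hl₀
  have h0 : 0 ≤ l₀ := le_max_left _ _
  have h1 : l₀ ≤ 1 := by
    apply max_le zero_le_one
    rw [div_le_one hd0]
    linarith
  have h2 : 2 * r - d - 2 * σ ≤ d * l₀ := by
    have : (2 * r - d - 2 * σ) / d ≤ l₀ := le_max_right _ _
    rw [div_le_iff₀ hd0] at this
    linarith
  have h3 : l₀ ≤ E - 1 := by
    apply max_le (by linarith)
    have e1 : (2 * r - d - 2 * σ) / d = 2 / d * (r - d / 2 - σ) := by field_simp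
    rw [e1]
    linarith
  set Λ : ℝ := E - 1 + ε with hΛ
  have hΛ0 : 0 < Λ := by linarith
  have hlΛ : l₀ / Λ < 1 := by rw [div_lt_one hΛ0]; linarith
  set θ : ℝ := max (max (l₀ / Λ) (1 - ε / (2 * d))) (1 / 2) with hθ
  have hθ0 : 0 < θ := lt_of_lt_of_le (by norm_num) (le_max_right _ _)
  have hε2 : 0 < ε / (2 * d) := by positivity
  have hθ1 : θ < 1 := by
    apply max_lt (max_lt hlΛ _) (by norm_num)
    linarith
  have hθ2 : l₀ / Λ ≤ θ := (le_max_left _ _).trans (le_max_left _ _)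
  have hθ3 : 1 - ε / (2 * d) ≤ θ := (le_max_right _ _).trans (le_max_left _ _)
  have hlθ : l₀ / θ ≤ Λ := by
    rw [div_le_iff₀ hθ0]
    rw [div_le_iff₀ hΛ0] at hθ2
    linarith
  have hmθ : m * (1 - θ) ≤ ε / 2 := by
    have h4 : 1 - θ ≤ ε / (2 * d) := by linarith
    calc (m : ℝ) * (1 - θ) ≤ d * (ε / (2 * d)) := by
          have : (m : ℝ) ≤ d := by rw [hd]; linarith
          have h5 : 0 ≤ 1 - θ := by linarith
          gcongr
      _ = ε / 2 := by field_simp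
  have hg : 0 < 2 * σ - (2 * ((r : ℝ) - (m + 1)) + 1 + m * (2 - θ - l₀)) + Λ := by
    have e1 : 2 * σ - (2 * ((r : ℝ) - (m + 1)) + 1 + m * (2 - θ - l₀)) + Λ =
        (2 * σ - 2 * r + d + d * l₀) + (Λ - l₀) - m * (1 - θ) := by
      rw [hd]; ring
    rw [e1]
    linarith
  have h4 := ms_upper_gen ha hw hc hσ hΛ0.le (fun U => JJ_upper_mult hm ha hw hMG hθ0 hθ1 h0 h1
    hlθ hσ hg U)
  have e2 : 1 + Λ = E + ε := by rw [hΛ]; ring
  rwa [e2] at h4

end Pool.Agent.K6.H31.BR
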