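import Pool.Agent.K6.H31.BR.GAE
import Pool.Agent.K6.H31.BR.GMain

set_option autoImplicit false

/-!
# Almost all weights in every rational family are multiplicatively generic
-/

namespace Pool.Agent.K6.H31.BR

open MeasureTheory Set Filter
open scoped ENNReal

/-- almost all vectors, projectively -/
theorem ae_ratio (m : ℕ) : ∀ᵐ y : Fin (m + 1) → ℝ, NMA fun i : Fin m => y i.succ / y 0 := by
  set N : Set (Fin m → ℝ) := toMeasurable volume {x | ¬ NMA x} with hN
  have hN0 : volume N = 0 := by
    rw [hN, measure_toMeasurable]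
    exact ae_iff.1 (ae_nma m)
  have hNm : MeasurableSet N := measurableSet_toMeasurable _ _
  set B : Set (ℝ × (Fin m → ℝ)) := (fun q : ℝ × (Fin m → ℝ) => q.1⁻¹ • q.2) ⁻¹' N with hB
  have hBm : MeasurableSet B := by
    apply hNm.preimage
    exact measurable_fst.inv.smul measurable_snd
  have hB0 : (volume.prod volume : Measure (ℝ × (Fin m → ℝ))) B = 0 := by
    rw [Measure.measure_prod_null hBm]
    have h0 : ∀ᵐ t : ℝ, t ≠ 0 := by
      rw [ae_iff]
      simp
    filter_upwards [h0] with t ht
    have e : Prod.mk t ⁻¹' B = (fun z : Fin m → ℝ => t⁻¹ • z) ⁻¹' N := rfl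
    rw [e, Measure.addHaar_preimage_smul volume (inv_ne_zero ht), hN0, mul_zero]
    rfl
  have h1 : ∀ᵐ q : ℝ × (Fin m → ℝ) ∂(volume.prod volume), q ∉ B := by
    rw [ae_iff]
    simpa using hB0
  have hmp := volume_preserving_piFinSuccAbove (fun _ : Fin (m + 1) => ℝ) 0
  have h2 : ∀ᵐ y : Fin (m + 1) → ℝ,
      MeasurableEquiv.piFinSuccAbove (fun _ : Fin (m + 1) => ℝ) 0 y ∉ B := by
    have h1' : ∀ᵐ q : ℝ × (Fin m → ℝ), q ∉ B := by
      rw [Measure.volume_eq_prod]
      exact h1
    exact hmp.quasiMeasurePreserving.ae (p := fun q : ℝ × (Fin m → ℝ) => q ∉ B) h1'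
  filter_upwards [h2] with y hy
  by_contra hcon
  apply hy
  rw [hB, mem_preimage]
  apply subset_toMeasurable
  have e : (fun q : ℝ × (Fin m → ℝ) => q.1⁻¹ • q.2)
      (MeasurableEquiv.piFinSuccAbove (fun _ : Fin (m + 1) => ℝ) 0 y) =
      fun i : Fin m => y i.succ / y 0 := by
    funext i
    simp only [MeasurableEquiv.piFinSuccAbove_apply, Fin.insertNthEquiv, Equiv.coe_fn_symm_mk,
      Pi.smul_apply, smul_eq_mul, Fin.removeNth_apply, Fin.zero_succAbove]
    rw [div_eq_inv_mul]
  change ¬ NMA ((fun q : ℝ × (Fin m → ℝ) => q.1⁻¹ • q.2)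
      (MeasurableEquiv.piFinSuccAbove (fun _ : Fin (m + 1) => ℝ) 0 y))
  rw [e]
  exact hcon

/-- almost all vectors, with all their images under invertible rational matrices -/
theorem ae_rational (m : ℕ) : ∀ᵐ v : Fin (m + 1) → ℝ,
    ∀ A : Matrix (Fin (m + 1)) (Fin (m + 1)) ℚ, A.det ≠ 0 →
      NMA fun i : Fin m => (A.map (fun q : ℚ => (q : ℝ))).mulVec v i.succ /
        (A.map (fun q : ℚ => (q : ℝ))).mulVec v 0 := by
  have hcount : Countable (Matrix (Fin (m + 1)) (Fin (m + 1)) ℚ) :=
    inferInstanceAs (Countable (Fin (m + 1) → Fin (m + 1) → ℚ))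
  rw [ae_all_iff]
  intro A
  by_cases hA : A.det = 0
  · exact Eventually.of_forall fun v h => absurd hA h
  have hdet : (A.map (fun q : ℚ => (q : ℝ))).det ≠ 0 := by
    have h1 : (A.map (fun q : ℚ => (q : ℝ))).det = ((A.det : ℚ) : ℝ) := by
      have := (RingHom.map_det (Rat.castHom ℝ) A).symm
      exact this
    rw [h1]
    exact_mod_cast hA
  have h1 := Real.map_matrix_volume_pi_eq_smul_volume_pi hdet
  have h2 : ∀ᵐ y ∂(Measure.map (Matrix.toLin' (A.map (fun q : ℚ => (q : ℝ)))) volume),
      NMA fun i : Fin m => y i.succ / y 0 := by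
    rw [h1]
    exact Measure.ae_smul_measure (ae_ratio m) _
  have hmeas : Measurable (Matrix.toLin' (A.map (fun q : ℚ => (q : ℝ)))) :=
    (LinearMap.continuous_on_pi _).measurable
  have h3 := ae_of_ae_map hmeas.aemeasurable h2
  filter_upwards [h3] with v hv _
  exact hv

/-- the weights of a rational family are multiplicatively generic for almost all parameters -/
theorem multGen_of_span {m : ℕ} {v : Fin (m + 1) → ℝ} (hv : LinearIndependent ℚ v)
    (h : ∀ A : Matrix (Fin (m + 1)) (Fin (m + 1)) ℚ, A.det ≠ 0 →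
      NMA fun i : Fin m => (A.map (fun q : ℚ => (q : ℝ))).mulVec v i.succ /
        (A.map (fun q : ℚ => (q : ℝ))).mulVec v 0)
    {r : ℕ} {w : Fin r → ℝ} (hw : ∀ i, 0 < w i)
    (hspan : Submodule.span ℚ (range w) = Submodule.span ℚ (range v)) : MultGen w m := by
  classical
  intro j
  have hwj := hw j
  have hs : LinearIndepOn ℚ w ({j} : Set (Fin r)) := by
    rw [linearIndepOn_singleton_iff]
    exact hwj.ne'
  obtain ⟨b, -, hjb, hbs, hb⟩ := exists_linearIndepOn_extension hs (subset_univ _)
  have hspanb : Submodule.span ℚ (w '' b) = Submodule.span ℚ (range v) := by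
    rw [← hspan]
    apply le_antisymm
    · exact Submodule.span_mono (image_subset_range _ _)
    · rw [Submodule.span_le, ← image_univ]
      exact hbs
  have hfin : b.Finite := toFinite b
  have hcardb : b.ncard = m + 1 := by
    have h1 : Module.finrank ℚ (Submodule.span ℚ (range v)) = m + 1 := by
      rw [finrank_span_eq_card hv, Fintype.card_fin]
    have h2 : Module.finrank ℚ (Submodule.span ℚ (range fun x : b => w x)) = Fintype.card b :=
      finrank_span_eq_card hb
    have e : range (fun x : b => w x) = w '' b := by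
      rw [image_eq_range]
    rw [e, hspanb, h1] at h2
    rw [← Nat.card_coe_set_eq, Nat.card_eq_fintype_card, ← h2]
  -- an enumeration of `b` which starts with `j`
  obtain ⟨f, hf0, hfinj, hfmem⟩ : ∃ f : Fin (m + 1) → Fin r, f 0 = j ∧ Function.Injective f ∧
      ∀ i, f i ∈ b := by
    have hjb' : j ∈ b := hjb rfl
    have hc : (b \ {j}).ncard = m := by
      rw [ncard_sdiff_singleton_of_mem hjb', hcardb]
      rfl
    have hcf : Fintype.card (b \ {j} : Set (Fin r)) = m := by
      rw [← Nat.card_eq_fintype_card, Nat.card_coe_set_eq, hc]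
    set g := (Fintype.equivFinOfCardEq hcf).symm with hg
    refine ⟨Fin.cons j fun i => (g i : Fin r), rfl, ?_, ?_⟩
    · rw [Fin.cons_injective_iff]
      refine ⟨?_, fun i i' h => g.injective (Subtype.ext h)⟩
      rintro ⟨i, hi⟩
      exact (g i).2.2 hi
    · intro i
      refine Fin.cases ?_ (fun i => ?_) i
      · exact hjb'
      · exact (g i).2.1
  set y : Fin (m + 1) → ℝ := fun i => w (f i) with hy
  have hyli : LinearIndependent ℚ y := by
    have h1 : y = (fun x : b => w x) ∘ fun i => (⟨f i, hfmem i⟩ : b) := rfl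
    rw [h1]
    apply LinearIndependent.comp hb
    intro i i' h
    exact hfinj (congrArg Subtype.val h)
  have hyv : ∀ i, ∃ c : Fin (m + 1) → ℚ, ∑ k, c k • v k = y i := by
    intro i
    have h1 : y i ∈ Submodule.span ℚ (range v) := by
      rw [← hspan]
      exact Submodule.subset_span ⟨f i, rfl⟩
    exact (Submodule.mem_span_range_iff_exists_fun ℚ).1 h1
  choose A hA using hyv
  have hAdet : (Matrix.of A).det ≠ 0 := by
    intro hdet
    obtain ⟨u, hu0, hu⟩ := Matrix.exists_vecMul_eq_zero_iff.2 hdet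
    apply hu0
    have h1 : ∑ i, u i • y i = 0 := by
      calc ∑ i, u i • y i = ∑ i, u i • ∑ k, A i k • v k := by simp_rw [hA]
        _ = ∑ k, (∑ i, u i * A i k) • v k := by
            simp only [Finset.smul_sum, smul_smul, Finset.sum_smul]
            exact Finset.sum_comm
        _ = ∑ k, (0 : ℚ) • v k := by
            refine Finset.sum_congr rfl fun k _ => ?_
            congr 1
            have := congrFun hu k
            simpa [Matrix.vecMul, dotProduct] using this
        _ = 0 := by simp
    funext i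
    exact Fintype.linearIndependent_iff.1 hyli u h1 i
  have h1 := h (Matrix.of A) hAdet
  have h2 : ((Matrix.of A).map (fun q : ℚ => (q : ℝ))).mulVec v = y := by
    funext i
    rw [← hA i]
    simp [Matrix.mulVec, dotProduct, Rat.smul_def]
  rw [h2] at h1
  refine ⟨fun i => f i.succ, fun i i' h => ?_, ?_⟩
  · exact Fin.succ_injective _ (hfinj h)
  · intro θ hθ0 hθ1
    obtain ⟨c, hc, H⟩ := h1 θ hθ0 hθ1
    refine ⟨c, hc, fun l hl => ?_⟩
    have := H l hl
    simp only [hy, hf0] at this
    exact this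

end Pool.Agent.K6.H31.BR
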