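import Pool.Agent.K6.H31.BR.Ms
import Pool.Agent.K6.H31.BR.GFam

/-!
# The exact order of the mean square for multiplicatively generic weights
-/

set_option autoImplicit false

open Filter Topology Asymptotics MeasureTheory

namespace Pool.Agent.K6.H31.BR

open Pool.Agent.Results.MP_047497_nt.AlmostAllWeights (IsBarnesZeta weightDim moment exists_zeta)

/-- the exact order of the mean square -/
theorem exponent_mult {r m : ℕ} {w : Fin r → ℝ} (hw : ∀ i, 0 < w i) {a : ℝ} (ha : 0 < a)
    {Z : ℂ → ℂ} (hZ : IsBarnesZeta r a w Z) (hd : weightDim r w = m + 1) (hMG : MultGen w m)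
    {σ E : ℝ} (hσ : 1 / 2 ≤ σ) (hσr : (r : ℝ) - (m + 1) ≤ σ) (hE : 1 ≤ E) :
    (∀ ε : ℝ, 0 < ε → (fun T : ℝ => moment Z 1 σ T) =O[atTop] fun T : ℝ => T ^ (E + ε)) ↔
      1 + 2 / (m + 1) * (r - (m + 1) / 2 - σ) ≤ E := by
  have hdr : m + 1 ≤ r := by
    have := finrank_range_le_card (R := ℚ) w
    rw [Fintype.card_fin] at this
    unfold weightDim at hd
    change Module.finrank ℚ (Submodule.span ℚ (Set.range w)) ≤ r at this
    omega
  have hd' : (weightDim r w : ℝ) = m + 1 := by rw [hd]; push_cast; rfl
  have hm0 : (0 : ℝ) < m + 1 := by positivity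
  constructor
  · intro h
    by_contra hcon
    push Not at hcon
    set Y : ℝ := 2 / (m + 1) * (r - (m + 1) / 2 - σ) with hY
    have hYpos : 0 < Y := by linarith
    have h1 : σ < r - (weightDim r w : ℝ) / 2 := by
      rw [hd']
      have h2 : 0 < (r : ℝ) - (m + 1) / 2 - σ := by
        by_contra hc
        push Not at hc
        have : Y ≤ 0 := by
          rw [hY]
          exact mul_nonpos_of_nonneg_of_nonpos (by positivity) hc
        linarith
      linarith
    have h3 := large_all (by omega) hw ha hZ (k := 1) (σ := σ) (η := (E - 1 + Y) / 2) le_rfl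
      (by linarith) h1 (by
        rw [hd']
        push_cast
        rw [mul_one, ← hY]
        linarith)
    apply h3
    have h4 := h ((Y - (E - 1)) / 2) (by linarith)
    have e1 : E + (Y - (E - 1)) / 2 = 1 + (E - 1 + Y) / 2 := by ring
    rwa [e1] at h4
  · intro h ε hε
    exact moment_bound hw ha hZ fun c hc => bound_mult hdr ha hw hMG hc hσ hσr hE h hε

end Pool.Agent.K6.H31.BR
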