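import Pool.Agent.K6.H31.BR.Sum

set_option autoImplicit false

/-!
# Sums over multiples for several numbers which are not multiplicatively well approximable
-/

namespace Pool.Agent.K6.H31.BR

open Finset

/-- dyadic summation -/
lemma sum_block_gen {F : ℕ → ℝ → ℝ} (hF0 : ∀ l δ, 0 < δ → 0 ≤ F l δ)
    (hFm : ∀ l δ δ', 0 < δ → δ ≤ δ' → F l δ' ≤ F l δ) {A Λ K₁ : ℝ} (hK₁ : 0 ≤ K₁)
    (hinv : ∀ (V : ℕ) (δ : ℝ), 1 ≤ V → 0 < δ →
      ∑ l ∈ Icc 1 V, F l δ ≤ K₁ * (V * (δ ^ (-A) * (V : ℝ) ^ Λ)))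
    {c₂ C₁ s : ℝ} (hc₂ : 0 < c₂) (hC₁ : 0 < C₁) (R : ℕ) (hg : 0 < s - (R + A) + Λ) :
    ∃ C : ℝ, 0 ≤ C ∧ ∀ (T : ℝ) (L : ℕ), 1 ≤ T → (L : ℝ) ≤ C₁ * T →
      ∑ l ∈ Icc 1 L, (l : ℝ) ^ (s - 1) * ((T / l) ^ R * F l (c₂ * l / T)) ≤
        C * T ^ (s + Λ) := by
  set g : ℝ := s - (R + A) + Λ with hgd
  set Q : ℝ := 2 ^ |s - 1| with hQ
  have hQ0 : 0 < Q := by positivity
  have hQ1 : 1 ≤ Q := Real.one_le_rpow (by norm_num) (abs_nonneg _)
  have hq : 1 < (2 : ℝ) ^ g := Real.one_lt_rpow (by norm_num) hg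
  have hq0 : 0 < (2 : ℝ) ^ g - 1 := by linarith
  set K : ℝ := Q * K₁ * 2 * c₂ ^ (-A) * 2 ^ Λ with hK
  have hK0 : 0 ≤ K := by positivity
  refine ⟨K * (2 ^ g / (2 ^ g - 1)) * C₁ ^ g, by positivity, fun T L hT hL => ?_⟩
  have hT0 : 0 < T := by linarith
  set f : ℕ → ℝ := fun l => (l : ℝ) ^ (s - 1) * ((T / l) ^ R * F l (c₂ * l / T)) with hf
  rcases Nat.eq_zero_or_pos L with hL0 | hL0
  · subst hL0
    simp only [show Icc 1 0 = (∅ : Finset ℕ) by rfl, sum_empty]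
    positivity
  set N := Nat.log 2 L with hN
  have hmaps : ∀ l ∈ Icc 1 L, Nat.log 2 l ∈ range (N + 1) := by
    intro l hl
    rw [Finset.mem_Icc] at hl
    rw [Finset.mem_range, Nat.lt_succ_iff]
    exact Nat.log_mono_right hl.2
  rw [← Finset.sum_fiberwise_of_maps_to hmaps]
  have hblock : ∀ n ∈ range (N + 1), ∑ l ∈ (Icc 1 L).filter (fun l => Nat.log 2 l = n), f l ≤
      K * T ^ ((R : ℝ) + A) * ((2 : ℝ) ^ g) ^ n := by
    intro n _
    set P : ℝ := 2 ^ n with hP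
    have hP0 : 0 < P := by positivity
    have hδP : 0 < c₂ * P / T := by positivity
    have h1 : ∀ l ∈ (Icc 1 L).filter (fun l => Nat.log 2 l = n),
        f l ≤ (Q * P ^ (s - 1) * (T / P) ^ R) * F l (c₂ * P / T) := by
      intro l hl
      rw [Finset.mem_filter, Finset.mem_Icc] at hl
      have hl1 : 1 ≤ l := hl.1.1
      have hl0 : (0 : ℝ) < l := by exact_mod_cast hl1
      have hPl : P ≤ l := by
        have := Nat.pow_log_le_self 2 (show l ≠ 0 by omega)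
        rw [hl.2] at this
        rw [hP]
        exact_mod_cast this
      have hlP : (l : ℝ) ≤ 2 * P := by
        have := Nat.lt_pow_succ_log_self (one_lt_two) l
        rw [hl.2] at this
        have h2 : (l : ℝ) ≤ ((2 ^ (n + 1) : ℕ) : ℝ) := by exact_mod_cast this.le
        push_cast at h2
        rw [pow_succ] at h2
        linarith
      have h2 : (l : ℝ) ^ (s - 1) ≤ Q * P ^ (s - 1) := by
        rcases le_total 0 (s - 1) with h3 | h3
        · rw [hQ, abs_of_nonneg h3, ← Real.mul_rpow (by norm_num) hP0.le]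
          exact Real.rpow_le_rpow hl0.le hlP h3
        · have h4 : (l : ℝ) ^ (s - 1) ≤ P ^ (s - 1) := Real.rpow_le_rpow_of_nonpos hP0 hPl h3
          have h6 : 0 ≤ P ^ (s - 1) := by positivity
          nlinarith
      have h3 : (T / l) ^ R ≤ (T / P) ^ R := by gcongr
      have h4 : F l (c₂ * l / T) ≤ F l (c₂ * P / T) := by
        apply hFm l _ _ hδP
        gcongr
      have h5 : 0 ≤ F l (c₂ * P / T) := hF0 l _ hδP
      have h6 : 0 ≤ F l (c₂ * l / T) := hF0 l _ (by positivity)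
      calc f l = (l : ℝ) ^ (s - 1) * ((T / l) ^ R * F l (c₂ * l / T)) := rfl
        _ ≤ (Q * P ^ (s - 1)) * ((T / P) ^ R * F l (c₂ * P / T)) := by gcongr
        _ = _ := by ring
    have hsub : (Icc 1 L).filter (fun l => Nat.log 2 l = n) ⊆ Icc 1 (2 ^ (n + 1)) := by
      intro l hl
      rw [Finset.mem_filter, Finset.mem_Icc] at hl
      rw [Finset.mem_Icc]
      refine ⟨hl.1.1, ?_⟩
      have := Nat.lt_pow_succ_log_self (one_lt_two) l
      rw [hl.2] at this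
      exact this.le
    have h5 := hinv (2 ^ (n + 1)) (c₂ * P / T) Nat.one_le_two_pow hδP
    have h6 : ((2 ^ (n + 1) : ℕ) : ℝ) = 2 * P := by push_cast; rw [pow_succ, mul_comm]
    rw [h6] at h5
    calc _ ≤ ∑ l ∈ (Icc 1 L).filter (fun l => Nat.log 2 l = n),
          (Q * P ^ (s - 1) * (T / P) ^ R) * F l (c₂ * P / T) :=
          Finset.sum_le_sum h1
      _ ≤ ∑ l ∈ Icc (1 : ℕ) (2 ^ (n + 1)),
          (Q * P ^ (s - 1) * (T / P) ^ R) * F l (c₂ * P / T) :=
          Finset.sum_le_sum_of_subset_of_nonneg hsub fun l _ _ =>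
            mul_nonneg (by positivity) (hF0 l _ hδP)
      _ = (Q * P ^ (s - 1) * (T / P) ^ R) * ∑ l ∈ Icc (1 : ℕ) (2 ^ (n + 1)),
          F l (c₂ * P / T) := by rw [Finset.mul_sum]
      _ ≤ (Q * P ^ (s - 1) * (T / P) ^ R) * (K₁ * ((2 * P) * ((c₂ * P / T) ^ (-A) *
          (2 * P) ^ Λ))) := by
          gcongr
      _ = _ := by
          have e1 : (T / P) ^ R = T ^ (R : ℝ) * P ^ (-(R : ℝ)) := by
            rw [div_pow, Real.rpow_natCast, Real.rpow_neg hP0.le, Real.rpow_natCast, div_eq_mul_inv]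
          have e2 : (c₂ * P / T) ^ (-A) =
              c₂ ^ (-A) * (P ^ (-A) * T ^ A) := by
            rw [Real.div_rpow (by positivity) hT0.le, Real.mul_rpow hc₂.le hP0.le, div_eq_mul_inv,
              ← Real.rpow_neg hT0.le, neg_neg]
            ring
          have e2' : (2 * P) ^ Λ = 2 ^ Λ * P ^ Λ := Real.mul_rpow (by norm_num) hP0.le
          have e3 : ((2 : ℝ) ^ g) ^ n = P ^ g := by
            rw [hP, ← Real.rpow_natCast, ← Real.rpow_natCast, ← Real.rpow_mul (by norm_num),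
              ← Real.rpow_mul (by norm_num), mul_comm]
          have e4 : P ^ g = P ^ (s - 1) * P ^ (-(R : ℝ)) * P * P ^ (-A) * P ^ Λ := by
            have : P ^ (s - 1) * P ^ (-(R : ℝ)) * P * P ^ (-A) * P ^ Λ =
                P ^ (s - 1) * P ^ (-(R : ℝ)) * P ^ (1 : ℝ) * P ^ (-A) * P ^ Λ := by
              rw [Real.rpow_one]
            rw [this, ← Real.rpow_add hP0, ← Real.rpow_add hP0, ← Real.rpow_add hP0,
              ← Real.rpow_add hP0]
            congr 1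
            rw [hgd]; ring
          have e5 : T ^ ((R : ℝ) + A) = T ^ (R : ℝ) * T ^ A := Real.rpow_add hT0 _ _
          rw [e1, e2, e2', e3, e4, e5, hK]
          ring
  calc _ ≤ ∑ n ∈ range (N + 1), K * T ^ ((R : ℝ) + A) * ((2 : ℝ) ^ g) ^ n :=
        Finset.sum_le_sum hblock
    _ = K * T ^ ((R : ℝ) + A) * ∑ n ∈ range (N + 1), ((2 : ℝ) ^ g) ^ n := by
        rw [Finset.mul_sum]
    _ ≤ K * T ^ ((R : ℝ) + A) * ((2 ^ g / (2 ^ g - 1)) * (C₁ * T) ^ g) := by
        gcongr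
        rw [geom_sum_eq hq.ne', div_mul_eq_mul_div]
        apply div_le_div_of_nonneg_right _ hq0.le
        have h3 : ((2 : ℝ) ^ g) ^ (N + 1) = 2 ^ g * ((2 : ℝ) ^ N) ^ g := by
          rw [pow_succ, mul_comm]
          congr 1
          rw [← Real.rpow_natCast, ← Real.rpow_natCast, ← Real.rpow_mul (by norm_num),
            ← Real.rpow_mul (by norm_num), mul_comm]
        rw [h3]
        have h5 : (2 : ℝ) ^ N ≤ C₁ * T := by
          refine le_trans ?_ hL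
          have := Nat.pow_log_le_self 2 (show L ≠ 0 by omega)
          exact_mod_cast this
        have h4 : ((2 : ℝ) ^ N) ^ g ≤ (C₁ * T) ^ g := Real.rpow_le_rpow (by positivity) h5 hg.le
        nlinarith
    _ = _ := by
        rw [Real.mul_rpow hC₁.le hT0.le]
        have : T ^ (s + Λ) = T ^ ((R : ℝ) + A) * T ^ g := by
          rw [← Real.rpow_add hT0]
          congr 1
          rw [hgd]; ring
        rw [this]
        ring

variable {m : ℕ} {N : Fin m → ℕ → ℝ} {θ c : ℝ}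

/-- the number of simultaneously small values -/
lemma countm (hN : ∀ i, Gauge (N i)) (hθ : 0 ≤ θ) (hθ1 : θ ≤ 1) (hc : 0 < c)
    (H : ∀ l : ℕ, 1 ≤ l → c ≤ l * (∏ i, N i l) ^ θ) (V : ℕ) {y : Fin m → ℝ} (hy : ∀ i, 0 < y i) :
    (((Icc 1 V).filter fun l : ℕ => ∀ i, N i l ≤ y i).card : ℝ) ≤
      (2 ^ m + 1) / c * (V * (∏ i, y i) ^ θ) := by
  classical
  set A := (Icc 1 V).filter fun l : ℕ => ∀ i, N i l ≤ y i with hA
  set Y : ℝ := ∏ i, y i with hY
  have hY0 : 0 < Y := Finset.prod_pos fun i _ => hy i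
  rcases A.eq_empty_or_nonempty with h0 | ⟨l₀, hl₀⟩
  · rw [h0]
    simp only [card_empty, Nat.cast_zero]
    positivity
  set D : ℝ := c * ((2 ^ m * Y) ^ θ)⁻¹ with hD
  have h2y : 0 < (2 ^ m * Y) ^ θ := by positivity
  have hD0 : 0 < D := by positivity
  have hsep : ∀ l ∈ A, ∀ l' ∈ A, l < l' → (l : ℝ) + D ≤ l' := by
    intro l hl l' hl' hll
    rw [hA, Finset.mem_filter, Finset.mem_Icc] at hl hl'
    have h1 := H (l' - l) (by omega)
    have h2 : ∏ i, N i (l' - l) ≤ 2 ^ m * Y := by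
      calc ∏ i, N i (l' - l) ≤ ∏ i, (2 * y i) := by
            refine Finset.prod_le_prod (fun i _ => (hN i).nonneg _) fun i _ => ?_
            have := (hN i).sub l l' hll
            linarith [hl.2 i, hl'.2 i]
        _ = _ := by rw [Finset.prod_mul_distrib, Finset.prod_const, Finset.card_univ, Fintype.card_fin]
    have h3 : (∏ i, N i (l' - l)) ^ θ ≤ (2 ^ m * Y) ^ θ :=
      Real.rpow_le_rpow (Finset.prod_nonneg fun i _ => (hN i).nonneg _) h2 hθ
    have h4 : c ≤ ((l' - l : ℕ) : ℝ) * (2 ^ m * Y) ^ θ := by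
      refine h1.trans ?_
      gcongr
    rw [Nat.cast_sub hll.le] at h4
    have h5 : D ≤ (l' : ℝ) - l := by
      rw [hD, ← div_eq_mul_inv, div_le_iff₀ h2y]
      exact h4
    linarith
  have hinj : Set.InjOn (fun l : ℕ => ⌊(l : ℝ) / D⌋₊) A := by
    intro l hl l' hl' h
    have key : ∀ m ∈ A, ∀ m' ∈ A, m < m' → ⌊(m : ℝ) / D⌋₊ < ⌊(m' : ℝ) / D⌋₊ := by
      intro m hm m' hm' hmm
      have h1 := hsep m hm m' hm' hmm
      have h2 : (m : ℝ) / D + 1 ≤ m' / D := by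
        rw [le_div_iff₀ hD0, add_mul, div_mul_cancel₀ _ hD0.ne', one_mul]
        exact h1
      have h3 : ⌊(m : ℝ) / D⌋₊ + 1 ≤ ⌊(m' : ℝ) / D⌋₊ := by
        rw [← Nat.floor_add_one (by positivity)]
        exact Nat.floor_le_floor h2
      omega
    rcases lt_trichotomy l l' with h1 | h1 | h1
    · exact absurd h (key l hl l' hl' h1).ne
    · exact h1
    · exact absurd h (key l' hl' l hl h1).ne'
  have hmaps : ∀ l ∈ A, ⌊(l : ℝ) / D⌋₊ ∈ range (⌊(V : ℝ) / D⌋₊ + 1) := by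
    intro l hl
    rw [hA, Finset.mem_filter, Finset.mem_Icc] at hl
    rw [Finset.mem_range, Nat.lt_succ_iff]
    apply Nat.floor_le_floor
    have : (l : ℝ) ≤ V := by exact_mod_cast hl.1.2
    gcongr
  have hcard : (A.card : ℝ) ≤ V / D + 1 := by
    have h1 := Finset.card_le_card_of_injOn _ hmaps hinj
    rw [card_range] at h1
    have h2 : (A.card : ℝ) ≤ (⌊(V : ℝ) / D⌋₊ : ℝ) + 1 := by exact_mod_cast h1
    have h3 := Nat.floor_le (show 0 ≤ (V : ℝ) / D by positivity)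
    linarith
  have hone : (1 : ℝ) ≤ 1 / c * (V * Y ^ θ) := by
    rw [hA, Finset.mem_filter, Finset.mem_Icc] at hl₀
    have h1 := H l₀ hl₀.1.1
    have h2 : (∏ i, N i l₀) ^ θ ≤ Y ^ θ :=
      Real.rpow_le_rpow (Finset.prod_nonneg fun i _ => (hN i).nonneg _)
        (Finset.prod_le_prod (fun i _ => (hN i).nonneg _) fun i _ => hl₀.2 i) hθ
    have h3 : (l₀ : ℝ) ≤ V := by exact_mod_cast hl₀.1.2
    have h4 : c ≤ V * Y ^ θ := by
      refine h1.trans ?_
      have h5 : 0 ≤ (∏ i, N i l₀) ^ θ :=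
        Real.rpow_nonneg (Finset.prod_nonneg fun i _ => (hN i).nonneg _) _
      gcongr
    rw [one_div, ← div_eq_inv_mul, le_div_iff₀ hc]
    linarith
  have hVD : (V : ℝ) / D ≤ 2 ^ m / c * (V * Y ^ θ) := by
    have h1 : (2 ^ m * Y) ^ θ ≤ 2 ^ m * Y ^ θ := by
      rw [Real.mul_rpow (by positivity) hY0.le]
      have h12 : (1 : ℝ) ≤ 2 ^ m := one_le_pow₀ (by norm_num)
      have : ((2 : ℝ) ^ m) ^ θ ≤ (2 ^ m) ^ (1 : ℝ) := Real.rpow_le_rpow_of_exponent_le h12 hθ1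
      rw [Real.rpow_one] at this
      gcongr
    have h2 : (V : ℝ) / D = 1 / c * (V * (2 ^ m * Y) ^ θ) := by
      rw [hD]; field_simp
    rw [h2]
    calc 1 / c * (V * (2 ^ m * Y) ^ θ) ≤ 1 / c * (V * (2 ^ m * Y ^ θ)) := by gcongr
      _ = _ := by ring
  calc (A.card : ℝ) ≤ 2 ^ m / c * (V * Y ^ θ) + 1 / c * (V * Y ^ θ) := by linarith
    _ = _ := by ring

lemma pt_bound1 {ρ δ : ℝ} (hρ0 : 0 ≤ ρ) (hδ : 0 < δ) {I : ℕ} (hI : ρ ≤ 2 ^ I * δ) :
    (δ + ρ)⁻¹ ≤ ∑ i ∈ range (I + 1), 2 * ((2 : ℝ) ^ i)⁻¹ * δ⁻¹ *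
      (if ρ ≤ 2 ^ i * δ then 1 else 0) := by
  classical
  have hex : ∃ i : ℕ, ρ ≤ 2 ^ i * δ := ⟨I, hI⟩
  set i := Nat.find hex with hi
  have h1 : ρ ≤ 2 ^ i * δ := Nat.find_spec hex
  have h2 : i ≤ I := Nat.find_le hI
  have h3 : (δ + ρ)⁻¹ ≤ 2 * ((2 : ℝ) ^ i)⁻¹ * δ⁻¹ * (if ρ ≤ 2 ^ i * δ then 1 else 0) := by
    rw [if_pos h1, mul_one]
    rcases Nat.eq_zero_or_pos i with h4 | h4
    · rw [h4, pow_zero, inv_one, mul_one]
      have h5 : (δ + ρ)⁻¹ ≤ δ⁻¹ := inv_anti₀ hδ (by linarith)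
      have h6 : 0 < δ⁻¹ := by positivity
      linarith
    · have h5 : ¬ ρ ≤ 2 ^ (i - 1) * δ := Nat.find_min hex (by omega)
      push Not at h5
      have h6 : (2 : ℝ) ^ i = 2 * 2 ^ (i - 1) := by
        have : (2 : ℝ) ^ i = 2 ^ ((i - 1) + 1) := by congr 1; omega
        rw [this, pow_succ]
        ring
      have h7 : 2 * ((2 : ℝ) ^ i)⁻¹ * δ⁻¹ = (2 ^ (i - 1) * δ)⁻¹ := by
        rw [h6]
        field_simp
      rw [h7]
      apply inv_anti₀ (by positivity)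
      linarith
  refine h3.trans (Finset.single_le_sum (f := fun i : ℕ => 2 * ((2 : ℝ) ^ i)⁻¹ * δ⁻¹ *
      (if ρ ≤ 2 ^ i * δ then 1 else 0)) (fun j _ => ?_) (Finset.mem_range.2 (by omega)))
  split_ifs <;> positivity

/-- the first moment -/
lemma sum1m (hN : ∀ i, Gauge (N i)) (hθ : 0 ≤ θ) (hθ1 : θ < 1) (hc : 0 < c)
    (H : ∀ l : ℕ, 1 ≤ l → c ≤ l * (∏ i, N i l) ^ θ) (V : ℕ) {δ : ℝ} (hδ : 0 < δ) :
    ∑ l ∈ Icc 1 V, ∏ i, (δ + N i l)⁻¹ ≤
      (2 ^ m + 1) / c * (2 / (1 - 2 ^ (θ - 1))) ^ m * (V * δ ^ (-(m * (1 - θ)))) := by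
  classical
  have hbd : ∃ I : ℕ, ∀ i l, N i l ≤ 2 ^ I * δ := by
    choose B hB using fun i => (hN i).bdd
    set B' : ℝ := ∑ i, |B i| with hB'
    obtain ⟨I, hI⟩ := pow_unbounded_of_one_lt (B' / δ) (one_lt_two)
    refine ⟨I, fun i l => ?_⟩
    rw [div_lt_iff₀ hδ] at hI
    refine ((hB i l).trans ((le_abs_self _).trans ?_)).trans hI.le
    exact Finset.single_le_sum (f := fun i => |B i|) (fun i _ => abs_nonneg _) (Finset.mem_univ i)
  obtain ⟨I, hI⟩ := hbd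
  set q : ℝ := 2 ^ (θ - 1) with hq
  have hq0 : 0 < q := by positivity
  have hq1 : q < 1 := Real.rpow_lt_one_of_one_lt_of_neg (by norm_num) (by linarith)
  set g : ℕ → ℝ := fun k => 2 * ((2 : ℝ) ^ k)⁻¹ * δ⁻¹ with hg
  have hg0 : ∀ k, 0 ≤ g k := fun k => by positivity
  set S : Finset (Fin m → ℕ) := Fintype.piFinset fun _ : Fin m => range (I + 1) with hS
  calc ∑ l ∈ Icc 1 V, ∏ i, (δ + N i l)⁻¹
      ≤ ∑ l ∈ Icc 1 V, ∏ i, ∑ k ∈ range (I + 1), g k * (if N i l ≤ 2 ^ k * δ then 1 else 0) := by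
        refine Finset.sum_le_sum fun l _ => Finset.prod_le_prod (fun i _ => ?_) fun i _ => ?_
        · have := (hN i).nonneg l
          positivity
        · exact pt_bound1 ((hN i).nonneg _) hδ (hI i l)
    _ = ∑ l ∈ Icc 1 V, ∑ x ∈ S, (∏ i, g (x i)) * (if ∀ i, N i l ≤ 2 ^ (x i) * δ then 1 else 0) := by
        refine Finset.sum_congr rfl fun l _ => ?_
        rw [Finset.prod_univ_sum]
        refine Finset.sum_congr rfl fun x _ => ?_
        rw [Finset.prod_mul_distrib, Finset.prod_boole]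
        simp
    _ = ∑ x ∈ S, (∏ i, g (x i)) *
        (((Icc 1 V).filter fun l : ℕ => ∀ i, N i l ≤ 2 ^ (x i) * δ).card : ℝ) := by
        rw [Finset.sum_comm]
        refine Finset.sum_congr rfl fun x _ => ?_
        rw [← Finset.mul_sum, Finset.sum_boole]
    _ ≤ ∑ x ∈ S, (∏ i, g (x i)) * ((2 ^ m + 1) / c * (V * (∏ i, (2 ^ (x i) * δ)) ^ θ)) := by
        refine Finset.sum_le_sum fun x _ => ?_
        have h1 : 0 ≤ ∏ i, g (x i) := Finset.prod_nonneg fun i _ => hg0 _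
        exact mul_le_mul_of_nonneg_left
          (countm hN hθ hθ1.le hc H V (y := fun i => 2 ^ (x i) * δ) (fun i => by positivity)) h1
    _ = (2 ^ m + 1) / c * V * ∑ x ∈ S, ∏ i, (g (x i) * (2 ^ (x i) * δ) ^ θ) := by
        rw [Finset.mul_sum]
        refine Finset.sum_congr rfl fun x _ => ?_
        have e : ∏ i, (g (x i) * (2 ^ (x i) * δ) ^ θ) =
            (∏ i, g (x i)) * (∏ i, (2 ^ (x i) * δ)) ^ θ := by
          rw [← Real.finsetProd_rpow _ _ (fun i _ => by positivity)]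
          exact Finset.prod_mul_distrib
        rw [e]
        ring
    _ = (2 ^ m + 1) / c * V * ∏ _i : Fin m, ∑ k ∈ range (I + 1), g k * (2 ^ k * δ) ^ θ := by
        rw [Finset.prod_univ_sum]
    _ ≤ (2 ^ m + 1) / c * V * ∏ _i : Fin m, (2 / (1 - q) * δ ^ (-(1 - θ))) := by
        have h1 : ∑ k ∈ range (I + 1), g k * (2 ^ k * δ) ^ θ ≤ 2 / (1 - q) * δ ^ (-(1 - θ)) := by
          have h2 : ∀ k : ℕ, g k * (2 ^ k * δ) ^ θ = (2 * δ ^ (-(1 - θ))) * q ^ k := by
            intro k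
            have e1 : ((2 : ℝ) ^ k * δ) ^ θ = (2 ^ θ) ^ k * δ ^ θ := by
              rw [Real.mul_rpow (by positivity) hδ.le]
              congr 1
              rw [← Real.rpow_natCast, ← Real.rpow_mul (by norm_num), mul_comm,
                Real.rpow_mul (by norm_num), Real.rpow_natCast]
            have e2 : δ ^ (-(1 - θ)) = δ ^ θ * δ⁻¹ := by
              rw [neg_sub, Real.rpow_sub hδ, Real.rpow_one, div_eq_mul_inv]
            have e3 : q = 2 ^ θ / 2 := by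
              rw [hq, Real.rpow_sub (by norm_num), Real.rpow_one]
            rw [e1, e2, e3, div_pow]
            simp only [hg]
            field_simp
          simp_rw [h2]
          rw [← Finset.mul_sum]
          calc _ ≤ (2 * δ ^ (-(1 - θ))) * (1 - q)⁻¹ := by
                gcongr
                rw [← tsum_geometric_of_lt_one hq0.le hq1]
                exact (summable_geometric_of_lt_one hq0.le hq1).sum_le_tsum _ fun i _ => by positivity
            _ = _ := by rw [div_eq_mul_inv]; ring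
        have h3 : ∏ _i : Fin m, ∑ k ∈ range (I + 1), g k * (2 ^ k * δ) ^ θ ≤
            ∏ _i : Fin m, (2 / (1 - q) * δ ^ (-(1 - θ))) := by
          refine Finset.prod_le_prod (fun i _ => Finset.sum_nonneg fun k _ => ?_) fun i _ => h1
          have := hg0 k
          positivity
        gcongr
    _ = _ := by
        rw [Finset.prod_const, Finset.card_univ, Fintype.card_fin, mul_pow, ← Real.rpow_natCast
          (δ ^ (-(1 - θ))), ← Real.rpow_mul hδ.le]
        have : -(1 - θ) * (m : ℝ) = -(m * (1 - θ)) := by ring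
        rw [this]
        ring

/-- the second moment -/
lemma sum2m (hN : ∀ i, Gauge (N i)) (hθ : 0 < θ) (hθ1 : θ < 1) (hc : 0 < c)
    (H : ∀ l : ℕ, 1 ≤ l → c ≤ l * (∏ i, N i l) ^ θ) {lam Λ : ℝ} (hl0 : 0 ≤ lam) (hl1 : lam ≤ 1)
    (hΛ : lam / θ ≤ Λ) :
    ∃ K : ℝ, 0 ≤ K ∧ ∀ (V : ℕ) (δ : ℝ), 1 ≤ V → 0 < δ →
      ∑ l ∈ Icc 1 V, ∏ i, (δ ^ 2 + N i l ^ 2)⁻¹ ≤
        K * (V * (δ ^ (-(m * (2 - θ - lam))) * (V : ℝ) ^ Λ)) := by
  have hq1 : (2 : ℝ) ^ (θ - 1) < 1 := Real.rpow_lt_one_of_one_lt_of_neg (by norm_num) (by linarith)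
  obtain ⟨K₁, hK₁⟩ : ∃ K : ℝ, K = (2 ^ m + 1) / c * (2 / (1 - 2 ^ (θ - 1))) ^ m := ⟨_, rfl⟩
  have hK₁0 : 0 ≤ K₁ := by
    rw [hK₁]
    have : 0 < 2 / (1 - (2 : ℝ) ^ (θ - 1)) := div_pos two_pos (by linarith)
    positivity
  refine ⟨2 ^ m * c ^ (-(lam / θ)) * K₁, by positivity, fun V δ hV hδ => ?_⟩
  have hV1 : (1 : ℝ) ≤ V := by exact_mod_cast hV
  have hV0 : (0 : ℝ) < V := by linarith
  have h1 := sum1m hN hθ.le hθ1 hc H V hδ
  rw [← hK₁] at h1
  have h2 : ∀ l ∈ Icc 1 V, ∏ i, (δ ^ 2 + N i l ^ 2)⁻¹ ≤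
      (2 ^ m * (δ ^ (-(m * (1 - lam))) * (V / c) ^ (lam / θ))) * ∏ i, (δ + N i l)⁻¹ := by
    intro l hl
    rw [Finset.mem_Icc] at hl
    have hl0' : (0 : ℝ) < l := by exact_mod_cast hl.1
    have hlV : (l : ℝ) ≤ V := by exact_mod_cast hl.2
    set h : ℝ := ∏ i, (δ + N i l)⁻¹ with hh
    have hpos : ∀ i, 0 < δ + N i l := fun i => by
      have := (hN i).nonneg l
      linarith
    have hh0 : 0 < h := Finset.prod_pos fun i _ => inv_pos.2 (hpos i)
    have h3 : ∏ i, (δ ^ 2 + N i l ^ 2)⁻¹ ≤ 2 ^ m * (h * h) := by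
      calc ∏ i, (δ ^ 2 + N i l ^ 2)⁻¹ ≤ ∏ i, (2 * ((δ + N i l)⁻¹ * (δ + N i l)⁻¹)) := by
            refine Finset.prod_le_prod (fun i _ => by positivity) fun i _ => ?_
            have h4 := hpos i
            have h5 : 0 < δ ^ 2 + N i l ^ 2 := by positivity
            rw [← mul_inv, ← div_eq_mul_inv, le_div_iff₀ (by positivity), ← div_eq_inv_mul,
              div_le_iff₀ h5]
            nlinarith [sq_nonneg (δ - N i l)]
        _ = _ := by
            rw [Finset.prod_mul_distrib, Finset.prod_mul_distrib, Finset.prod_const,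
              Finset.card_univ, Fintype.card_fin]
    have h4 : h ≤ δ ^ (-(m : ℝ)) := by
      calc h ≤ ∏ _i : Fin m, δ⁻¹ := by
            refine Finset.prod_le_prod (fun i _ => (inv_pos.2 (hpos i)).le) fun i _ => ?_
            apply inv_anti₀ hδ
            have := (hN i).nonneg l
            linarith
        _ = _ := by
            rw [Finset.prod_const, Finset.card_univ, Fintype.card_fin, Real.rpow_neg hδ.le,
              Real.rpow_natCast, inv_pow]
    have h5 : h ≤ (V / c) ^ (1 / θ) := by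
      have h6 := H l hl.1
      have hP0 : 0 ≤ ∏ i, N i l := Finset.prod_nonneg fun i _ => (hN i).nonneg _
      have hPθ : c / V ≤ (∏ i, N i l) ^ θ := by
        rw [div_le_iff₀ hV0]
        have : 0 ≤ (∏ i, N i l) ^ θ := Real.rpow_nonneg hP0 _
        nlinarith
      have h7 : (c / V) ^ (1 / θ) ≤ ∏ i, N i l := by
        calc (c / V) ^ (1 / θ) ≤ ((∏ i, N i l) ^ θ) ^ (1 / θ) :=
              Real.rpow_le_rpow (by positivity) hPθ (by positivity)
          _ = _ := by rw [← Real.rpow_mul hP0, mul_one_div_cancel hθ.ne', Real.rpow_one]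
      have h8 : (c / V) ^ (1 / θ) ≤ ∏ i, (δ + N i l) := by
        refine h7.trans (Finset.prod_le_prod (fun i _ => (hN i).nonneg _) fun i _ => ?_)
        linarith
      rw [hh, Finset.prod_inv_distrib]
      calc (∏ i, (δ + N i l))⁻¹ ≤ ((c / V) ^ (1 / θ))⁻¹ := inv_anti₀ (by positivity) h8
        _ = _ := by rw [← Real.inv_rpow (by positivity), inv_div]
    have h6 : h ≤ δ ^ (-(m * (1 - lam))) * (V / c) ^ (lam / θ) := by
      calc h = h ^ (1 - lam) * h ^ lam := by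
            rw [← Real.rpow_add hh0]; norm_num
        _ ≤ (δ ^ (-(m : ℝ))) ^ (1 - lam) * ((V / c) ^ (1 / θ)) ^ lam := by
            have h7 := Real.rpow_le_rpow hh0.le h4 (show 0 ≤ 1 - lam by linarith)
            have h8 := Real.rpow_le_rpow hh0.le h5 hl0
            gcongr
        _ = _ := by
            rw [← Real.rpow_mul hδ.le, ← Real.rpow_mul (by positivity)]
            congr 2
            · ring
            · ring
    calc _ ≤ 2 ^ m * (h * h) := h3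
      _ ≤ 2 ^ m * ((δ ^ (-(m * (1 - lam))) * (V / c) ^ (lam / θ)) * h) := by gcongr
      _ = _ := by ring
  calc _ ≤ ∑ l ∈ Icc 1 V, (2 ^ m * (δ ^ (-(m * (1 - lam))) * (V / c) ^ (lam / θ))) *
        ∏ i, (δ + N i l)⁻¹ := Finset.sum_le_sum h2
    _ = (2 ^ m * (δ ^ (-(m * (1 - lam))) * (V / c) ^ (lam / θ))) *
        ∑ l ∈ Icc 1 V, ∏ i, (δ + N i l)⁻¹ := by rw [Finset.mul_sum]
    _ ≤ (2 ^ m * (δ ^ (-(m * (1 - lam))) * (V / c) ^ (lam / θ))) *
        (K₁ * (V * δ ^ (-(m * (1 - θ))))) := by gcongr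
    _ = 2 ^ m * c ^ (-(lam / θ)) * K₁ * (V * (δ ^ (-(m * (2 - θ - lam))) * (V : ℝ) ^ (lam / θ))) := by
        have e1 : (V / c) ^ (lam / θ) = c ^ (-(lam / θ)) * (V : ℝ) ^ (lam / θ) := by
          rw [Real.div_rpow hV0.le hc.le, Real.rpow_neg hc.le]
          ring
        have e2 : δ ^ (-(m * (2 - θ - lam))) = δ ^ (-(m * (1 - lam))) * δ ^ (-(m * (1 - θ))) := by
          rw [← Real.rpow_add hδ]
          congr 1; ring
        rw [e1, e2]
        ring
    _ ≤ _ := by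
        have h3 : (V : ℝ) ^ (lam / θ) ≤ (V : ℝ) ^ Λ := Real.rpow_le_rpow_of_exponent_le hV1 hΛ
        gcongr

end Pool.Agent.K6.H31.BR
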