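import Pool.Agent.K6.H31.BR.Up2
import Pool.Agent.K6.H31.BR.GSum

set_option autoImplicit false

/-!
# The square integral of the Barnes kernel on rotated rays: general version
-/

namespace Pool.Agent.K6.H31.BR

open Finset Filter Topology MeasureTheory Complex Set
open Pool.Agent.H131R5.BZ Pool.Agent.Y930.Bz Pool.Agent.Y616.BM

variable {r : ℕ} {a : ℝ} {w : Fin r → ℝ}

/-- the arithmetic factor -/
noncomputable def arg (n : ℕ) (σ T c₂ : ℝ) (F : ℕ → ℝ → ℝ) (l : ℕ) : ℝ :=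
  (l : ℝ) ^ (2 * σ - 1) * ((T / l) ^ (2 * n) * F l (c₂ * l / T))

/-- the majorant near one multiple of the period -/
lemma pair_main_gen {w₁ : ℝ} (hw₁ : 0 < w₁) {σ : ℝ} (hσ : 1 / 2 ≤ σ)
    {x T : ℝ} (hT : 1 ≤ T) (hx : 0 < x) (hxT : x ≤ T) (n : ℕ) {F : ℕ → ℝ → ℝ} {B : ℝ}
    {q₁ Q : ℝ} (hQ0 : 0 ≤ Q)
    (hQ : ∀ l : ℕ, 1 ≤ l → (round (w₁ * (x * Real.cos (1 / T) / (2 * Real.pi))) : ℝ) = l →
      Real.pi / w₁ * l / T ≤ x * (1 / T) → Q ≤ B * F l (Real.pi / w₁ * l / T))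
    (hq₁ : q₁ = ((x * (1 / T)) ^ 2 + nd (w₁ * (x * Real.cos (1 / T) / (2 * Real.pi))) ^ 2)⁻¹)
    (hl : 1 ≤ round (w₁ * (x * Real.cos (1 / T) / (2 * Real.pi)))) :
    ∃ l : ℕ, 1 ≤ l ∧ (l : ℝ) ≤ (w₁ + 1) * T ∧ q₁ ^ (n + 1) * Q * x ^ (2 * σ) ≤
      (((Real.pi / w₁) ^ (2 * n))⁻¹ * B * (6 * Real.pi / w₁) ^ (2 * σ - 1)) *
      (arg n σ T (Real.pi / w₁) F l * (x * ((Real.pi / w₁ * l / T) ^ 2 +
        (w₁ * Real.cos (1 / T) / (2 * Real.pi) * x - l) ^ 2)⁻¹)) := by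
  have hT0 : 0 < T := by linarith
  have hpi := Real.pi_pos
  have hpi3 := Real.pi_gt_three
  have hη0 : 0 < 1 / T := by positivity
  have hη1 : 1 / T ≤ 1 := by rw [div_le_one hT0]; exact hT
  have hcos1 : 1 / 2 ≤ Real.cos (1 / T) := by
    have := Real.one_sub_sq_div_two_le_cos (x := 1 / T)
    nlinarith
  have hcos2 : Real.cos (1 / T) ≤ 1 := Real.cos_le_one _
  set γ : ℝ := w₁ * Real.cos (1 / T) / (2 * Real.pi) with hγ
  have hγx : w₁ * (x * Real.cos (1 / T) / (2 * Real.pi)) = γ * x := by rw [hγ]; ring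
  rw [hγx] at hl hQ hq₁
  have hγ0 : 0 < γ := by
    rw [hγ]
    have : 0 < Real.cos (1 / T) := by linarith
    positivity
  have hγ1 : γ ≤ w₁ / (2 * Real.pi) := by
    rw [hγ]
    apply div_le_div_of_nonneg_right _ (by positivity)
    nlinarith
  have hγ2 : w₁ / (4 * Real.pi) ≤ γ := by
    rw [hγ, div_le_div_iff₀ (by positivity) (by positivity)]
    nlinarith [mul_pos hw₁ hpi]
  obtain ⟨l, hll⟩ : ∃ l : ℕ, (l : ℤ) = round (γ * x) :=
    ⟨(round (γ * x)).toNat, Int.toNat_of_nonneg (by linarith)⟩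
  have hlr : (round (γ * x) : ℝ) = l := by rw [← hll]; simp
  have hl1 : 1 ≤ l := by rw [← hll] at hl; exact_mod_cast hl
  have hl1' : (1 : ℝ) ≤ l := by exact_mod_cast hl1
  have hl0 : (0 : ℝ) < l := by linarith
  have habs := abs_sub_round (γ * x)
  rw [hlr] at habs
  have hnd : nd (γ * x) = |γ * x - l| := by unfold nd; rw [hlr]
  obtain ⟨hab1, hab2⟩ := abs_le.1 habs
  -- bounds for `x`
  have hxl : Real.pi / w₁ * l ≤ x := by
    have h1 : (l : ℝ) / 2 ≤ γ * x := by linarith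
    have h2 : γ * x ≤ w₁ / (2 * Real.pi) * x := by gcongr
    have h3 : (l : ℝ) / 2 ≤ w₁ / (2 * Real.pi) * x := h1.trans h2
    rw [div_mul_eq_mul_div, div_le_iff₀ hw₁]
    rw [div_mul_eq_mul_div, div_le_div_iff₀ (by norm_num) (by positivity)] at h3
    nlinarith
  have hxu : x ≤ 6 * Real.pi / w₁ * l := by
    have h1 : γ * x ≤ 3 / 2 * l := by linarith
    have h2 : w₁ / (4 * Real.pi) * x ≤ γ * x := by gcongr
    have h3 : w₁ / (4 * Real.pi) * x ≤ 3 / 2 * l := h2.trans h1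
    rw [div_mul_eq_mul_div, le_div_iff₀ hw₁]
    rw [div_mul_eq_mul_div, div_le_iff₀ (by positivity)] at h3
    nlinarith
  refine ⟨l, hl1, ?_, ?_⟩
  · have h1 : (l : ℝ) ≤ γ * x + 1 / 2 := by linarith
    have h2 : γ * x ≤ w₁ * T := by
      have h3 : γ ≤ w₁ := by
        refine hγ1.trans ?_
        rw [div_le_iff₀ (by positivity)]
        nlinarith
      gcongr
    nlinarith
  set δ : ℝ := x * (1 / T) with hδ
  set δl : ℝ := Real.pi / w₁ * l / T with hδl
  have hδl0 : 0 < δl := by positivity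
  have hδδ : δl ≤ δ := by
    rw [hδl, hδ, mul_one_div]
    gcongr
  set h : ℝ := (δl ^ 2 + (γ * x - l) ^ 2)⁻¹ with hh
  have hh0 : 0 < h := by positivity
  have hq1 : q₁ ≤ h := by
    rw [hq₁, hh, hnd, sq_abs]
    apply inv_anti₀ (by positivity)
    gcongr
  have hq10 : 0 < q₁ := by
    rw [hq₁]
    have : 0 < δ := by linarith
    positivity
  have hh1 : h ≤ (δl ^ 2)⁻¹ := by
    rw [hh]
    apply inv_anti₀ (by positivity)
    nlinarith [sq_nonneg (γ * x - l)]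
  have hpow : q₁ ^ (n + 1) ≤ (δl ^ (2 * n))⁻¹ * h := by
    calc q₁ ^ (n + 1) ≤ h ^ (n + 1) := by gcongr
      _ = h ^ n * h := pow_succ _ _
      _ ≤ ((δl ^ 2)⁻¹) ^ n * h := by gcongr
      _ = _ := by rw [inv_pow, pow_mul]
  have hq2 : Q ≤ B * F l δl := hQ l hl1 hlr hδδ
  have hBF : 0 ≤ B * F l δl := hQ0.trans hq2
  have hxs : x ^ (2 * σ) ≤ x * ((6 * Real.pi / w₁) ^ (2 * σ - 1) * (l : ℝ) ^ (2 * σ - 1)) := by
    have h1 : x ^ (2 * σ) = x * x ^ (2 * σ - 1) := by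
      rw [mul_comm x, ← Real.rpow_add_one hx.ne']
      congr 1; ring
    rw [h1, ← Real.mul_rpow (by positivity) hl0.le]
    have h2 : x ^ (2 * σ - 1) ≤ (6 * Real.pi / w₁ * l) ^ (2 * σ - 1) :=
      Real.rpow_le_rpow hx.le hxu (by linarith)
    gcongr
  calc q₁ ^ (n + 1) * Q * x ^ (2 * σ)
      ≤ ((δl ^ (2 * n))⁻¹ * h) * (B * F l δl) *
        (x * ((6 * Real.pi / w₁) ^ (2 * σ - 1) * (l : ℝ) ^ (2 * σ - 1))) := by
        have h8 : 0 ≤ (δl ^ (2 * n))⁻¹ * h := by positivity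
        have h9 : 0 ≤ (δl ^ (2 * n))⁻¹ * h * (B * F l δl) := mul_nonneg h8 hBF
        gcongr
    _ = _ := by
        have e1 : (δl ^ (2 * n))⁻¹ = ((Real.pi / w₁) ^ (2 * n))⁻¹ * (T / l) ^ (2 * n) := by
          rw [hδl, ← inv_pow, ← inv_pow, ← mul_pow]
          congr 1
          field_simp
        rw [e1]
        unfold arg
        rw [← hδl]
        ring

/-- the constant -/
noncomputable def kpg (n : ℕ) (σ w₁ B : ℝ) : ℝ :=
  ((Real.pi / w₁) ^ (2 * n))⁻¹ * B * (6 * Real.pi / w₁) ^ (2 * σ - 1)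

/-- the integral of the majorant -/
lemma pair_int_gen {w₁ : ℝ} (hw₁ : 0 < w₁) (n : ℕ) {F : ℕ → ℝ → ℝ}
    (hF0 : ∀ l δ, 0 < δ → 0 ≤ F l δ) {σ S C₁ : ℝ}
    (hsum : ∃ C : ℝ, 0 ≤ C ∧ ∀ (T : ℝ) (L : ℕ), 1 ≤ T → (L : ℝ) ≤ C₁ * T →
      ∑ l ∈ Finset.Icc 1 L, (l : ℝ) ^ (2 * σ - 1) * ((T / l) ^ (2 * n + 1) *
        F l (Real.pi / w₁ * l / T)) ≤ C * T ^ S) (K : ℝ) (hK : 0 ≤ K) :
    ∃ C : ℝ, 0 ≤ C ∧ ∀ (T : ℝ) (L : ℕ), 1 ≤ T → (L : ℝ) ≤ C₁ * T →
      ∑ l ∈ Finset.Icc 1 L, ∫⁻ u : ℝ, ENNReal.ofReal (K * arg n σ T (Real.pi / w₁) F l) *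
        (ENNReal.ofReal (Real.exp (-u)) * ENNReal.ofReal (((Real.pi / w₁ * l / T) ^ 2 +
        (w₁ * Real.cos (1 / T) / (2 * Real.pi) * Real.exp (-u) - l) ^ 2)⁻¹)) ≤
        ENNReal.ofReal (C * T ^ S) := by
  have hpi := Real.pi_pos
  obtain ⟨C, hC, h⟩ := hsum
  refine ⟨K * (4 * Real.pi) * C, by positivity, fun T L hT hL => ?_⟩
  have hT0 : 0 < T := by linarith
  have hη0 : 0 < 1 / T := by positivity
  have hη1 : 1 / T ≤ 1 := by rw [div_le_one hT0]; exact hT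
  have hcos1 : 1 / 2 ≤ Real.cos (1 / T) := by
    have := Real.one_sub_sq_div_two_le_cos (x := 1 / T)
    nlinarith
  have hcos0 : 0 < Real.cos (1 / T) := by linarith
  set γ : ℝ := w₁ * Real.cos (1 / T) / (2 * Real.pi) with hγ
  have hγ0 : 0 < γ := by positivity
  have hγ2 : w₁ / (4 * Real.pi) ≤ γ := by
    rw [hγ, div_le_div_iff₀ (by positivity) (by positivity)]
    nlinarith [mul_pos hw₁ hpi]
  have hterm : ∀ l ∈ Finset.Icc 1 L, ∫⁻ u : ℝ, ENNReal.ofReal (K * arg n σ T (Real.pi / w₁) F l) *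
        (ENNReal.ofReal (Real.exp (-u)) * ENNReal.ofReal (((Real.pi / w₁ * l / T) ^ 2 +
        (γ * Real.exp (-u) - l) ^ 2)⁻¹)) ≤
      ENNReal.ofReal (K * (4 * Real.pi) * ((l : ℝ) ^ (2 * σ - 1) * ((T / l) ^ (2 * n + 1) *
        F l (Real.pi / w₁ * l / T)))) := by
    intro l hl
    rw [Finset.mem_Icc] at hl
    have hl0 : (0 : ℝ) < l := by exact_mod_cast hl.1
    set δl : ℝ := Real.pi / w₁ * l / T with hδl
    have hδl0 : 0 < δl := by positivity
    have har : 0 ≤ arg n σ T (Real.pi / w₁) F l := by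
      have := hF0 l δl hδl0
      unfold arg
      rw [← hδl]
      positivity
    rw [lintegral_const_mul' _ _ ENNReal.ofReal_ne_top]
    have h1 := lint_cv hγ0 l (fun t => ENNReal.ofReal ((δl ^ 2 + t ^ 2)⁻¹))
    rw [lint_cauchy hδl0, ← ENNReal.ofReal_mul (by positivity)] at h1
    calc _ ≤ ENNReal.ofReal (K * arg n σ T (Real.pi / w₁) F l) *
          ENNReal.ofReal (1 / γ * (Real.pi / δl)) := by gcongr
      _ = ENNReal.ofReal (K * arg n σ T (Real.pi / w₁) F l * (1 / γ * (Real.pi / δl))) := by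
          rw [← ENNReal.ofReal_mul (by positivity)]
      _ ≤ _ := by
          apply ENNReal.ofReal_le_ofReal
          have h2 : 1 / γ ≤ 4 * Real.pi / w₁ := by
            rw [div_le_div_iff₀ hγ0 hw₁]
            rw [div_le_iff₀ (by positivity)] at hγ2
            linarith
          have h3 : Real.pi / δl = w₁ * (T / l) := by
            rw [hδl]; field_simp
          have h4 : 1 / γ * (Real.pi / δl) ≤ 4 * Real.pi * (T / l) := by
            rw [h3]
            calc 1 / γ * (w₁ * (T / l)) ≤ 4 * Real.pi / w₁ * (w₁ * (T / l)) := by gcongr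
              _ = _ := by field_simp
          calc _ ≤ K * arg n σ T (Real.pi / w₁) F l * (4 * Real.pi * (T / l)) := by gcongr
            _ = _ := by
                unfold arg
                rw [← hδl, pow_succ]
                ring
  have hnn : ∀ l ∈ Finset.Icc 1 L, 0 ≤ K * (4 * Real.pi) * ((l : ℝ) ^ (2 * σ - 1) *
      ((T / l) ^ (2 * n + 1) *
        F l (Real.pi / w₁ * l / T))) := fun l hl => by
    have hl0 : (0 : ℝ) < l := by
      rw [Finset.mem_Icc] at hl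
      exact_mod_cast hl.1
    have := hF0 l (Real.pi / w₁ * l / T) (by positivity)
    positivity
  calc _ ≤ ∑ l ∈ Finset.Icc 1 L, ENNReal.ofReal (K * (4 * Real.pi) * ((l : ℝ) ^ (2 * σ - 1) *
        ((T / l) ^ (2 * n + 1) *
        F l (Real.pi / w₁ * l / T)))) := Finset.sum_le_sum hterm
    _ = ENNReal.ofReal (∑ l ∈ Finset.Icc 1 L, K * (4 * Real.pi) * ((l : ℝ) ^ (2 * σ - 1) *
        ((T / l) ^ (2 * n + 1) *
        F l (Real.pi / w₁ * l / T)))) :=
        (ENNReal.ofReal_sum_of_nonneg hnn).symm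
    _ ≤ _ := by
        apply ENNReal.ofReal_le_ofReal
        rw [← Finset.mul_sum, mul_assoc (K * (4 * Real.pi))]
        gcongr
        exact h T L hT hL

/-- the square integral of the kernel on the rotated ray -/
theorem JJ_upper_gen (hr : 1 ≤ r) (ha : 0 < a) (hw : ∀ j, 0 < w j) (n : ℕ)
    {F : Fin r → ℕ → ℝ → ℝ} (hF0 : ∀ j l δ, 0 < δ → 0 ≤ F j l δ) {B : Fin r → ℝ}
    (hB : ∀ j, 0 ≤ B j)
    (hQ : ∀ (x T : ℝ) (j₁ : Fin r), 1 ≤ T → 0 < x → x ≤ T →
      (∀ j, nd (w j₁ * (x * Real.cos (1 / T) / (2 * Real.pi))) ≤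
        nd (w j * (x * Real.cos (1 / T) / (2 * Real.pi)))) →
      ∃ Q : ℝ, 0 ≤ Q ∧ ∏ j, qf w x (1 / T) j ≤ qf w x (1 / T) j₁ ^ (n + 1) * Q ∧
        ∀ l : ℕ, 1 ≤ l → (round (w j₁ * (x * Real.cos (1 / T) / (2 * Real.pi))) : ℝ) = l →
          Real.pi / w j₁ * l / T ≤ x * (1 / T) → Q ≤ B j₁ * F j₁ l (Real.pi / w j₁ * l / T))
    {σ Λ : ℝ} (hσ : 1 / 2 ≤ σ) (hΛ : 0 ≤ Λ)
    (hsum : ∀ (j : Fin r) (C₁ : ℝ), 0 < C₁ → ∃ C : ℝ, 0 ≤ C ∧ ∀ (T : ℝ) (L : ℕ), 1 ≤ T →
      (L : ℝ) ≤ C₁ * T → ∑ l ∈ Finset.Icc 1 L, (l : ℝ) ^ (2 * σ - 1) * ((T / l) ^ (2 * n + 1) *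
        F j l (Real.pi / w j * l / T)) ≤ C * T ^ (2 * σ + Λ)) (U : ℝ) :
    ∃ C : ℝ, 0 ≤ C ∧ ∀ T : ℝ, 1 ≤ T →
      JJ a w σ U (1 / T) ≤ ENNReal.ofReal (C * T ^ (2 * σ + Λ)) := by
  classical
  have hpi := Real.pi_pos
  have hσ0 : 0 < σ := by linarith
  obtain ⟨Cf, hCf, hfar⟩ := far ha hw hσ0
  obtain ⟨CK, hCK, hKK⟩ := KK_sq_le ha hw
  obtain ⟨j₀, -, hj₀⟩ := Finset.exists_min_image (Finset.univ : Finset (Fin r)) w
    ⟨⟨0, by omega⟩, Finset.mem_univ _⟩
  set m : ℝ := w j₀ with hm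
  have hm0 : 0 < m := hw j₀
  set c₅ : ℝ := m / (4 * Real.pi) * Real.exp (-U) with hc₅
  have hc₅0 : 0 < c₅ := by positivity
  set K₀ : ℝ := CK * ((c₅ ^ 2)⁻¹) ^ r with hK₀
  have hK₀0 : 0 ≤ K₀ := by positivity
  obtain ⟨Cn, hCn, hnear⟩ := near_const hσ0 hK₀0
  set W : ℝ := ∑ j, w j with hW
  have hWj : ∀ j, w j ≤ W := fun j =>
    Finset.single_le_sum (f := w) (fun j _ => (hw j).le) (Finset.mem_univ j)
  have hW0 : 0 < W := lt_of_lt_of_le hm0 (hWj j₀)
  have hkp : ∀ j, 0 ≤ kpg n σ (w j) (B j) := by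
    intro j
    have h1 := hw j
    have h2 := hB j
    unfold kpg
    positivity
  have hp : ∀ p : Fin r, ∃ C : ℝ, 0 ≤ C ∧ ∀ (T : ℝ) (L : ℕ), 1 ≤ T →
      (L : ℝ) ≤ (W + 1) * T →
      ∑ l ∈ Finset.Icc 1 L, ∫⁻ u : ℝ, ENNReal.ofReal (CK * kpg n σ (w p) (B p) *
        arg n σ T (Real.pi / w p) (F p) l) *
        (ENNReal.ofReal (Real.exp (-u)) * ENNReal.ofReal (((Real.pi / w p * l / T) ^ 2 +
        (w p * Real.cos (1 / T) / (2 * Real.pi) * Real.exp (-u) - l) ^ 2)⁻¹)) ≤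
        ENNReal.ofReal (C * T ^ (2 * σ + Λ)) := by
    intro p
    exact pair_int_gen (σ := σ) (hw p) n (hF0 p) (hsum p (W + 1) (by linarith))
      (CK * kpg n σ (w p) (B p)) (mul_nonneg hCK.le (hkp _))
  choose Cp hCp0 hCp using hp
  set S : Finset (Fin r) := Finset.univ with hS
  refine ⟨Cf + (Cn + ∑ p ∈ S, Cp p), by
    have : 0 ≤ ∑ p ∈ S, Cp p := Finset.sum_nonneg fun p _ => hCp0 p
    positivity, fun T hT => ?_⟩
  have hT0 : 0 < T := by linarith
  have hη0 : 0 < 1 / T := by positivity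
  have hη1 : 1 / T ≤ 1 := by rw [div_le_one hT0]; exact hT
  have hcos1 : 1 / 2 ≤ Real.cos (1 / T) := by
    have := Real.one_sub_sq_div_two_le_cos (x := 1 / T)
    nlinarith
  set L : ℕ := ⌊(W + 1) * T⌋₊ with hL
  have hLle : (L : ℝ) ≤ (W + 1) * T := Nat.floor_le (by positivity)
  set Fk : ℝ → ENNReal := fun u => ‖KK a w (cexp (-(u : ℂ) + ((Real.pi / 2 - 1 / T : ℝ) : ℂ) * I))‖ₑ ^ 2 *
      ENNReal.ofReal (Real.exp (-(2 * σ) * u)) with hFk
  set hpl : Fin r → ℕ → ℝ → ENNReal := fun p l u =>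
    ENNReal.ofReal (CK * kpg n σ (w p) (B p) *
        arg n σ T (Real.pi / w p) (F p) l) *
        (ENNReal.ofReal (Real.exp (-u)) * ENNReal.ofReal (((Real.pi / w p * l / T) ^ 2 +
        (w p * Real.cos (1 / T) / (2 * Real.pi) * Real.exp (-u) - l) ^ 2)⁻¹)) with hhpl
  have hmeas : ∀ p l, Measurable (hpl p l) := by
    intro p l
    simp only [hhpl]
    fun_prop
  have hpt : ∀ u ∈ Icc (-Real.log T) U, Fk u ≤ ENNReal.ofReal (K₀ * Real.exp (-(2 * σ) * u)) +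
      ∑ p ∈ S, ∑ l ∈ Finset.Icc 1 L, hpl p l u := by
    intro u hu
    set x := Real.exp (-u) with hx
    have hx0 : 0 < x := Real.exp_pos _
    have hxT : x ≤ T := by
      calc x ≤ Real.exp (Real.log T) := by
            apply Real.exp_le_exp.2
            linarith [hu.1]
        _ = T := Real.exp_log hT0
    have hxU : Real.exp (-U) ≤ x := Real.exp_le_exp.2 (by linarith [hu.2])
    have hxs : Real.exp (-(2 * σ) * u) = x ^ (2 * σ) := by
      rw [hx, ← Real.exp_mul]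
      congr 1; ring
    have hFu : Fk u = ENNReal.ofReal (‖KK a w (zx x (1 / T))‖ ^ 2 * x ^ (2 * σ)) := by
      simp only [hFk]
      rw [ray_eq, ← ofReal_norm, ← ENNReal.ofReal_pow (norm_nonneg _),
        ← ENNReal.ofReal_mul (by positivity), hxs]
    have hxη : x * (1 / T) ≤ 1 := by rw [mul_one_div, div_le_one hT0]; exact hxT
    have h1 := hKK x (1 / T) hx0 hη0 hη1 hxη
    obtain ⟨j₁, -, h4'⟩ := Finset.exists_min_image (Finset.univ : Finset (Fin r))
      (fun j => nd (w j * (x * Real.cos (1 / T) / (2 * Real.pi)))) ⟨⟨0, hr⟩, Finset.mem_univ _⟩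
    have h4 : ∀ j, nd (w j₁ * (x * Real.cos (1 / T) / (2 * Real.pi))) ≤
        nd (w j * (x * Real.cos (1 / T) / (2 * Real.pi))) := fun j => h4' j (Finset.mem_univ _)
    obtain ⟨Q, hQ0, h5, hQ1⟩ := hQ x T j₁ hT hx0 hxT h4
    have hxs0 : 0 ≤ x ^ (2 * σ) := by positivity
    rcases le_or_gt (round (w j₁ * (x * Real.cos (1 / T) / (2 * Real.pi)))) 0 with h6 | h6
    · -- near zero
      refine le_trans ?_ le_self_add
      rw [hFu, hxs]
      apply ENNReal.ofReal_le_ofReal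
      have h7 : ∀ j, c₅ ≤ nd (w j * (x * Real.cos (1 / T) / (2 * Real.pi))) := by
        intro j
        refine le_trans ?_ (h4 j)
        have h8 : w j₁ * (x * Real.cos (1 / T) / (2 * Real.pi)) ≤
            nd (w j₁ * (x * Real.cos (1 / T) / (2 * Real.pi))) := by
          unfold nd
          have h9 : (round (w j₁ * (x * Real.cos (1 / T) / (2 * Real.pi))) : ℝ) ≤ 0 := by
            exact_mod_cast h6
          refine le_trans ?_ (le_abs_self _)
          linarith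
        refine le_trans ?_ h8
        have h10 : m ≤ w j₁ := hj₀ j₁ (Finset.mem_univ _)
        have hwj1 := (hw j₁).le
        have h11 : m * (Real.exp (-U) * (1 / 2) / (2 * Real.pi)) ≤
            w j₁ * (x * Real.cos (1 / T) / (2 * Real.pi)) := by gcongr
        refine le_trans (le_of_eq ?_) h11
        rw [hc₅]; ring
      have h8 : ∏ j, qf w x (1 / T) j ≤ ((c₅ ^ 2)⁻¹) ^ r := by
        calc ∏ j, qf w x (1 / T) j ≤ ∏ _j : Fin r, (c₅ ^ 2)⁻¹ := by
              refine Finset.prod_le_prod (fun j _ => (qf_pos hx0 hη0 j).le) fun j _ => ?_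
              unfold qf
              apply inv_anti₀ (by positivity)
              have := pow_le_pow_left₀ hc₅0.le (h7 j) 2
              nlinarith [sq_nonneg (x * (1 / T))]
          _ = _ := by rw [Finset.prod_const, Finset.card_univ, Fintype.card_fin]
      calc ‖KK a w (zx x (1 / T))‖ ^ 2 * x ^ (2 * σ) ≤ (CK * ((c₅ ^ 2)⁻¹) ^ r) * x ^ (2 * σ) := by
            gcongr
            exact h1.trans (by gcongr)
        _ = _ := rfl
    · -- a pair
      obtain ⟨l, hl1, hl2, hl3⟩ := pair_main_gen (hw j₁) hσ hT hx0 hxT n hQ0 hQ1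
        (q₁ := qf w x (1 / T) j₁) rfl h6
      have hpS : j₁ ∈ S := Finset.mem_univ _
      have hlL : l ∈ Finset.Icc 1 L := by
        rw [Finset.mem_Icc]
        refine ⟨hl1, Nat.le_floor (hl2.trans ?_)⟩
        have := hWj j₁
        gcongr
      have hsing : hpl j₁ l u ≤ ∑ p ∈ S, ∑ l ∈ Finset.Icc 1 L, hpl p l u :=
        (Finset.single_le_sum (f := fun l => hpl j₁ l u) (fun _ _ => bot_le) hlL).trans
          (Finset.single_le_sum (f := fun p => ∑ l ∈ Finset.Icc 1 L, hpl p l u) (fun _ _ => bot_le) hpS)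
      refine le_trans ?_ (hsing.trans le_add_self)
      have har : 0 ≤ arg n σ T (Real.pi / w j₁) (F j₁) l := by
        have := hw j₁
        have hl0 : (0 : ℝ) < l := by exact_mod_cast hl1
        have := hF0 j₁ l (Real.pi / w j₁ * l / T) (by positivity)
        unfold arg
        positivity
      have e1 : hpl j₁ l u = ENNReal.ofReal (CK * kpg n σ (w j₁) (B j₁) *
          arg n σ T (Real.pi / w j₁) (F j₁) l * (x * ((Real.pi / w j₁ * l / T) ^ 2 +
          (w j₁ * Real.cos (1 / T) / (2 * Real.pi) * x - l) ^ 2)⁻¹)) := by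
        simp only [hhpl]
        rw [← ENNReal.ofReal_mul (Real.exp_pos _).le, ← ENNReal.ofReal_mul (by
          exact mul_nonneg (mul_nonneg hCK.le (hkp _)) har)]
      rw [hFu, e1]
      apply ENNReal.ofReal_le_ofReal
      have h7 : ‖KK a w (zx x (1 / T))‖ ^ 2 ≤ CK * (qf w x (1 / T) j₁ ^ (n + 1) * Q) :=
        h1.trans (by gcongr)
      calc ‖KK a w (zx x (1 / T))‖ ^ 2 * x ^ (2 * σ)
          ≤ CK * (qf w x (1 / T) j₁ ^ (n + 1) * Q) * x ^ (2 * σ) := by gcongr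
        _ = CK * (qf w x (1 / T) j₁ ^ (n + 1) * Q * x ^ (2 * σ)) := by ring
        _ ≤ CK * (kpg n σ (w j₁) (B j₁) * (arg n σ T (Real.pi / w j₁) (F j₁) l *
            (x * ((Real.pi / w j₁ * l / T) ^ 2 +
            (w j₁ * Real.cos (1 / T) / (2 * Real.pi) * x - l) ^ 2)⁻¹))) := by
            refine mul_le_mul_of_nonneg_left ?_ hCK.le
            unfold kpg
            exact hl3
        _ = _ := by ring
  have hcov : Iic U ⊆ Iic (-Real.log T) ∪ Icc (-Real.log T) U := by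
    intro u hu
    rcases le_total u (-Real.log T) with h | h
    · exact Or.inl h
    · exact Or.inr ⟨h, hu⟩
  have hTT : T ^ (2 * σ) ≤ T ^ (2 * σ + Λ) := Real.rpow_le_rpow_of_exponent_le hT (by linarith)
  have hnearI : ∫⁻ u in Icc (-Real.log T) U, Fk u ≤
      ENNReal.ofReal ((Cn + ∑ p ∈ S, Cp p) * T ^ (2 * σ + Λ)) := by
    calc _ ≤ ∫⁻ u in Icc (-Real.log T) U, (ENNReal.ofReal (K₀ * Real.exp (-(2 * σ) * u)) +
          ∑ p ∈ S, ∑ l ∈ Finset.Icc 1 L, hpl p l u) := setLIntegral_mono' measurableSet_Icc hpt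
      _ = (∫⁻ u in Icc (-Real.log T) U, ENNReal.ofReal (K₀ * Real.exp (-(2 * σ) * u))) +
          ∑ p ∈ S, ∑ l ∈ Finset.Icc 1 L, ∫⁻ u in Icc (-Real.log T) U, hpl p l u := by
          rw [lintegral_add_left (by fun_prop), lintegral_finsetSum _ (fun p _ =>
            Finset.measurable_sum _ fun l _ => hmeas p l)]
          congr 1
          refine Finset.sum_congr rfl fun p _ => ?_
          rw [lintegral_finsetSum _ (fun l _ => hmeas p l)]
      _ ≤ ENNReal.ofReal (Cn * T ^ (2 * σ + Λ)) + ∑ p ∈ S, ENNReal.ofReal (Cp p * T ^ (2 * σ + Λ)) := by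
          refine add_le_add ?_ (Finset.sum_le_sum fun p hpS => ?_)
          · refine ((lintegral_mono_set Set.Icc_subset_Ici_self).trans (hnear T hT)).trans ?_
            apply ENNReal.ofReal_le_ofReal
            gcongr
          · refine le_trans (Finset.sum_le_sum fun l _ => ?_) (hCp p T L hT hLle)
            exact setLIntegral_le_lintegral _ _
      _ = _ := by
          rw [← ENNReal.ofReal_sum_of_nonneg (fun p _ => by
            have := hCp0 p
            positivity), ← ENNReal.ofReal_add (by positivity) (Finset.sum_nonneg fun p _ => by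
            have := hCp0 p
            positivity), ← Finset.sum_mul]
          congr 1
          ring
  unfold JJ
  calc _ ≤ ∫⁻ u in Iic (-Real.log T) ∪ Icc (-Real.log T) U, Fk u := lintegral_mono_set hcov
    _ ≤ (∫⁻ u in Iic (-Real.log T), Fk u) + ∫⁻ u in Icc (-Real.log T) U, Fk u :=
        lintegral_union_le _ _ _
    _ ≤ ENNReal.ofReal (Cf * T ^ (2 * σ + Λ)) +
        ENNReal.ofReal ((Cn + ∑ p ∈ S, Cp p) * T ^ (2 * σ + Λ)) := by
        refine add_le_add ((hfar T hT).trans ?_) hnearI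
        apply ENNReal.ofReal_le_ofReal
        gcongr
    _ = _ := by
        have : 0 ≤ ∑ p ∈ S, Cp p := Finset.sum_nonneg fun p _ => hCp0 p
        rw [← ENNReal.ofReal_add (by positivity) (by positivity)]
        congr 1
        ring

end Pool.Agent.K6.H31.BR
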