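import Pool.Agent.Y616.BM.Zone
import Pool.Agent.K6.H31.BR.Sum

set_option autoImplicit false

/-!
# Pointwise upper bounds for the Barnes kernel on a rotated ray
-/

namespace Pool.Agent.K6.H31.BR

open Finset Filter Topology MeasureTheory Complex Set
open Pool.Agent.H131R5.BZ Pool.Agent.Y930.Bz Pool.Agent.Y616.BM

lemma nd_le_nd_add (x y : ℝ) : nd x ≤ nd y + |x - y| := by
  refine (nd_le x (round y)).trans ?_
  unfold nd
  have h : x - round y = (y - round y) + (x - y) := by ring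
  rw [h]
  exact abs_add_le _ _

lemma sin_pi_ge (y : ℝ) : 2 * nd y ≤ |Real.sin (Real.pi * y)| := by
  have h1 : |Real.sin (Real.pi * y)| = |Real.sin (Real.pi * (y - round y))| := by
    have h2 : Real.pi * (y - round y) = Real.pi * y - (round y) * Real.pi := by ring
    rw [h2, Real.sin_sub_int_mul_pi, abs_mul, abs_zpow, abs_neg, abs_one, one_zpow, one_mul]
  rw [h1]
  have h3 : |Real.pi * (y - round y)| ≤ Real.pi / 2 := by
    rw [abs_mul, abs_of_pos Real.pi_pos]
    have := abs_sub_round y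
    have hp := Real.pi_pos
    nlinarith
  have h4 := Real.mul_abs_le_abs_sin h3
  refine le_trans (le_of_eq ?_) h4
  rw [abs_mul, abs_of_pos Real.pi_pos]
  unfold nd
  field_simp

/-- lower bound for the factors of the kernel -/
lemma exp_low {v : ℂ} {M : ℝ} (h0 : 0 ≤ v.re) (hM : v.re ≤ M) :
    Real.exp (-(2 * M)) * (v.re ^ 2 + nd (v.im / (2 * Real.pi)) ^ 2) ≤ ‖1 - cexp (-v)‖ ^ 2 := by
  have h1 : ‖1 - cexp (-v)‖ ^ 2 = (1 - Real.exp (-v.re)) ^ 2 +
      4 * Real.exp (-v.re) * Real.sin (v.im / 2) ^ 2 := by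
    rw [← Complex.normSq_eq_norm_sq, Complex.normSq_apply]
    simp only [sub_re, one_re, sub_im, one_im, Complex.exp_re, Complex.exp_im, neg_re, neg_im,
      Real.cos_neg, Real.sin_neg]
    have h2 : Real.cos v.im = 1 - 2 * Real.sin (v.im / 2) ^ 2 := by
      have := Real.cos_two_mul (v.im / 2)
      have h3 : 2 * (v.im / 2) = v.im := by ring
      rw [h3] at this
      rw [this, Real.cos_sq']
      ring
    have h4 := Real.sin_sq_add_cos_sq v.im
    have e : (1 - Real.exp (-v.re) * Real.cos v.im) * (1 - Real.exp (-v.re) * Real.cos v.im) +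
      (0 - Real.exp (-v.re) * -Real.sin v.im) * (0 - Real.exp (-v.re) * -Real.sin v.im) =
      1 - 2 * Real.exp (-v.re) * Real.cos v.im +
        Real.exp (-v.re) ^ 2 * (Real.sin v.im ^ 2 + Real.cos v.im ^ 2) := by ring
    rw [e, h4, h2]
    ring
  rw [h1]
  set A := v.re with hA
  have hE : Real.exp (-M) ≤ Real.exp (-A) := Real.exp_le_exp.2 (by linarith)
  have hE0 : 0 < Real.exp (-M) := Real.exp_pos _
  have hE1 : Real.exp (-M) ≤ 1 := by rw [Real.exp_le_one_iff]; linarith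
  have hEE : Real.exp (-(2 * M)) = Real.exp (-M) ^ 2 := by
    rw [← Real.exp_nat_mul]; congr 1; push_cast; ring
  have h2 : Real.exp (-A) * A ≤ 1 - Real.exp (-A) := by
    have h3 := Real.add_one_le_exp A
    have h4 : Real.exp (-A) * Real.exp A = 1 := by rw [← Real.exp_add]; simp
    nlinarith [Real.exp_pos (-A)]
  have h3 : Real.exp (-(2 * M)) * A ^ 2 ≤ (1 - Real.exp (-A)) ^ 2 := by
    rw [hEE, ← mul_pow]
    refine pow_le_pow_left₀ (by positivity) (le_trans ?_ h2) 2
    gcongr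
  have h4 := sin_pi_ge (v.im / (2 * Real.pi))
  have h5 : Real.pi * (v.im / (2 * Real.pi)) = v.im / 2 := by
    have := Real.pi_ne_zero
    field_simp
  rw [h5] at h4
  have h6 : 4 * nd (v.im / (2 * Real.pi)) ^ 2 ≤ Real.sin (v.im / 2) ^ 2 := by
    rw [← sq_abs (Real.sin (v.im / 2))]
    have := pow_le_pow_left₀ (mul_nonneg (by norm_num) (nd_nonneg _)) h4 2
    nlinarith
  have h7 : Real.exp (-(2 * M)) * nd (v.im / (2 * Real.pi)) ^ 2 ≤
      4 * Real.exp (-A) * Real.sin (v.im / 2) ^ 2 := by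
    rw [hEE]
    have h8 : Real.exp (-M) ^ 2 ≤ Real.exp (-A) := by nlinarith
    have h9 : 0 ≤ nd (v.im / (2 * Real.pi)) ^ 2 := sq_nonneg _
    have h10 : 0 < Real.exp (-A) := Real.exp_pos _
    nlinarith [mul_le_mul_of_nonneg_right h8 h9, mul_nonneg h10.le h9,
      mul_le_mul_of_nonneg_left h6 h10.le]
  linarith

/-- the point of the rotated ray -/
noncomputable def zx (x η : ℝ) : ℂ := (x : ℂ) * cexp (((Real.pi / 2 - η : ℝ) : ℂ) * I)

lemma zx_re (x η : ℝ) : (zx x η).re = x * Real.sin η := by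
  unfold zx
  rw [re_ofReal_mul, Complex.exp_ofReal_mul_I_re, Real.cos_pi_div_two_sub]

lemma zx_im (x η : ℝ) : (zx x η).im = x * Real.cos η := by
  unfold zx
  rw [im_ofReal_mul, Complex.exp_ofReal_mul_I_im, Real.sin_pi_div_two_sub]

variable {r : ℕ} {a : ℝ} {w : Fin r → ℝ}

/-- the factors of the majorant -/
noncomputable def qf (w : Fin r → ℝ) (x η : ℝ) (j : Fin r) : ℝ :=
  ((x * η) ^ 2 + nd (w j * (x * Real.cos η / (2 * Real.pi))) ^ 2)⁻¹

/-- the pointwise bound -/
lemma KK_sq_le (ha : 0 < a) (hw : ∀ j, 0 < w j) : ∃ C : ℝ, 0 < C ∧ ∀ x η : ℝ, 0 < x → 0 < η →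
    η ≤ 1 → x * η ≤ 1 → ‖KK a w (zx x η)‖ ^ 2 ≤ C * ∏ j, qf w x η j := by
  set cf : Fin r → ℝ := fun j => Real.exp (-(2 * w j)) * min (w j ^ 2 / 4) 1 with hcf
  have hcf0 : ∀ j, 0 < cf j := by
    intro j
    have := hw j
    exact mul_pos (Real.exp_pos _) (lt_min (by positivity) one_pos)
  refine ⟨∏ j, (cf j)⁻¹, Finset.prod_pos fun j _ => inv_pos.2 (hcf0 j),
    fun x η hx hη hη1 hxη => ?_⟩
  have hs1 : η / 2 ≤ Real.sin η := sin_ge hη.le hη1
  have hs2 : Real.sin η ≤ η := Real.sin_le hη.le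
  have hs0 : 0 < Real.sin η := by linarith
  unfold KK
  rw [norm_mul, mul_pow, norm_prod, ← Finset.prod_pow, ← Finset.prod_mul_distrib]
  have h1 : ‖cexp (-(a : ℂ) * zx x η)‖ ^ 2 ≤ 1 := by
    rw [Complex.norm_exp]
    have h2 : (-(a : ℂ) * zx x η).re = -a * (zx x η).re := by simp
    rw [h2, zx_re]
    have h3 : Real.exp (-a * (x * Real.sin η)) ≤ 1 := by
      rw [Real.exp_le_one_iff]
      have : 0 < a * (x * Real.sin η) := by positivity
      linarith
    exact pow_le_one₀ (Real.exp_pos _).le h3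
  have h2 : ∏ j, ‖(1 - cexp (-(w j : ℂ) * zx x η))⁻¹‖ ^ 2 ≤ ∏ j, (cf j)⁻¹ * qf w x η j := by
    refine Finset.prod_le_prod (fun j _ => by positivity) fun j _ => ?_
    have hwj := hw j
    rw [norm_inv, inv_pow]
    unfold qf
    rw [← mul_inv]
    have hre : ((w j : ℂ) * zx x η).re = w j * (x * Real.sin η) := by rw [re_ofReal_mul, zx_re]
    have him : ((w j : ℂ) * zx x η).im = w j * (x * Real.cos η) := by rw [im_ofReal_mul, zx_im]
    have h3 := exp_low (v := (w j : ℂ) * zx x η) (M := w j) (by rw [hre]; positivity) (by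
      rw [hre]
      have : x * Real.sin η ≤ x * η := by gcongr
      nlinarith)
    have e2 : -((w j : ℂ) * zx x η) = -(w j : ℂ) * zx x η := by ring
    rw [hre, him, e2] at h3
    have e1 : w j * (x * Real.cos η) / (2 * Real.pi) = w j * (x * Real.cos η / (2 * Real.pi)) := by
      ring
    rw [e1] at h3
    set N := nd (w j * (x * Real.cos η / (2 * Real.pi))) with hN
    have hpos : 0 < (x * η) ^ 2 + N ^ 2 := by positivity
    refine inv_anti₀ (mul_pos (hcf0 j) hpos) (le_trans ?_ h3)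
    simp only [hcf]
    rw [mul_assoc]
    refine mul_le_mul_of_nonneg_left ?_ (Real.exp_pos _).le
    have h4 : min (w j ^ 2 / 4) 1 * (x * η) ^ 2 ≤ (w j * (x * Real.sin η)) ^ 2 := by
      have h5 : w j * (x * η) / 2 ≤ w j * (x * Real.sin η) := by
        have : x * (η / 2) ≤ x * Real.sin η := by gcongr
        nlinarith
      calc min (w j ^ 2 / 4) 1 * (x * η) ^ 2 ≤ (w j ^ 2 / 4) * (x * η) ^ 2 := by
            gcongr
            exact min_le_left _ _
        _ = (w j * (x * η) / 2) ^ 2 := by ring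
        _ ≤ _ := by gcongr
    have h5 : min (w j ^ 2 / 4) 1 * N ^ 2 ≤ N ^ 2 := by
      have : min (w j ^ 2 / 4) 1 ≤ 1 := min_le_right _ _
      nlinarith [sq_nonneg N]
    rw [mul_add]
    exact add_le_add h4 h5
  have h3 : 0 ≤ ∏ j, ‖(1 - cexp (-(w j : ℂ) * zx x η))⁻¹‖ ^ 2 :=
    Finset.prod_nonneg fun j _ => by positivity
  calc _ ≤ 1 * ∏ j, ‖(1 - cexp (-(w j : ℂ) * zx x η))⁻¹‖ ^ 2 := by gcongr
    _ ≤ _ := by rw [one_mul]; exact h2

lemma qf_pos {x η : ℝ} (hx : 0 < x) (hη : 0 < η) (j : Fin r) : 0 < qf w x η j := by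
  unfold qf
  positivity

/-- the dominating pair of factors: the smallest and the largest distance -/
lemma minmax_bound {x η : ℝ} (hx : 0 < x) (hη : 0 < η) (hr : 1 ≤ r) :
    ∃ j₁ j₂, (∀ j, nd (w j₁ * (x * Real.cos η / (2 * Real.pi))) ≤
        nd (w j * (x * Real.cos η / (2 * Real.pi)))) ∧
      (∀ j, nd (w j * (x * Real.cos η / (2 * Real.pi))) ≤
        nd (w j₂ * (x * Real.cos η / (2 * Real.pi)))) ∧
      ∏ j, qf w x η j ≤ qf w x η j₁ ^ (r - 1) * qf w x η j₂ := by
  have hne : (Finset.univ : Finset (Fin r)).Nonempty := ⟨⟨0, hr⟩, Finset.mem_univ _⟩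
  obtain ⟨j₁, -, hj₁⟩ := Finset.exists_min_image Finset.univ
    (fun j => nd (w j * (x * Real.cos η / (2 * Real.pi)))) hne
  obtain ⟨j₂, -, hj₂⟩ := Finset.exists_max_image Finset.univ
    (fun j => nd (w j * (x * Real.cos η / (2 * Real.pi)))) hne
  refine ⟨j₁, j₂, fun j => hj₁ j (Finset.mem_univ _), fun j => hj₂ j (Finset.mem_univ _), ?_⟩
  have hle : ∀ j, qf w x η j ≤ qf w x η j₁ := by
    intro j
    unfold qf
    apply inv_anti₀ (by positivity)
    have := hj₁ j (Finset.mem_univ _)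
    have h0 := nd_nonneg (w j₁ * (x * Real.cos η / (2 * Real.pi)))
    gcongr
  rw [← Finset.prod_erase_mul _ _ (Finset.mem_univ j₂)]
  refine mul_le_mul_of_nonneg_right ?_ (qf_pos hx hη _).le
  calc ∏ j ∈ Finset.univ.erase j₂, qf w x η j ≤ ∏ _j ∈ Finset.univ.erase j₂, qf w x η j₁ :=
        Finset.prod_le_prod (fun j _ => (qf_pos hx hη j).le) fun j _ => hle j
    _ = _ := by
        rw [Finset.prod_const, Finset.card_erase_of_mem (Finset.mem_univ _), Finset.card_univ,
          Fintype.card_fin]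

end Pool.Agent.K6.H31.BR
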