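import Pool.Agent.K6.H31.BR.Dir
import Pool.Agent.Results.MP_047497_nt.AlmostAllWeights

/-!
# Large moments of the Barnes multiple zeta-function for resonant weights and for all weights
-/

set_option autoImplicit false

open Filter Topology Asymptotics MeasureTheory

namespace Pool.Agent.K6.H31.BR

open Pool.Agent.Results.MP_047497_nt.AlmostAllWeights (IsBarnesZeta weightDim moment exists_zeta)

theorem large_of_resonant {r : ℕ} {w : Fin r → ℝ} (hw : ∀ i, 0 < w i) {a : ℝ} (ha : 0 < a)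
    {Z : ℂ → ℂ} (hZ : IsBarnesZeta r a w Z) {k : ℕ} (hk : 1 ≤ k) {σ η τ : ℝ} (hσ : 0 < σ)
    (hτ : 0 < τ) (hres : Resonant w τ) (h1 : 1 < τ * (2 * r - 1 - 2 * σ))
    (hη : η < k * (τ * (2 * r - 1 - 2 * σ) - 1) / (1 + τ)) :
    ¬ (fun T : ℝ => moment Z k σ T) =O[atTop] fun T : ℝ => T ^ (1 + η) := by
  have hr : 1 ≤ r := by
    rcases Nat.eq_zero_or_pos r with h | h
    · subst h
      push_cast at h1
      nlinarith
    · exact h
  rw [lt_div_iff₀ (by linarith)] at hη
  exact not_moment hr ha hw (fun s hs => hZ.holomorphic s hs)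
    (fun s hs => hZ.series s hs) hk hσ hτ hres h1 hη

theorem resonant_of_dim {r : ℕ} {w : Fin r → ℝ} (hr : 1 ≤ r) (hw : ∀ i, 0 < w i) {τ : ℝ}
    (hτ : 0 < τ) (hd : τ * ((weightDim r w : ℝ) - 1) < 1) : Resonant w τ :=
  resonant_dim hr hw hτ hd

theorem large_all {r : ℕ} (hr : 1 ≤ r) {w : Fin r → ℝ} (hw : ∀ i, 0 < w i) {a : ℝ} (ha : 0 < a)
    {Z : ℂ → ℂ} (hZ : IsBarnesZeta r a w Z) {k : ℕ} (hk : 1 ≤ k) {σ η : ℝ} (hσ : 0 < σ)
    (hσr : σ < r - (weightDim r w : ℝ) / 2)
    (hη : η < 2 * k / weightDim r w * (r - (weightDim r w : ℝ) / 2 - σ)) :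
    ¬ (fun T : ℝ => moment Z k σ T) =O[atTop] fun T : ℝ => T ^ (1 + η) := by
  have hd0 : weightDim r w ≠ 0 := dim_ne_zero hr hw
  have hd : (1 : ℝ) ≤ weightDim r w := by exact_mod_cast Nat.one_le_iff_ne_zero.2 hd0
  have hk0 : (1 : ℝ) ≤ k := by exact_mod_cast hk
  set d : ℝ := (weightDim r w : ℝ) with hdd
  obtain ⟨X, hX⟩ : ∃ X : ℝ, X = 2 * r - 1 - 2 * σ := ⟨_, rfl⟩
  have hXg : d - 1 < X := by rw [hX]; linarith
  have hX0 : 0 < X := by linarith
  have hη2 : η * d < k * (X - (d - 1)) := by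
    have h2 : 2 * k / d * (r - d / 2 - σ) = k * (X - (d - 1)) / d := by
      rw [hX]; field_simp; ring
    rw [h2, lt_div_iff₀ (by linarith)] at hη
    exact hη
  have hY : 0 < k * X - η := by
    rcases le_total η 0 with h | h
    · nlinarith [mul_pos (show (0 : ℝ) < k by linarith) hX0]
    · nlinarith
  have hM1 : 1 / X * (d - 1) < 1 := by rw [one_div_mul_eq_div, div_lt_one hX0]; exact hXg
  have hM2 : (k + η) / (k * X - η) * (d - 1) < 1 := by
    rw [div_mul_eq_mul_div, div_lt_one hY]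
    nlinarith
  set M : ℝ := max (1 / X) ((k + η) / (k * X - η)) with hM
  have hM3 : M * (d - 1) < 1 := by
    rcases le_total (1 / X) ((k + η) / (k * X - η)) with h | h
    · rw [hM, max_eq_right h]; exact hM2
    · rw [hM, max_eq_left h]; exact hM1
  have hM0 : 0 < M := lt_of_lt_of_le (by positivity) (le_max_left _ _)
  have hd1 : 0 ≤ d - 1 := by linarith
  set e : ℝ := (1 - M * (d - 1)) / (2 * d) with he
  have he0 : 0 < e := by
    rw [he]
    apply div_pos
    · linarith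
    · linarith
  have hed : e * (d - 1) ≤ (1 - M * (d - 1)) / 2 := by
    rw [he, div_mul_eq_mul_div, div_le_div_iff₀ (by linarith) (by norm_num)]
    have : 0 ≤ 1 - M * (d - 1) := by linarith
    nlinarith
  have hτ1 : (M + e) * (d - 1) < 1 := by nlinarith
  have hX1 : 1 < (M + e) * X := by
    have h2 : 1 / X ≤ M := le_max_left _ _
    rw [div_le_iff₀ hX0] at h2
    nlinarith
  have hk1 : k + η < (M + e) * (k * X - η) := by
    have h2 : (k + η) / (k * X - η) ≤ M := le_max_right _ _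
    rw [div_le_iff₀ hY] at h2
    nlinarith
  refine large_of_resonant hw ha hZ hk hσ (by linarith) (resonant_of_dim hr hw (by linarith) hτ1)
    (by rw [← hX]; exact hX1) ?_
  rw [← hX, lt_div_iff₀ (by linarith)]
  nlinarith

end Pool.Agent.K6.H31.BR
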