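import Mathlib

set_option autoImplicit false

/-!
# Mean square bounds from bounds for higher moments
-/

namespace Pool.Agent.K6.H31.BR

open Finset Filter Topology MeasureTheory Set Asymptotics

lemma le_add_pow {x l : ℝ} (hx : 0 ≤ x) (hl : 0 < l) {k : ℕ} (hk : 1 ≤ k) :
    x ≤ l + x ^ k * (l ^ (k - 1))⁻¹ := by
  rcases le_total x l with h | h
  · have : 0 ≤ x ^ k * (l ^ (k - 1))⁻¹ := by positivity
    linarith
  · have h1 : l ^ (k - 1) ≤ x ^ (k - 1) := pow_le_pow_left₀ hl.le h _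
    have h2 : x * l ^ (k - 1) ≤ x ^ k := by
      calc x * l ^ (k - 1) ≤ x * x ^ (k - 1) := by gcongr
        _ = x ^ k := by rw [← pow_succ']; congr 1; omega
    have h3 : x ≤ x ^ k * (l ^ (k - 1))⁻¹ := by
      rw [← div_eq_mul_inv, le_div_iff₀ (by positivity)]
      exact h2
    linarith

/-- mean square bounds from moment bounds -/
lemma ms_of_moment {F : ℝ → ℂ} (hF : ContinuousOn F (Ici 1)) {k : ℕ} (hk : 1 ≤ k) {η : ℝ}
    (hη : 0 ≤ η)
    (hO : (fun T : ℝ => ∫ t in (1 : ℝ)..T, ‖F t‖ ^ (2 * k)) =O[atTop] fun T : ℝ => T ^ (1 + η)) :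
    ∃ A : ℝ, 0 ≤ A ∧ ∀ X : ℝ, 1 ≤ X →
      ∫⁻ t in Icc 1 X, ‖F t‖ₑ ^ 2 ≤ ENNReal.ofReal (A * X ^ (1 + η / k)) := by
  obtain ⟨C, hC⟩ := hO.bound
  obtain ⟨T0, hT0⟩ := eventually_atTop.1 hC
  set T1 := max T0 1 with hT1
  have hT11 : (1 : ℝ) ≤ T1 := le_max_right _ _
  have hk0 : (0 : ℝ) < k := by exact_mod_cast hk
  have hcont : ∀ n : ℕ, ContinuousOn (fun t : ℝ => ‖F t‖ ^ n) (Ici 1) := fun n => hF.norm.pow n
  have hint : ∀ (n : ℕ) (x y : ℝ), 1 ≤ x → x ≤ y →
      IntervalIntegrable (fun t : ℝ => ‖F t‖ ^ n) volume x y := by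
    intro n x y hx hxy
    apply ContinuousOn.intervalIntegrable
    rw [Set.uIcc_of_le hxy]
    exact (hcont n).mono (fun t ht => hx.trans ht.1)
  have hC0 : 0 ≤ |C| := abs_nonneg C
  have h1 : ∀ X : ℝ, 1 ≤ X → ∫ t in (1 : ℝ)..X, ‖F t‖ ^ (2 * k) ≤
      |C| * T1 ^ (1 + η) * X ^ (1 + η) := by
    intro X hX
    have hX0 : 0 < X := by linarith
    set Y := max X T1 with hY
    have hXY : X ≤ Y := le_max_left _ _
    have hY1 : 1 ≤ Y := hX.trans hXY
    have h2 : ∫ t in (1 : ℝ)..X, ‖F t‖ ^ (2 * k) ≤ ∫ t in (1 : ℝ)..Y, ‖F t‖ ^ (2 * k) := by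
      rw [← intervalIntegral.integral_add_adjacent_intervals (hint (2 * k) 1 X le_rfl hX)
        (hint (2 * k) X Y hX hXY)]
      have : 0 ≤ ∫ t in X..Y, ‖F t‖ ^ (2 * k) :=
        intervalIntegral.integral_nonneg hXY (fun t _ => by positivity)
      linarith
    have h3 := hT0 Y ((le_max_left T0 1).trans (le_max_right X T1))
    have hY0 : 0 < Y := by linarith
    rw [Real.norm_eq_abs, Real.norm_eq_abs, abs_of_nonneg (Real.rpow_nonneg hY0.le _)] at h3
    have h4 : Y ≤ T1 * X := by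
      rw [hY]
      refine max_le ?_ ?_
      · nlinarith
      · nlinarith
    calc _ ≤ ∫ t in (1 : ℝ)..Y, ‖F t‖ ^ (2 * k) := h2
      _ ≤ |∫ t in (1 : ℝ)..Y, ‖F t‖ ^ (2 * k)| := le_abs_self _
      _ ≤ C * Y ^ (1 + η) := h3
      _ ≤ |C| * (T1 * X) ^ (1 + η) := by
          have h5 : Y ^ (1 + η) ≤ (T1 * X) ^ (1 + η) := Real.rpow_le_rpow hY0.le h4 (by linarith)
          have h6 : 0 ≤ Y ^ (1 + η) := Real.rpow_nonneg hY0.le _
          calc C * Y ^ (1 + η) ≤ |C| * Y ^ (1 + η) := by gcongr; exact le_abs_self C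
            _ ≤ _ := by gcongr
      _ = _ := by rw [Real.mul_rpow (by linarith) hX0.le]; ring
  set A₁ := |C| * T1 ^ (1 + η) with hA₁
  have hA₁0 : 0 ≤ A₁ := by positivity
  refine ⟨1 + A₁, by positivity, fun X hX => ?_⟩
  have hX0 : 0 < X := by linarith
  set l : ℝ := X ^ (η / k) with hl
  have hl0 : 0 < l := by positivity
  have h5 : ∫ t in (1 : ℝ)..X, ‖F t‖ ^ 2 ≤ (1 + A₁) * X ^ (1 + η / k) := by
    calc ∫ t in (1 : ℝ)..X, ‖F t‖ ^ 2
        ≤ ∫ t in (1 : ℝ)..X, (l + (l ^ (k - 1))⁻¹ * ‖F t‖ ^ (2 * k)) := by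
          apply intervalIntegral.integral_mono_on hX (hint 2 1 X le_rfl hX)
            ((intervalIntegrable_const).add ((hint (2 * k) 1 X le_rfl hX).const_mul _))
          intro t _
          have h6 := le_add_pow (x := ‖F t‖ ^ 2) (by positivity) hl0 hk
          rw [← pow_mul] at h6
          linarith
      _ = l * (X - 1) + (l ^ (k - 1))⁻¹ * ∫ t in (1 : ℝ)..X, ‖F t‖ ^ (2 * k) := by
          rw [intervalIntegral.integral_add intervalIntegrable_const
            ((hint (2 * k) 1 X le_rfl hX).const_mul _), intervalIntegral.integral_const,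
            intervalIntegral.integral_const_mul, smul_eq_mul]
          ring
      _ ≤ l * X + (l ^ (k - 1))⁻¹ * (A₁ * X ^ (1 + η)) := by
          gcongr
          · linarith
          · exact h1 X hX
      _ = _ := by
          have e1 : l * X = X ^ (1 + η / k) := by
            rw [hl, ← Real.rpow_add_one hX0.ne']
            congr 1; ring
          have e2 : (l ^ (k - 1))⁻¹ * X ^ (1 + η) = X ^ (1 + η / k) := by
            rw [hl, ← Real.rpow_natCast, ← Real.rpow_mul hX0.le, ← Real.rpow_neg hX0.le,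
              ← Real.rpow_add hX0]
            congr 1
            rw [Nat.cast_sub hk]
            field_simp
            push_cast
            ring
          calc _ = X ^ (1 + η / k) + A₁ * ((l ^ (k - 1))⁻¹ * X ^ (1 + η)) := by rw [← e1]; ring
            _ = _ := by rw [e2]; ring
  have h6 : ∫⁻ t in Icc 1 X, ‖F t‖ₑ ^ 2 = ENNReal.ofReal (∫ t in (1 : ℝ)..X, ‖F t‖ ^ 2) := by
    rw [intervalIntegral.integral_of_le hX, ← integral_Icc_eq_integral_Ioc,
      ofReal_integral_eq_lintegral_ofReal]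
    · refine lintegral_congr fun t => ?_
      rw [← ofReal_norm, ENNReal.ofReal_pow (norm_nonneg _)]
    · have := (hint 2 1 X le_rfl hX)
      rw [intervalIntegrable_iff_integrableOn_Icc_of_le hX] at this
      exact this
    · exact ae_of_all _ fun t => by positivity
  rw [h6]
  exact ENNReal.ofReal_le_ofReal h5

end Pool.Agent.K6.H31.BR
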