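import Pool.Agent.K6.H31.BR.Large
import Pool.Agent.K6.H31.BR.Main

/-!
# The exact order of the mean square of the Barnes multiple zeta-function
-/

set_option autoImplicit false

open Filter Topology Asymptotics MeasureTheory

namespace Pool.Agent.K6.H31.BR

open Pool.Agent.Results.MP_047497_nt.AlmostAllWeights (IsBarnesZeta weightDim moment exists_zeta)

/-- passage from the bound for the explicit continuation to the moment -/
theorem moment_bound {r : ℕ} {w : Fin r → ℝ} (hw : ∀ i, 0 < w i) {a : ℝ} (ha : 0 < a)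
    {Z : ℂ → ℂ} (hZ : IsBarnesZeta r a w Z) {σ E : ℝ}
    (h : ∀ c : ℕ → ℂ, Pool.Agent.Y930.Bz.Tay a w c →
      ∃ C : ℝ, 0 ≤ C ∧ ∀ T : ℝ, 1 ≤ T → ∫⁻ t in Set.Icc 1 T,
        ‖Pool.Agent.H131R5.BZ.FF a w c ((σ : ℂ) + t * Complex.I)‖ₑ ^ 2 ≤
        ENNReal.ofReal (C * T ^ E)) :
    (fun T : ℝ => moment Z 1 σ T) =O[atTop] fun T : ℝ => T ^ E := by
  obtain ⟨c, hc⟩ := Pool.Agent.H131R5.BZ.exists_taylor a hw
  obtain ⟨C, hC, hb⟩ := h c hc
  have hZF : ∀ t : ℝ, 1 ≤ t → Z ((σ : ℂ) + t * Complex.I) =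
      Pool.Agent.H131R5.BZ.FF a w c ((σ : ℂ) + t * Complex.I) := by
    intro t ht
    have hE := Pool.Agent.Y930.Bz.eq_FF ha hw hc (fun s hs => hZ.holomorphic s hs)
      (fun s hs => hZ.series s hs)
    have hm : ((σ : ℂ) + t * Complex.I) ∈ Pool.Agent.Y930.Bz.Om r := by
      intro k _ _ h
      have := congrArg Complex.im h
      simp at this
      linarith
    exact hE _ hm
  refine IsBigO.of_bound C (eventually_atTop.2 ⟨1, fun T hT => ?_⟩)
  have h1 : ‖moment Z 1 σ T‖ ≤ (∫⁻ t in Set.Icc 1 T,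
      ‖Pool.Agent.H131R5.BZ.FF a w c ((σ : ℂ) + t * Complex.I)‖ₑ ^ 2).toReal := by
    unfold moment
    rw [intervalIntegral.integral_of_le hT]
    refine (norm_integral_le_lintegral_norm _).trans ?_
    apply ENNReal.toReal_mono
    · exact ne_top_of_le_ne_top ENNReal.ofReal_ne_top (hb T hT)
    · refine (lintegral_mono_set Set.Ioc_subset_Icc_self).trans ?_
      refine setLIntegral_mono' measurableSet_Icc fun t ht => ?_
      rw [← hZF t ht.1, mul_one, norm_pow, norm_norm, ENNReal.ofReal_pow (norm_nonneg _),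
        ofReal_norm]
  have h2 : (∫⁻ t in Set.Icc 1 T,
      ‖Pool.Agent.H131R5.BZ.FF a w c ((σ : ℂ) + t * Complex.I)‖ₑ ^ 2).toReal ≤
      C * T ^ E := by
    refine ENNReal.toReal_le_of_le_ofReal (by positivity) (hb T hT)
  rw [Real.norm_of_nonneg (show 0 ≤ T ^ E by positivity)]
  exact h1.trans h2

/-- the exact order of the mean square -/
theorem exponent_iff {r : ℕ} {w : Fin r → ℝ} (hr : 2 ≤ r) (hw : ∀ i, 0 < w i) {a : ℝ} (ha : 0 < a)
    {Z : ℂ → ℂ} (hZ : IsBarnesZeta r a w Z) {σ E : ℝ} (hσ : 1 / 2 ≤ σ) (hE : 1 ≤ E)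
    (hEσ : 2 * (r - 1 - σ) ≤ E) :
    (∀ ε : ℝ, 0 < ε → (fun T : ℝ => moment Z 1 σ T) =O[atTop] fun T : ℝ => T ^ (E + ε)) ↔
      ∀ κ : ℝ, 0 < κ → Resonant w κ → 2 * (r - σ) * κ / (1 + κ) ≤ E := by
  constructor
  · intro h κ hκ hres
    by_contra hcon
    push Not at hcon
    rw [lt_div_iff₀ (by linarith)] at hcon
    have h1 : 1 < κ * (2 * r - 1 - 2 * σ) := by nlinarith
    obtain ⟨Y, hY⟩ : ∃ Y : ℝ, Y = (1 : ℕ) * (κ * (2 * r - 1 - 2 * σ) - 1) / (1 + κ) := ⟨_, rfl⟩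
    have h2 : E - 1 < Y := by
      rw [hY, lt_div_iff₀ (by linarith)]
      push_cast
      nlinarith
    have h3 := large_of_resonant hw ha hZ (k := 1) (η := (E - 1 + Y) / 2) le_rfl
      (show 0 < σ by linarith) hκ hres h1 (by rw [← hY]; linarith)
    apply h3
    have h4 := h ((Y - (E - 1)) / 2) (by linarith)
    have e1 : E + (Y - (E - 1)) / 2 = 1 + (E - 1 + Y) / 2 := by ring
    rwa [e1] at h4
  · intro h ε hε
    refine moment_bound hw ha hZ fun c hc => ?_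
    refine bound_gen hw hr hσ hE hEσ (fun κ hκ h1 hres => ?_) ha hc hε
    have h2 := h κ hκ hres
    rw [div_le_iff₀ (by linarith)] at h2
    linarith

end Pool.Agent.K6.H31.BR
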