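import Pool.Agent.Y616.BM.Zone

set_option autoImplicit false

/-!
# Barnes zeta functions: the kernel near a resonance of the weights
-/

namespace Pool.Agent.K6.H31.BR

open Finset Filter Topology MeasureTheory Complex Set
open Pool.Agent.H131R5.BZ Pool.Agent.Y930.Bz Pool.Agent.Y616.BM

variable {r : ℕ} {a : ℝ} {w : Fin r → ℝ}

lemma one_sub_exp_upper {v : ℂ} {n : ℤ} {x : ℝ} (hx : x ≤ 1)
    (h : ‖v - (2 * Real.pi * n : ℝ) * I‖ ≤ x) : ‖1 - cexp (-v)‖ ≤ 2 * x := by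
  have h1 : cexp (-v) = cexp (-(v - (2 * Real.pi * n : ℝ) * I)) := by
    rw [Complex.exp_eq_exp_iff_exists_int]
    refine ⟨-n, ?_⟩
    push_cast
    ring
  rw [h1, ← norm_neg, neg_sub]
  have h2 : ‖-(v - (2 * Real.pi * n : ℝ) * I)‖ ≤ x := by rwa [norm_neg]
  refine (Complex.norm_exp_sub_one_le (h2.trans hx)).trans ?_
  linarith

/-- the distance of `w_j z` from a multiple of `2 π i` on the rotated ray -/
lemma dist_ray {wj u₀ ρ x : ℝ} (hwj : 0 < wj) (hu : 1 ≤ u₀) (hρ : 0 < ρ) (hρ1 : ρ ≤ 1) {n : ℤ}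
    (hn : |u₀ * wj - 2 * Real.pi * n| ≤ ρ) (hx1 : u₀ ≤ x) (hx2 : x ≤ u₀ + ρ) {z : ℂ}
    (hre : z.re = x * Real.sin (ρ / u₀)) (him : z.im = x * Real.cos (ρ / u₀)) :
    ‖(wj : ℂ) * z - (2 * Real.pi * n : ℝ) * I‖ ≤ (1 + 4 * wj) * ρ := by
  have hu0 : 0 < u₀ := by linarith
  have hx0 : 0 < x := by linarith
  have hη0 : 0 < ρ / u₀ := by positivity
  have hη1 : ρ / u₀ ≤ 1 := by rw [div_le_one hu0]; linarith
  have hxη : x * (ρ / u₀) ≤ 2 * ρ := by
    rw [mul_div_assoc', div_le_iff₀ hu0]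
    nlinarith
  have h1 := Complex.norm_le_abs_re_add_abs_im ((wj : ℂ) * z - (2 * Real.pi * n : ℝ) * I)
  have e1 : ((wj : ℂ) * z - (2 * Real.pi * n : ℝ) * I).re = wj * z.re := by simp
  have e2 : ((wj : ℂ) * z - (2 * Real.pi * n : ℝ) * I).im = wj * z.im - 2 * Real.pi * n := by
    simp
  rw [e1, e2, hre, him] at h1
  have hs0 : 0 < Real.sin (ρ / u₀) := Real.sin_pos_of_pos_of_lt_pi hη0 (by linarith [Real.pi_gt_three])
  have h2 : |wj * (x * Real.sin (ρ / u₀))| ≤ 2 * wj * ρ := by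
    rw [abs_of_nonneg (by positivity)]
    have h3 : Real.sin (ρ / u₀) ≤ ρ / u₀ := Real.sin_le hη0.le
    calc wj * (x * Real.sin (ρ / u₀)) ≤ wj * (x * (ρ / u₀)) := by gcongr
      _ ≤ wj * (2 * ρ) := by gcongr
      _ = _ := by ring
  have h3 : |wj * (x * Real.cos (ρ / u₀)) - 2 * Real.pi * n| ≤ ρ + 2 * wj * ρ := by
    have hc1 : Real.cos (ρ / u₀) ≤ 1 := Real.cos_le_one _
    have hc2 := Real.one_sub_sq_div_two_le_cos (x := ρ / u₀)
    have h4 : x * (1 - Real.cos (ρ / u₀)) ≤ ρ := by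
      have h5 : 1 - Real.cos (ρ / u₀) ≤ (ρ / u₀) ^ 2 / 2 := by linarith
      calc x * (1 - Real.cos (ρ / u₀)) ≤ x * ((ρ / u₀) ^ 2 / 2) := by gcongr
        _ = x * (ρ / u₀) * (ρ / u₀) / 2 := by ring
        _ ≤ 2 * ρ * 1 / 2 := by gcongr
        _ = ρ := by ring
    have h5 : 0 ≤ x * (1 - Real.cos (ρ / u₀)) := mul_nonneg hx0.le (by linarith)
    obtain ⟨h6, h7⟩ := abs_le.1 hn
    rw [abs_le]
    constructor
    · nlinarith [mul_nonneg hwj.le h5, mul_le_mul_of_nonneg_left h4 hwj.le]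
    · nlinarith [mul_nonneg hwj.le h5, mul_le_mul_of_nonneg_left h4 hwj.le]
  linarith

/-- the square integral of the regularised kernel is large at a resonance -/
theorem res_lower (hr : 1 ≤ r) (ha : 0 < a) (hw : ∀ j, 0 < w j) (b : ℕ → ℂ) {σ : ℝ} (hσ : 0 < σ) :
    ∃ c ρ₀ : ℝ, 0 < c ∧ 0 < ρ₀ ∧ ρ₀ ≤ 1 ∧ ∀ u₀ ρ : ℝ, 1 ≤ u₀ → 0 < ρ → ρ ≤ ρ₀ →
      (∀ j, ∃ n : ℤ, |u₀ * w j - 2 * Real.pi * n| ≤ ρ) →
      ENNReal.ofReal (c * (u₀ ^ (2 * σ - 1) * (ρ * (ρ ^ (2 * r))⁻¹))) ≤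
        ∫⁻ u, ‖kth a w b σ (Real.pi / 2 - 1 / (u₀ / ρ)) u‖ₑ ^ 2 := by
  obtain ⟨C, hC, hP⟩ := Pol_le r b one_pos
  set L : ℝ := 1 + 4 * ∑ j, w j with hL
  have hL1 : 1 ≤ L := by
    have : 0 ≤ ∑ j, w j := Finset.sum_nonneg fun j _ => (hw j).le
    linarith
  have hL0 : 0 < L := by linarith
  set c₁ : ℝ := Real.exp (-(2 * a)) * ((2 * L) ^ r)⁻¹ / 2 with hc₁
  have hc₁0 : 0 < c₁ := by positivity
  set ρ₀ : ℝ := min (1 / L) (c₁ / (C + 1)) with hρ₀
  have hρ₀0 : 0 < ρ₀ := by rw [hρ₀]; exact lt_min (by positivity) (by positivity)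
  have hρ₀L : ρ₀ ≤ 1 / L := min_le_left _ _
  have hρ₀1 : ρ₀ ≤ 1 := hρ₀L.trans (by rw [div_le_one hL0]; exact hL1)
  refine ⟨c₁ ^ 2 / 2, ρ₀, by positivity, hρ₀0, hρ₀1, fun u₀ ρ hu hρ hρρ hres => ?_⟩
  have hu0 : 0 < u₀ := by linarith
  have hρ1 : ρ ≤ 1 := hρρ.trans hρ₀1
  have hη : 1 / (u₀ / ρ) = ρ / u₀ := by rw [one_div, inv_div]
  rw [hη]
  have hη0 : 0 < ρ / u₀ := by positivity
  have hη1 : ρ / u₀ ≤ 1 := by rw [div_le_one hu0]; linarith
  set A : ℝ := -Real.log (u₀ + ρ) with hA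
  set B : ℝ := -Real.log u₀ with hB
  have hpt : ∀ u ∈ Icc A B, ENNReal.ofReal (u₀ ^ (2 * σ) * (c₁ ^ 2 * (ρ ^ (2 * r))⁻¹)) ≤
      ‖kth a w b σ (Real.pi / 2 - ρ / u₀) u‖ₑ ^ 2 := by
    intro u hu'
    set x : ℝ := Real.exp (-u) with hx
    have hx1 : u₀ ≤ x := by
      have := hu'.2
      rw [hB] at this
      calc u₀ = Real.exp (Real.log u₀) := (Real.exp_log hu0).symm
        _ ≤ Real.exp (-u) := Real.exp_le_exp.2 (by linarith)
    have hx2 : x ≤ u₀ + ρ := by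
      have := hu'.1
      rw [hA] at this
      calc Real.exp (-u) ≤ Real.exp (Real.log (u₀ + ρ)) := Real.exp_le_exp.2 (by linarith)
        _ = u₀ + ρ := Real.exp_log (by positivity)
    have hx0 : 0 < x := by linarith
    set z : ℂ := cexp (-(u : ℂ) + ((Real.pi / 2 - ρ / u₀ : ℝ) : ℂ) * I) with hz
    have hre : z.re = x * Real.sin (ρ / u₀) := by
      rw [hz, Pool.Agent.Y616.BM.exp_re, Real.cos_pi_div_two_sub]
    have him : z.im = x * Real.cos (ρ / u₀) := by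
      rw [hz, Complex.exp_im]
      simp only [add_re, neg_re, ofReal_re, mul_re, I_re, mul_zero, ofReal_im, I_im, mul_one,
        sub_self, add_zero, add_im, neg_im, neg_zero, mul_im, zero_add]
      rw [Real.sin_pi_div_two_sub]
    have hs0 : 0 < Real.sin (ρ / u₀) :=
      Real.sin_pos_of_pos_of_lt_pi hη0 (by linarith [Real.pi_gt_three])
    have hre0 : 0 < z.re := by rw [hre]; positivity
    have hre2 : z.re ≤ 2 := by
      rw [hre]
      have h3 : Real.sin (ρ / u₀) ≤ ρ / u₀ := Real.sin_le hη0.le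
      calc x * Real.sin (ρ / u₀) ≤ (u₀ + ρ) * (ρ / u₀) := by gcongr
        _ = ρ + ρ * (ρ / u₀) := by field_simp
        _ ≤ 1 + 1 * 1 := by gcongr
        _ = 2 := by norm_num
    have hzn : ‖z‖ = x := exp_norm u _
    have hfac : ∀ j, ‖1 - cexp (-(w j : ℂ) * z)‖ ≤ 2 * L * ρ := by
      intro j
      obtain ⟨n, hn⟩ := hres j
      have h1 := dist_ray (hw j) hu hρ hρ1 hn hx1 hx2 hre him
      have h2 : (1 + 4 * w j) * ρ ≤ L * ρ := by
        have h3 : w j ≤ ∑ j, w j := Finset.single_le_sum (f := w) (fun j _ => (hw j).le)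
          (Finset.mem_univ j)
        refine mul_le_mul_of_nonneg_right ?_ hρ.le
        rw [hL]
        linarith
      have h3 : L * ρ ≤ 1 := by
        calc L * ρ ≤ L * (1 / L) := by gcongr; exact hρρ.trans hρ₀L
          _ = 1 := by field_simp
      have h4 := one_sub_exp_upper h3 (h1.trans h2)
      rw [neg_mul]
      linarith
    have hpos : ∀ j, 0 < ‖1 - cexp (-(w j : ℂ) * z)‖ := by
      intro j
      have h1 := one_sub_exp_le (hw j) hre0
      have h2 := one_sub_exp_pos' (hw j) hre0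
      linarith
    have hKK : Real.exp (-(2 * a)) * ((2 * L * ρ) ^ r)⁻¹ ≤ ‖KK a w z‖ := by
      unfold KK
      rw [norm_mul, Complex.norm_exp, norm_prod]
      have h1 : (-(a : ℂ) * z).re = -a * z.re := by simp
      rw [h1]
      refine mul_le_mul ?_ ?_ (by positivity) (Real.exp_pos _).le
      · apply Real.exp_le_exp.2
        nlinarith
      · calc ((2 * L * ρ) ^ r)⁻¹ = ∏ _j : Fin r, (2 * L * ρ)⁻¹ := by
              rw [Finset.prod_const, Finset.card_univ, Fintype.card_fin, inv_pow]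
          _ ≤ _ := by
            refine Finset.prod_le_prod (fun j _ => by positivity) fun j _ => ?_
            rw [norm_inv]
            exact inv_anti₀ (hpos j) (hfac j)
    have hPol : ‖Pol r b z‖ ≤ C := by
      have h1 := hP z (by rw [hzn]; linarith)
      refine h1.trans ?_
      have : Real.exp (-z.re) ≤ 1 := by rw [Real.exp_le_one_iff]; linarith
      nlinarith
    have hρr : ρ ^ r ≤ ρ := by
      calc ρ ^ r ≤ ρ ^ 1 := pow_le_pow_of_le_one hρ.le hρ1 hr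
        _ = ρ := pow_one ρ
    have hCc : C ≤ c₁ * (ρ ^ r)⁻¹ := by
      rw [← div_eq_mul_inv, le_div_iff₀ (by positivity)]
      have h1 : ρ ≤ c₁ / (C + 1) := hρρ.trans (min_le_right _ _)
      rw [le_div_iff₀ (by positivity)] at h1
      nlinarith
    have hKt : c₁ * (ρ ^ r)⁻¹ ≤ ‖Kt a w b z‖ := by
      have h1 : ‖KK a w z‖ - ‖Pol r b z‖ ≤ ‖Kt a w b z‖ := norm_sub_norm_le _ _
      have h2 : Real.exp (-(2 * a)) * ((2 * L * ρ) ^ r)⁻¹ = 2 * (c₁ * (ρ ^ r)⁻¹) := by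
        rw [hc₁, mul_pow (2 * L) ρ, mul_inv]
        ring
      rw [h2] at hKK
      linarith
    have hk : c₁ * (ρ ^ r)⁻¹ * u₀ ^ σ ≤ ‖kth a w b σ (Real.pi / 2 - ρ / u₀) u‖ := by
      unfold kth
      rw [norm_smul, Real.norm_of_nonneg (Real.exp_pos _).le]
      have h1 : u₀ ^ σ ≤ Real.exp (-σ * u) := by
        have h2 : Real.exp (-σ * u) = x ^ σ := by
          rw [hx, ← Real.exp_mul]
          congr 1; ring
        rw [h2]
        exact Real.rpow_le_rpow hu0.le hx1 hσ.le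
      calc c₁ * (ρ ^ r)⁻¹ * u₀ ^ σ ≤ ‖Kt a w b z‖ * Real.exp (-σ * u) := by gcongr
        _ = _ := mul_comm _ _
    rw [← ofReal_norm, ← ENNReal.ofReal_pow (norm_nonneg _)]
    apply ENNReal.ofReal_le_ofReal
    calc _ = (c₁ * (ρ ^ r)⁻¹ * u₀ ^ σ) ^ 2 := by
          have e1 : u₀ ^ (2 * σ) = (u₀ ^ σ) ^ 2 := by
            rw [← Real.rpow_natCast, ← Real.rpow_mul hu0.le]
            congr 1
            push_cast; ring
          rw [e1, mul_pow, mul_pow, inv_pow, ← pow_mul, mul_comm 2 r]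
          ring
      _ ≤ _ := pow_le_pow_left₀ (by positivity) hk 2
  have hlen : ρ / (2 * u₀) ≤ B - A := by
    have h1 : B - A = Real.log ((u₀ + ρ) / u₀) := by
      rw [Real.log_div (by positivity) hu0.ne', hA, hB]; ring
    rw [h1]
    refine le_trans ?_ (Real.one_sub_inv_le_log_of_pos (by positivity))
    rw [inv_div, one_sub_div (by positivity)]
    have : u₀ + ρ - u₀ = ρ := by ring
    rw [this]
    apply div_le_div_of_nonneg_left hρ.le (by positivity)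
    linarith
  calc _ ≤ ENNReal.ofReal ((u₀ ^ (2 * σ) * (c₁ ^ 2 * (ρ ^ (2 * r))⁻¹)) * (B - A)) := by
        apply ENNReal.ofReal_le_ofReal
        have e1 : u₀ ^ (2 * σ) = u₀ ^ (2 * σ - 1) * u₀ := by
          rw [← Real.rpow_add_one hu0.ne']
          congr 1; ring
        calc _ = (u₀ ^ (2 * σ) * (c₁ ^ 2 * (ρ ^ (2 * r))⁻¹)) * (ρ / (2 * u₀)) := by
              rw [e1]; field_simp
          _ ≤ _ := by gcongr
    _ = ENNReal.ofReal (u₀ ^ (2 * σ) * (c₁ ^ 2 * (ρ ^ (2 * r))⁻¹)) * volume (Icc A B) := by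
        rw [Real.volume_Icc, ENNReal.ofReal_mul (by positivity)]
    _ = ∫⁻ u in Icc A B, ENNReal.ofReal (u₀ ^ (2 * σ) * (c₁ ^ 2 * (ρ ^ (2 * r))⁻¹)) := by
        rw [setLIntegral_const]
    _ ≤ ∫⁻ u in Icc A B, ‖kth a w b σ (Real.pi / 2 - ρ / u₀) u‖ₑ ^ 2 :=
        setLIntegral_mono' measurableSet_Icc hpt
    _ ≤ _ := setLIntegral_le_lintegral _ _

end Pool.Agent.K6.H31.BR
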