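import Pool.Agent.K6.H31.BR.Rev
import Pool.Agent.K6.H31.BR.Dyad
import Pool.Agent.K6.H31.BR.Res
import Pool.Agent.K6.H31.BR.Mom

set_option autoImplicit false

/-!
# Barnes zeta functions: moments are large if the weights are resonant
-/

namespace Pool.Agent.K6.H31.BR

open Finset Filter Topology MeasureTheory Complex Set Asymptotics
open Pool.Agent.H131R5.BZ Pool.Agent.Y930.Bz Pool.Agent.Y616.BM

variable {r : ℕ} {a : ℝ} {w : Fin r → ℝ} {c : ℕ → ℂ}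

/-- there are arbitrarily large `u` for which all `u w_j` have distance at most `u ^ (-τ)` from integers -/
def Resonant (w : Fin r → ℝ) (τ : ℝ) : Prop :=
  ∃ᶠ u : ℝ in atTop, ∀ j, ∃ n : ℤ, |u * w j - n| ≤ u ^ (-τ)

lemma mem_Om' {s : ℂ} (hs : 1 ≤ s.im) : s ∈ Om r := by
  intro k _ _ h
  have := congrArg Complex.im h
  simp at this
  linarith

/-- the basic inequality -/
theorem core (hr : 1 ≤ r) (ha : 0 < a) (hw : ∀ j, 0 < w j) (hc : Tay a w c) {σ η A : ℝ}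
    (hσ : 0 < σ) (hη : 0 ≤ η) (hA : 0 ≤ A)
    (hms : ∀ X : ℝ, 1 ≤ X → ∫⁻ t in Icc 1 X, ‖FF a w c ((σ : ℂ) + t * I)‖ₑ ^ 2 ≤
      ENNReal.ofReal (A * X ^ (1 + η))) :
    ∃ C ρ₀ : ℝ, 0 ≤ C ∧ 0 < ρ₀ ∧ ρ₀ ≤ 1 ∧ ∀ u₀ ρ : ℝ, 1 ≤ u₀ → 0 < ρ → ρ ≤ ρ₀ →
      (∀ j, ∃ n : ℤ, |u₀ * w j - 2 * Real.pi * n| ≤ ρ) →
      u₀ ^ (2 * σ - 1) * (ρ * (ρ ^ (2 * r))⁻¹) ≤ C * (u₀ / ρ) ^ (2 * σ + η) := by
  obtain ⟨b, ρ, C₀, hρ, hρ1, hC₀, h0⟩ := exists_near a hw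
  obtain ⟨C₁, hC₁, h1⟩ := rev ha hw hρ hρ1 h0 hσ
  obtain ⟨c₁, ρ₀, hc₁, hρ₀, hρ₀1, h2⟩ := res_lower (σ := σ) hr ha hw b hσ
  set B := ∑ k ∈ range r, ‖b k‖ with hB
  have hB0 : 0 ≤ B := by positivity
  obtain ⟨C₂, hC₂, h3⟩ := weighted (A := 2 * A + 2 * B ^ 2) (σ := σ) (η := η) (by positivity) hη hσ
  have hMG : ∀ X : ℝ, 1 ≤ X → ∫⁻ t in Icc 1 X, ‖MG a w b ((σ : ℂ) + t * I)‖ₑ ^ 2 ≤
      ENNReal.ofReal ((2 * A + 2 * B ^ 2) * X ^ (1 + η)) := by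
    intro X hX
    have hX0 : 0 < X := by linarith
    have hpt : ∀ t ∈ Icc 1 X, ‖MG a w b ((σ : ℂ) + t * I)‖ₑ ^ 2 ≤
        2 * ‖FF a w c ((σ : ℂ) + t * I)‖ₑ ^ 2 + ENNReal.ofReal (2 * B ^ 2) := by
      intro t ht
      have ht1 : 1 ≤ t := ht.1
      have e1 : MG a w b ((σ : ℂ) + t * I) = FF a w c ((σ : ℂ) + t * I) - Rt r b ((σ : ℂ) + t * I) := by
        rw [FF_formula ha hw hc hρ hρ1 h0 (s := (σ : ℂ) + t * I) (by simpa using hσ)
          (by simp; linarith)]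
        unfold MG
        ring
      rw [e1]
      refine (enorm_sub_sq _ _).trans ?_
      gcongr
      have h5 := Rt_le (r := r) b (s := (σ : ℂ) + t * I) (by simpa using ht1)
      rw [ENNReal.ofReal_mul (by norm_num), ENNReal.ofReal_pow hB0]
      have h6 : ‖Rt r b ((σ : ℂ) + t * I)‖ₑ ≤ ENNReal.ofReal B := by
        rw [← ofReal_norm]
        exact ENNReal.ofReal_le_ofReal h5
      have h7 : ENNReal.ofReal 2 = 2 := by simp
      rw [h7]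
      gcongr
    calc _ ≤ ∫⁻ t in Icc 1 X, (2 * ‖FF a w c ((σ : ℂ) + t * I)‖ₑ ^ 2 + ENNReal.ofReal (2 * B ^ 2)) :=
          setLIntegral_mono' measurableSet_Icc hpt
      _ = 2 * (∫⁻ t in Icc 1 X, ‖FF a w c ((σ : ℂ) + t * I)‖ₑ ^ 2) +
          ENNReal.ofReal (2 * B ^ 2) * ENNReal.ofReal (X - 1) := by
          rw [lintegral_add_right _ measurable_const, lintegral_const_mul' _ _ (by simp),
            lintegral_const, Measure.restrict_apply_univ, Real.volume_Icc]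
      _ ≤ 2 * ENNReal.ofReal (A * X ^ (1 + η)) + ENNReal.ofReal (2 * B ^ 2) *
          ENNReal.ofReal (X ^ (1 + η)) := by
          gcongr
          · exact hms X hX
          · have h5 : X ^ (1 : ℝ) ≤ X ^ (1 + η) :=
              Real.rpow_le_rpow_of_exponent_le hX (by linarith)
            rw [Real.rpow_one] at h5
            linarith
      _ = _ := by
          have e2 : ENNReal.ofReal 2 = 2 := by simp
          rw [← e2, ← ENNReal.ofReal_mul (by norm_num), ← ENNReal.ofReal_mul (by positivity),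
            ← ENNReal.ofReal_add (by positivity) (by positivity)]
          congr 1
          ring
  refine ⟨c₁⁻¹ * (C₁ + C₁ * C₂), ρ₀, by positivity, hρ₀, hρ₀1, fun u₀ ρ' hu hρ' hρρ hres => ?_⟩
  have hu0 : 0 < u₀ := by linarith
  have hT : 1 ≤ u₀ / ρ' := by
    rw [le_div_iff₀ hρ']
    linarith
  have h4 := h2 u₀ ρ' hu hρ' hρρ hres
  have h5 := h1 (u₀ / ρ') hT
  have h6 := h3 (fun t => ‖MG a w b ((σ : ℂ) + t * I)‖ₑ ^ 2) hMG (u₀ / ρ') hT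
  have hT0 : 0 < u₀ / ρ' := by positivity
  have h7 : ENNReal.ofReal (c₁ * (u₀ ^ (2 * σ - 1) * (ρ' * (ρ' ^ (2 * r))⁻¹))) ≤
      ENNReal.ofReal (C₁ + C₁ * (C₂ * (u₀ / ρ') ^ (2 * σ + η))) := by
    refine h4.trans (h5.trans ?_)
    rw [ENNReal.ofReal_add hC₁ (by positivity), ENNReal.ofReal_mul hC₁]
    gcongr
  rw [ENNReal.ofReal_le_ofReal_iff (by positivity)] at h7
  have h8 : 1 ≤ (u₀ / ρ') ^ (2 * σ + η) := Real.one_le_rpow hT (by linarith)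
  have h9 : c₁ * (u₀ ^ (2 * σ - 1) * (ρ' * (ρ' ^ (2 * r))⁻¹)) ≤
      (C₁ + C₁ * C₂) * (u₀ / ρ') ^ (2 * σ + η) := by
    refine h7.trans ?_
    nlinarith
  rw [mul_assoc, ← div_eq_inv_mul, le_div_iff₀ hc₁]
  linarith

/-- comparison of powers -/
lemma pow_contra {x y C : ℝ} (hxy : y < x) :
    ¬ ∃ᶠ u : ℝ in atTop, u ^ x ≤ C * u ^ y := by
  intro h
  have h1 : Tendsto (fun u : ℝ => u ^ (x - y)) atTop atTop := tendsto_rpow_atTop (by linarith)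
  have h2 := h1.eventually_gt_atTop C
  obtain ⟨u, ⟨h3, h4⟩, h5⟩ := ((h2.and (eventually_gt_atTop 0)).and_frequently h).exists
  have h6 : 0 < u ^ y := Real.rpow_pos_of_pos h4 _
  have h7 : u ^ x = u ^ (x - y) * u ^ y := by
    rw [← Real.rpow_add h4]
    congr 1; ring
  rw [h7] at h5
  have := le_of_mul_le_mul_right h5 h6
  linarith

/-- a mean square bound is impossible for resonant weights -/
theorem no_ms (hr : 1 ≤ r) (ha : 0 < a) (hw : ∀ j, 0 < w j) (hc : Tay a w c) {σ η A τ : ℝ}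
    (hσ : 0 < σ) (hη : 0 ≤ η) (hA : 0 ≤ A) (hτ : 0 < τ) (hres : Resonant w τ)
    (hex : η * (1 + τ) < τ * (2 * r - 1 - 2 * σ) - 1)
    (hms : ∀ X : ℝ, 1 ≤ X → ∫⁻ t in Icc 1 X, ‖FF a w c ((σ : ℂ) + t * I)‖ₑ ^ 2 ≤
      ENNReal.ofReal (A * X ^ (1 + η))) : False := by
  obtain ⟨C, ρ₀, hC, hρ₀, hρ₀1, h⟩ := core hr ha hw hc hσ hη hA hms
  have hpi := Real.pi_pos
  have hpi3 := Real.pi_gt_three
  set P : ℝ := 2 * Real.pi with hP
  have hP0 : 0 < P := by positivity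
  have ev1 : ∀ᶠ u : ℝ in atTop, P * u ^ (-τ) ≤ ρ₀ := by
    have h1 : Tendsto (fun u : ℝ => P * u ^ (-τ)) atTop (𝓝 (P * 0)) :=
      (tendsto_rpow_neg_atTop hτ).const_mul P
    rw [mul_zero] at h1
    exact h1.eventually_le_const hρ₀
  set D : ℝ := C * (P ^ (2 * σ - 1) * (P * (P ^ (2 * r))⁻¹))⁻¹ with hD
  refine pow_contra (x := (2 * σ - 1) + τ * (2 * r - 1)) (y := (1 + τ) * (2 * σ + η)) (C := D)
    (by nlinarith) ?_
  refine (hres.and_eventually (ev1.and (eventually_ge_atTop (1 : ℝ)))).mono ?_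
  rintro u ⟨h1, h2, h3⟩
  have hu0 : 0 < u := by linarith
  have hut : 0 < u ^ (-τ) := Real.rpow_pos_of_pos hu0 _
  have h4 := h (P * u) (P * u ^ (-τ)) (by nlinarith) (by positivity) h2 (by
    intro j
    obtain ⟨n, hn⟩ := h1 j
    refine ⟨n, ?_⟩
    have e1 : P * u * w j - P * n = P * (u * w j - n) := by ring
    rw [e1, abs_mul, abs_of_pos hP0]
    gcongr)
  have e2 : P * u / (P * u ^ (-τ)) = u ^ (1 + τ) := by
    rw [mul_div_mul_left _ _ hP0.ne', Real.rpow_neg hu0.le, div_inv_eq_mul, Real.rpow_add hu0,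
      Real.rpow_one]
  have e3 : (P * u) ^ (2 * σ - 1) * (P * u ^ (-τ) * ((P * u ^ (-τ)) ^ (2 * r))⁻¹) =
      (P ^ (2 * σ - 1) * (P * (P ^ (2 * r))⁻¹)) * u ^ ((2 * σ - 1) + τ * (2 * r - 1)) := by
    have e4 : u ^ ((2 * σ - 1) + τ * (2 * r - 1)) =
        u ^ (2 * σ - 1) * (u ^ (-τ) * ((u ^ (-τ)) ^ (2 * r))⁻¹) := by
      rw [← Real.rpow_natCast (u ^ (-τ)), ← Real.rpow_mul hu0.le, ← Real.rpow_neg hu0.le,
        ← Real.rpow_add hu0, ← Real.rpow_add hu0]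
      congr 1
      push_cast
      ring
    rw [e4, Real.mul_rpow hP0.le hu0.le, mul_pow, mul_inv]
    ring
  rw [e2, e3, ← Real.rpow_mul hu0.le] at h4
  have hQ : 0 < P ^ (2 * σ - 1) * (P * (P ^ (2 * r))⁻¹) := by positivity
  rw [hD, mul_assoc C, mul_comm _ (u ^ ((1 + τ) * (2 * σ + η))), ← mul_assoc, ← div_eq_mul_inv,
    le_div_iff₀ hQ]
  linarith

/-- moments are large for resonant weights -/
theorem not_moment {Z : ℂ → ℂ} (hr : 1 ≤ r) (ha : 0 < a) (hw : ∀ j, 0 < w j)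
    (hZ : ∀ s ∈ Om r, DifferentiableAt ℂ Z s)
    (hs : ∀ s : ℂ, (r : ℝ) < s.re → Z s = ∑' m : Fin r → ℕ, ((lam a w m : ℝ) : ℂ) ^ (-s))
    {k : ℕ} (hk : 1 ≤ k) {σ η τ : ℝ} (hσ : 0 < σ) (hτ : 0 < τ) (hres : Resonant w τ)
    (h1 : 1 < τ * (2 * r - 1 - 2 * σ)) (hη : η * (1 + τ) < k * (τ * (2 * r - 1 - 2 * σ) - 1)) :
    ¬ (fun T : ℝ => ∫ t in (1 : ℝ)..T, ‖Z ((σ : ℂ) + t * I)‖ ^ (2 * k))
      =O[atTop] fun T : ℝ => T ^ (1 + η) := by
  intro hO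
  obtain ⟨c, hc⟩ := exists_taylor a hw
  have hk0 : (0 : ℝ) < k := by exact_mod_cast hk
  set η' := max η 0 with hη'
  have hη'0 : 0 ≤ η' := le_max_right _ _
  have hη'2 : η' * (1 + τ) < k * (τ * (2 * r - 1 - 2 * σ) - 1) := by
    rcases le_total η 0 with h | h
    · rw [hη', max_eq_right h, zero_mul]
      exact mul_pos hk0 (by linarith)
    · rw [hη', max_eq_left h]
      exact hη
  have hO' : (fun T : ℝ => ∫ t in (1 : ℝ)..T, ‖FF a w c ((σ : ℂ) + (t : ℂ) * I)‖ ^ (2 * k))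
      =O[atTop] fun T : ℝ => T ^ (1 + η') := by
    have h1 : (fun T : ℝ => ∫ t in (1 : ℝ)..T, ‖FF a w c ((σ : ℂ) + (t : ℂ) * I)‖ ^ (2 * k)) =ᶠ[atTop]
        fun T : ℝ => ∫ t in (1 : ℝ)..T, ‖Z ((σ : ℂ) + (t : ℂ) * I)‖ ^ (2 * k) := by
      filter_upwards [eventually_ge_atTop (1 : ℝ)] with T hT
      refine intervalIntegral.integral_congr fun t ht => ?_
      rw [Set.uIcc_of_le hT] at ht
      show ‖FF a w c ((σ : ℂ) + (t : ℂ) * I)‖ ^ (2 * k) = ‖Z ((σ : ℂ) + (t : ℂ) * I)‖ ^ (2 * k)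
      rw [eq_FF ha hw hc hZ hs _ (mem_Om' (by simpa using ht.1))]
    refine (h1.trans_isBigO hO).trans (IsBigO.of_bound 1 ?_)
    filter_upwards [eventually_ge_atTop (1 : ℝ)] with T hT
    have hT0 : 0 ≤ T := by linarith
    rw [one_mul, Real.norm_eq_abs, Real.norm_eq_abs, abs_of_nonneg (Real.rpow_nonneg hT0 _),
      abs_of_nonneg (Real.rpow_nonneg hT0 _)]
    apply Real.rpow_le_rpow_of_exponent_le hT
    have := le_max_left η 0
    linarith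
  have hcont : ContinuousOn (fun t : ℝ => FF a w c ((σ : ℂ) + (t : ℂ) * I)) (Ici 1) := by
    intro t ht
    have h1 : DifferentiableAt ℂ (FF a w c) ((σ : ℂ) + (t : ℂ) * I) :=
      FF_diff ha hw hc (mem_Om' (by simpa using ht))
    exact (ContinuousAt.comp (g := FF a w c) (f := fun t : ℝ => (σ : ℂ) + (t : ℂ) * I)
      h1.continuousAt (by fun_prop)).continuousWithinAt
  obtain ⟨A, hA, hms⟩ := ms_of_moment hcont hk hη'0 hO'
  refine no_ms hr ha hw hc hσ (div_nonneg hη'0 hk0.le) hA hτ hres ?_ hms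
  rw [div_mul_eq_mul_div, div_lt_iff₀ hk0]
  linarith

end Pool.Agent.K6.H31.BR
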