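import Pool.Agent.Y616.BM.Zone

set_option autoImplicit false

/-!
# Barnes zeta functions: a lower bound for the mean square by the kernel on a rotated ray
-/

namespace Pool.Agent.K6.H31.BR

open Finset Filter Topology MeasureTheory Complex Set FourierTransform
open Pool.Agent.H131R5.BZ Pool.Agent.Y930.Bz Pool.Agent.Y616.BM

variable {r : ℕ} {a : ℝ} {w : Fin r → ℝ} {c : ℕ → ℂ}

/-- change of variables in Plancherel's theorem -/
lemma planch_scale {f : ℝ → ℂ} (h1 : Integrable f) (h2 : MemLp f 2) :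
    ∫⁻ t, ‖𝓕 f ((2 * Real.pi)⁻¹ * t)‖ₑ ^ 2 = ENNReal.ofReal (2 * Real.pi) * ∫⁻ u, ‖f u‖ₑ ^ 2 := by
  have hpl := Pool.Agent.TH794.QD.plancherel f h1 h2
  have hm : Measurable (fun ξ : ℝ => ‖𝓕 f ξ‖ₑ ^ 2) := by
    have hc : Continuous (𝓕 f) :=
      VectorFourier.fourierIntegral_continuous Real.continuous_fourierChar
        (by exact continuous_inner) h1
    exact (hc.measurable.enorm).pow_const 2
  have h1 : Measure.map (fun t : ℝ => (2 * Real.pi)⁻¹ * t) volume =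
      ENNReal.ofReal (2 * Real.pi) • volume := by
    rw [Real.map_volume_mul_left (by positivity), inv_inv, abs_of_pos (by positivity)]
  rw [← hpl, ← lintegral_map (f := fun ξ : ℝ => ‖𝓕 f ξ‖ₑ ^ 2) hm
    (measurable_const_mul _), h1, lintegral_smul_measure, smul_eq_mul]

/-- the Mellin part of the continuation divided by the Gamma function -/
noncomputable def MG (a : ℝ) (w : Fin r → ℝ) (b : ℕ → ℂ) (s : ℂ) : ℂ :=
  (Gamma s)⁻¹ * mellin (fun t : ℝ => Kt a w b t) s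

/-- the kernel on a rotated ray is bounded by the weighted mean square -/
theorem rev (ha : 0 < a) (hw : ∀ j, 0 < w j) {b : ℕ → ℂ} {ρ C₀ : ℝ} (hρ : 0 < ρ)
    (hρ1 : ρ ≤ 1) (h0 : ∀ z : ℂ, z ≠ 0 → ‖z‖ ≤ ρ → ‖Kt a w b z‖ ≤ C₀) {σ : ℝ}
    (hσ : 0 < σ) : ∃ C : ℝ, 0 ≤ C ∧ ∀ T : ℝ, 1 ≤ T →
      ∫⁻ u, ‖kth a w b σ (Real.pi / 2 - 1 / T) u‖ₑ ^ 2 ≤ ENNReal.ofReal C +
        ENNReal.ofReal C * ∫⁻ t in Ici 1, ENNReal.ofReal (t ^ (2 * σ - 1) * Real.exp (-(2 * t / T))) *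
          ‖MG a w b ((σ : ℂ) + t * I)‖ₑ ^ 2 := by
  obtain ⟨G, hG, hGu⟩ := Gamma_upper_all σ
  obtain ⟨k1, k2⟩ := kth_good ha hw hρ hρ1 h0 le_rfl (by positivity : (0 : ℝ) < Real.pi / 2) hσ
  have hfin : ∫⁻ u, ‖kth a w b σ 0 u‖ₑ ^ 2 ≠ ⊤ := by
    have h := lintegral_rpow_enorm_lt_top_of_eLpNorm_lt_top (by norm_num) (by norm_num)
      k2.eLpNorm_lt_top
    simpa using h.ne
  set M : ℝ := (∫⁻ u, ‖kth a w b σ 0 u‖ₑ ^ 2).toReal with hM
  have hM0 : 0 ≤ M := ENNReal.toReal_nonneg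
  have hMe : ∫⁻ u, ‖kth a w b σ 0 u‖ₑ ^ 2 = ENNReal.ofReal M := (ENNReal.ofReal_toReal hfin).symm
  refine ⟨Real.exp 4 * M + G ^ 2, by positivity, fun T hT => ?_⟩
  have hT0 : 0 < T := by linarith
  set θ := Real.pi / 2 - 1 / T with hθ
  have hTi : 1 / T ≤ 1 := by rw [div_le_one hT0]; exact hT
  have hTi0 : 0 < 1 / T := by positivity
  have hθ0 : 0 ≤ θ := by
    have := Real.pi_gt_three
    linarith
  have hθ1 : θ < Real.pi / 2 := by linarith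
  obtain ⟨m1, m2⟩ := kth_good ha hw hρ hρ1 h0 hθ0 hθ1 hσ
  have e1 := planch_scale m1 m2
  have e2 := planch_scale k1 k2
  have hrot : ∀ t : ℝ, ‖mellin (fun t : ℝ => Kt a w b t) ((σ : ℂ) + t * I)‖ =
      Real.exp (-(θ * t)) * ‖𝓕 (kth a w b σ θ) ((2 * Real.pi)⁻¹ * t)‖ := by
    intro t
    have h2 := mellin_rot ha hw hρ hρ1 h0 hθ0 hθ1 (s := (σ : ℂ) + t * I) (by simpa using hσ)
    have h3 : ((σ : ℂ) + t * I).re = σ := by simp
    have h4 : ((σ : ℂ) + t * I).im = t := by simp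
    rw [h3, h4] at h2
    have h5 : t / (2 * Real.pi) = (2 * Real.pi)⁻¹ * t := by rw [div_eq_inv_mul]
    rw [h5] at h2
    have h7 : ‖cexp (((σ : ℂ) + t * I) * (θ * I))‖ = Real.exp (-(θ * t)) := by
      rw [Complex.norm_exp]
      congr 1
      simp
      ring
    rw [h2, norm_mul, h7]
  have hrot0 : ∀ t : ℝ, ‖mellin (fun t : ℝ => Kt a w b t) ((σ : ℂ) + t * I)‖ =
      ‖𝓕 (kth a w b σ 0) ((2 * Real.pi)⁻¹ * t)‖ := by
    intro t
    have h2 := mellin_rot ha hw hρ hρ1 h0 le_rfl (by positivity : (0 : ℝ) < Real.pi / 2)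
      (s := (σ : ℂ) + t * I) (by simpa using hσ)
    have h3 : ((σ : ℂ) + t * I).re = σ := by simp
    have h4 : ((σ : ℂ) + t * I).im = t := by simp
    rw [h3, h4] at h2
    have h5 : t / (2 * Real.pi) = (2 * Real.pi)⁻¹ * t := by rw [div_eq_inv_mul]
    rw [h5] at h2
    rw [h2, norm_mul]
    simp
  have hF : ∀ t : ℝ, ‖𝓕 (kth a w b σ θ) ((2 * Real.pi)⁻¹ * t)‖ =
      Real.exp (θ * t) * ‖mellin (fun t : ℝ => Kt a w b t) ((σ : ℂ) + t * I)‖ := by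
    intro t
    rw [hrot t, ← mul_assoc, ← Real.exp_add]
    simp
  -- the part `t ≤ 1`
  have hp1 : ∀ t ∈ Iic (1 : ℝ), ‖𝓕 (kth a w b σ θ) ((2 * Real.pi)⁻¹ * t)‖ₑ ^ 2 ≤
      ENNReal.ofReal (Real.exp 4) * ‖𝓕 (kth a w b σ 0) ((2 * Real.pi)⁻¹ * t)‖ₑ ^ 2 := by
    intro t ht
    have ht1 : t ≤ 1 := ht
    have h6 : ‖𝓕 (kth a w b σ θ) ((2 * Real.pi)⁻¹ * t)‖ ^ 2 ≤
        Real.exp 4 * ‖𝓕 (kth a w b σ 0) ((2 * Real.pi)⁻¹ * t)‖ ^ 2 := by
      rw [hF t, hrot0 t, mul_pow, ← Real.exp_nat_mul]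
      refine mul_le_mul_of_nonneg_right ?_ (by positivity)
      apply Real.exp_le_exp.2
      push_cast
      have := Real.pi_le_four
      nlinarith
    rw [← ofReal_norm, ← ofReal_norm, ← ENNReal.ofReal_pow (norm_nonneg _),
      ← ENNReal.ofReal_pow (norm_nonneg _), ← ENNReal.ofReal_mul (by positivity)]
    exact ENNReal.ofReal_le_ofReal h6
  have hp2 : ∀ t ∈ Ici (1 : ℝ), ‖𝓕 (kth a w b σ θ) ((2 * Real.pi)⁻¹ * t)‖ₑ ^ 2 ≤
      ENNReal.ofReal (G ^ 2) * (ENNReal.ofReal (t ^ (2 * σ - 1) * Real.exp (-(2 * t / T))) *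
          ‖MG a w b ((σ : ℂ) + t * I)‖ₑ ^ 2) := by
    intro t ht
    have ht1 : 1 ≤ t := ht
    have ht0 : 0 < t := by linarith
    have hG0 : Gamma ((σ : ℂ) + t * I) ≠ 0 :=
      Complex.Gamma_ne_zero_of_re_pos (by simpa using hσ)
    have h6 : ‖𝓕 (kth a w b σ θ) ((2 * Real.pi)⁻¹ * t)‖ ≤
        G * (t ^ (σ - 1 / 2) * Real.exp (-(t / T))) * ‖MG a w b ((σ : ℂ) + t * I)‖ := by
      have e3 : mellin (fun t : ℝ => Kt a w b t) ((σ : ℂ) + t * I) =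
          Gamma ((σ : ℂ) + t * I) * MG a w b ((σ : ℂ) + t * I) := by
        unfold MG
        rw [← mul_assoc, mul_inv_cancel₀ hG0, one_mul]
      rw [hF t, e3, norm_mul, ← mul_assoc]
      refine mul_le_mul_of_nonneg_right ?_ (norm_nonneg _)
      calc Real.exp (θ * t) * ‖Gamma ((σ : ℂ) + t * I)‖
          ≤ Real.exp (θ * t) * (G * t ^ (σ - 1 / 2) * Real.exp (-(Real.pi / 2 * t))) := by
            gcongr
            exact hGu t ht1
        _ = G * (t ^ (σ - 1 / 2) * (Real.exp (θ * t) * Real.exp (-(Real.pi / 2 * t)))) := by ring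
        _ = _ := by
            rw [← Real.exp_add]
            congr 4
            rw [hθ]; ring
    have h7 : ‖𝓕 (kth a w b σ θ) ((2 * Real.pi)⁻¹ * t)‖ ^ 2 ≤
        G ^ 2 * ((t ^ (2 * σ - 1) * Real.exp (-(2 * t / T))) *
          ‖MG a w b ((σ : ℂ) + t * I)‖ ^ 2) := by
      refine (pow_le_pow_left₀ (norm_nonneg _) h6 2).trans (le_of_eq ?_)
      have e4 : (t ^ (σ - 1 / 2)) ^ 2 = t ^ (2 * σ - 1) := by
        rw [← Real.rpow_natCast, ← Real.rpow_mul ht0.le]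
        congr 1
        push_cast; ring
      have e5 : Real.exp (-(t / T)) ^ 2 = Real.exp (-(2 * t / T)) := by
        rw [← Real.exp_nat_mul]
        congr 1
        push_cast; ring
      rw [mul_pow, mul_pow, mul_pow, e4, e5]
      ring
    rw [← ofReal_norm, ← ofReal_norm, ← ENNReal.ofReal_pow (norm_nonneg _),
      ← ENNReal.ofReal_pow (norm_nonneg _), ← ENNReal.ofReal_mul (by positivity),
      ← ENNReal.ofReal_mul (by positivity)]
    exact ENNReal.ofReal_le_ofReal h7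
  have h2pi : (1 : ENNReal) ≤ ENNReal.ofReal (2 * Real.pi) := by
    rw [← ENNReal.ofReal_one]
    apply ENNReal.ofReal_le_ofReal
    linarith [Real.pi_gt_three]
  have hcont0 : Continuous (𝓕 (kth a w b σ 0)) :=
    VectorFourier.fourierIntegral_continuous Real.continuous_fourierChar
      (by exact continuous_inner) k1
  have hS : ENNReal.ofReal (2 * Real.pi) * ∫⁻ u, ‖kth a w b σ θ u‖ₑ ^ 2 ≤
      ENNReal.ofReal (Real.exp 4) * (ENNReal.ofReal (2 * Real.pi) * ENNReal.ofReal M) +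
      ENNReal.ofReal (G ^ 2) * ∫⁻ t in Ici 1, ENNReal.ofReal (t ^ (2 * σ - 1) *
        Real.exp (-(2 * t / T))) * ‖MG a w b ((σ : ℂ) + t * I)‖ₑ ^ 2 := by
    rw [← e1]
    calc ∫⁻ t, ‖𝓕 (kth a w b σ θ) ((2 * Real.pi)⁻¹ * t)‖ₑ ^ 2
        = ∫⁻ t in Iic 1 ∪ Ici 1, ‖𝓕 (kth a w b σ θ) ((2 * Real.pi)⁻¹ * t)‖ₑ ^ 2 := by
          rw [Set.Iic_union_Ici, setLIntegral_univ]
      _ ≤ (∫⁻ t in Iic 1, ‖𝓕 (kth a w b σ θ) ((2 * Real.pi)⁻¹ * t)‖ₑ ^ 2) +
          ∫⁻ t in Ici 1, ‖𝓕 (kth a w b σ θ) ((2 * Real.pi)⁻¹ * t)‖ₑ ^ 2 :=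
          lintegral_union_le _ _ _
      _ ≤ _ := by
          refine add_le_add ?_ ?_
          · calc _ ≤ ∫⁻ t in Iic 1, ENNReal.ofReal (Real.exp 4) *
                  ‖𝓕 (kth a w b σ 0) ((2 * Real.pi)⁻¹ * t)‖ₑ ^ 2 :=
                  setLIntegral_mono' measurableSet_Iic hp1
              _ ≤ ∫⁻ t, ENNReal.ofReal (Real.exp 4) *
                  ‖𝓕 (kth a w b σ 0) ((2 * Real.pi)⁻¹ * t)‖ₑ ^ 2 := setLIntegral_le_lintegral _ _
              _ = _ := by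
                  rw [lintegral_const_mul' _ _ ENNReal.ofReal_ne_top, e2, hMe]
          · calc _ ≤ ∫⁻ t in Ici 1, ENNReal.ofReal (G ^ 2) * (ENNReal.ofReal (t ^ (2 * σ - 1) *
                  Real.exp (-(2 * t / T))) * ‖MG a w b ((σ : ℂ) + t * I)‖ₑ ^ 2) :=
                  setLIntegral_mono' measurableSet_Ici hp2
              _ = _ := by
                  rw [lintegral_const_mul' _ _ ENNReal.ofReal_ne_top]
  set J := ∫⁻ t in Ici 1, ENNReal.ofReal (t ^ (2 * σ - 1) * Real.exp (-(2 * t / T))) *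
    ‖MG a w b ((σ : ℂ) + t * I)‖ₑ ^ 2 with hJ
  have hpne : ENNReal.ofReal (2 * Real.pi) ≠ 0 := by
    intro h
    rw [h] at h2pi
    simp at h2pi
  have hmul : ENNReal.ofReal (2 * Real.pi) * ∫⁻ u, ‖kth a w b σ θ u‖ₑ ^ 2 ≤
      ENNReal.ofReal (2 * Real.pi) * (ENNReal.ofReal (Real.exp 4 * M) +
        ENNReal.ofReal (G ^ 2) * J) := by
    refine hS.trans ?_
    rw [mul_add, ENNReal.ofReal_mul (Real.exp_pos 4).le]
    refine add_le_add (le_of_eq (by ring)) ?_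
    calc ENNReal.ofReal (G ^ 2) * J = 1 * (ENNReal.ofReal (G ^ 2) * J) := (one_mul _).symm
      _ ≤ _ := by gcongr
  have hfinal := (ENNReal.mul_le_mul_iff_right hpne ENNReal.ofReal_ne_top).1 hmul
  refine hfinal.trans ?_
  have hG2 : 0 ≤ G ^ 2 := by positivity
  have hE4 : 0 ≤ Real.exp 4 * M := by positivity
  refine add_le_add (ENNReal.ofReal_le_ofReal (by linarith)) ?_
  gcongr
  linarith

end Pool.Agent.K6.H31.BR
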