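import Pool.Agent.K6.H31.BR.Ker2

set_option autoImplicit false

/-!
# The square integral of the Barnes kernel on rotated rays for weights which are not too well approximable
-/

namespace Pool.Agent.K6.H31.BR

open Finset Filter Topology MeasureTheory Complex Set
open Pool.Agent.H131R5.BZ Pool.Agent.Y930.Bz Pool.Agent.Y616.BM

lemma lint_cauchy {δ : ℝ} (hδ : 0 < δ) :
    ∫⁻ t : ℝ, ENNReal.ofReal ((δ ^ 2 + t ^ 2)⁻¹) = ENNReal.ofReal (Real.pi / δ) := by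
  have h1 : ∀ t : ℝ, (δ ^ 2 + t ^ 2)⁻¹ = (δ ^ 2)⁻¹ * (1 + (t / δ) ^ 2)⁻¹ := by
    intro t
    rw [← mul_inv]
    congr 1
    field_simp
  have h2 : Integrable fun t : ℝ => (δ ^ 2)⁻¹ * (1 + (t / δ) ^ 2)⁻¹ :=
    (integrable_inv_one_add_sq.comp_div hδ.ne').const_mul _
  simp_rw [h1]
  rw [← ofReal_integral_eq_lintegral_ofReal h2 (ae_of_all _ fun t => by positivity)]
  congr 1
  rw [integral_const_mul, Measure.integral_comp_div (fun t : ℝ => (1 + t ^ 2)⁻¹) δ,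
    integral_univ_inv_one_add_sq, abs_of_pos hδ, smul_eq_mul]
  field_simp

lemma lint_cv {γ : ℝ} (hγ : 0 < γ) (l : ℝ) (h : ℝ → ENNReal) :
    ∫⁻ u : ℝ, ENNReal.ofReal (Real.exp (-u)) * h (γ * Real.exp (-u) - l) ≤
      ENNReal.ofReal (1 / γ) * ∫⁻ t, h t := by
  have hd : ∀ u ∈ (Set.univ : Set ℝ), HasDerivWithinAt (fun u : ℝ => γ * Real.exp (-u) - l)
      (-(γ * Real.exp (-u))) Set.univ u := by
    intro u _
    have h1 : HasDerivAt (fun u : ℝ => γ * Real.exp (-u) - l) (γ * (Real.exp (-u) * -1)) u :=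
      (((hasDerivAt_neg u).exp).const_mul γ).sub_const l
    have h2 : γ * (Real.exp (-u) * -1) = -(γ * Real.exp (-u)) := by ring
    rw [h2] at h1
    exact h1.hasDerivWithinAt
  have hinj : Set.InjOn (fun u : ℝ => γ * Real.exp (-u) - l) Set.univ := by
    intro u _ v _ huv
    have h1 : γ * Real.exp (-u) = γ * Real.exp (-v) := by
      have : γ * Real.exp (-u) - l = γ * Real.exp (-v) - l := huv
      linarith
    have h2 := mul_left_cancel₀ hγ.ne' h1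
    have h3 := Real.exp_injective h2
    linarith
  have h1 := lintegral_image_eq_lintegral_abs_deriv_mul MeasurableSet.univ hd hinj h
  have h2 : ∫⁻ u : ℝ, ENNReal.ofReal (Real.exp (-u)) * h (γ * Real.exp (-u) - l) =
      ENNReal.ofReal (1 / γ) * ∫⁻ u in Set.univ, ENNReal.ofReal |-(γ * Real.exp (-u))| *
        h (γ * Real.exp (-u) - l) := by
    rw [← lintegral_const_mul' _ _ ENNReal.ofReal_ne_top, setLIntegral_univ]
    refine lintegral_congr fun u => ?_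
    rw [← mul_assoc, ← ENNReal.ofReal_mul (by positivity), abs_neg, abs_of_pos (by positivity)]
    congr 2
    field_simp
  rw [h2, ← h1]
  exact mul_le_mul' le_rfl (setLIntegral_le_lintegral _ _)

variable {r : ℕ} {a : ℝ} {w : Fin r → ℝ}

/-- the arithmetic factor -/
noncomputable def ar (r : ℕ) (σ T c₂ : ℝ) (M : ℕ → ℝ) (l : ℕ) : ℝ :=
  (l : ℝ) ^ (2 * σ - 1) * ((T / l) ^ (2 * (r - 2)) * ((c₂ * l / T) ^ 2 + M l ^ 2)⁻¹)

/-- the majorant for one pair -/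
lemma pair_main (hr : 2 ≤ r) {w₁ w₂ : ℝ} (hw₁ : 0 < w₁) {σ : ℝ} (hσ : 1 / 2 ≤ σ)
    {x T : ℝ} (hT : 1 ≤ T) (hx : 0 < x) (hxT : x ≤ T) {M : ℕ → ℝ} (hM0 : ∀ l, 0 ≤ M l) {B : ℝ}
    (hB : 1 ≤ B) (hM : ∀ l : ℕ, (round (w₁ * (x * Real.cos (1 / T) / (2 * Real.pi))) : ℝ) = l →
      M l ≤ B * nd (w₂ * (x * Real.cos (1 / T) / (2 * Real.pi)))) {q₁ q₂ : ℝ}
    (hq₁ : q₁ = ((x * (1 / T)) ^ 2 + nd (w₁ * (x * Real.cos (1 / T) / (2 * Real.pi))) ^ 2)⁻¹)
    (hq₂ : q₂ = ((x * (1 / T)) ^ 2 + nd (w₂ * (x * Real.cos (1 / T) / (2 * Real.pi))) ^ 2)⁻¹)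
    (hl : 1 ≤ round (w₁ * (x * Real.cos (1 / T) / (2 * Real.pi)))) :
    ∃ l : ℕ, 1 ≤ l ∧ (l : ℝ) ≤ (w₁ + 1) * T ∧ q₁ ^ (r - 1) * q₂ * x ^ (2 * σ) ≤
      (((Real.pi / w₁) ^ (2 * (r - 2)))⁻¹ * B ^ 2 * (6 * Real.pi / w₁) ^ (2 * σ - 1)) *
      (ar r σ T (Real.pi / w₁) M l * (x * ((Real.pi / w₁ * l / T) ^ 2 +
        (w₁ * Real.cos (1 / T) / (2 * Real.pi) * x - l) ^ 2)⁻¹)) := by
  have hT0 : 0 < T := by linarith
  have hpi := Real.pi_pos
  have hpi3 := Real.pi_gt_three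
  have hη0 : 0 < 1 / T := by positivity
  have hη1 : 1 / T ≤ 1 := by rw [div_le_one hT0]; exact hT
  have hcos1 : 1 / 2 ≤ Real.cos (1 / T) := by
    have := Real.one_sub_sq_div_two_le_cos (x := 1 / T)
    nlinarith
  have hcos2 : Real.cos (1 / T) ≤ 1 := Real.cos_le_one _
  set γ : ℝ := w₁ * Real.cos (1 / T) / (2 * Real.pi) with hγ
  have hγx : w₁ * (x * Real.cos (1 / T) / (2 * Real.pi)) = γ * x := by rw [hγ]; ring
  rw [hγx] at hl hM hq₁
  have hγ0 : 0 < γ := by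
    rw [hγ]
    have : 0 < Real.cos (1 / T) := by linarith
    positivity
  have hγ1 : γ ≤ w₁ / (2 * Real.pi) := by
    rw [hγ]
    apply div_le_div_of_nonneg_right _ (by positivity)
    nlinarith
  have hγ2 : w₁ / (4 * Real.pi) ≤ γ := by
    rw [hγ, div_le_div_iff₀ (by positivity) (by positivity)]
    nlinarith [mul_pos hw₁ hpi]
  obtain ⟨l, hll⟩ : ∃ l : ℕ, (l : ℤ) = round (γ * x) :=
    ⟨(round (γ * x)).toNat, Int.toNat_of_nonneg (by linarith)⟩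
  have hlr : (round (γ * x) : ℝ) = l := by rw [← hll]; simp
  have hl1 : 1 ≤ l := by rw [← hll] at hl; exact_mod_cast hl
  have hl1' : (1 : ℝ) ≤ l := by exact_mod_cast hl1
  have hl0 : (0 : ℝ) < l := by linarith
  have habs := abs_sub_round (γ * x)
  rw [hlr] at habs
  have hnd : nd (γ * x) = |γ * x - l| := by unfold nd; rw [hlr]
  obtain ⟨hab1, hab2⟩ := abs_le.1 habs
  -- bounds for `x`
  have hxl : Real.pi / w₁ * l ≤ x := by
    have h1 : (l : ℝ) / 2 ≤ γ * x := by linarith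
    have h2 : γ * x ≤ w₁ / (2 * Real.pi) * x := by gcongr
    have h3 : (l : ℝ) / 2 ≤ w₁ / (2 * Real.pi) * x := h1.trans h2
    rw [div_mul_eq_mul_div, div_le_iff₀ hw₁]
    rw [div_mul_eq_mul_div, div_le_div_iff₀ (by norm_num) (by positivity)] at h3
    nlinarith
  have hxu : x ≤ 6 * Real.pi / w₁ * l := by
    have h1 : γ * x ≤ 3 / 2 * l := by linarith
    have h2 : w₁ / (4 * Real.pi) * x ≤ γ * x := by gcongr
    have h3 : w₁ / (4 * Real.pi) * x ≤ 3 / 2 * l := h2.trans h1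
    rw [div_mul_eq_mul_div, le_div_iff₀ hw₁]
    rw [div_mul_eq_mul_div, div_le_iff₀ (by positivity)] at h3
    nlinarith
  refine ⟨l, hl1, ?_, ?_⟩
  · have h1 : (l : ℝ) ≤ γ * x + 1 / 2 := by linarith
    have h2 : γ * x ≤ w₁ * T := by
      have h3 : γ ≤ w₁ := by
        refine hγ1.trans ?_
        rw [div_le_iff₀ (by positivity)]
        nlinarith
      gcongr
    nlinarith
  set δ : ℝ := x * (1 / T) with hδ
  set δl : ℝ := Real.pi / w₁ * l / T with hδl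
  have hδl0 : 0 < δl := by positivity
  have hδδ : δl ≤ δ := by
    rw [hδl, hδ, mul_one_div]
    gcongr
  set h : ℝ := (δl ^ 2 + (γ * x - l) ^ 2)⁻¹ with hh
  have hh0 : 0 < h := by positivity
  have hq1 : q₁ ≤ h := by
    rw [hq₁, hh, hnd, sq_abs]
    apply inv_anti₀ (by positivity)
    gcongr
  have hq10 : 0 < q₁ := by
    rw [hq₁]
    have : 0 < δ := by linarith
    positivity
  have hh1 : h ≤ (δl ^ 2)⁻¹ := by
    rw [hh]
    apply inv_anti₀ (by positivity)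
    nlinarith [sq_nonneg (γ * x - l)]
  have hpow : q₁ ^ (r - 1) ≤ (δl ^ (2 * (r - 2)))⁻¹ * h := by
    calc q₁ ^ (r - 1) ≤ h ^ (r - 1) := by gcongr
      _ = h ^ (r - 2) * h := by rw [← pow_succ]; congr 1; omega
      _ ≤ ((δl ^ 2)⁻¹) ^ (r - 2) * h := by gcongr
      _ = _ := by rw [inv_pow, pow_mul]
  -- the second factor
  set n₂ : ℝ := nd (w₂ * (x * Real.cos (1 / T) / (2 * Real.pi))) with hn₂
  have hn20 : 0 ≤ n₂ := nd_nonneg _
  have hndl : M l ≤ B * n₂ := hM l hlr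
  have hq2 : q₂ ≤ B ^ 2 * (δl ^ 2 + M l ^ 2)⁻¹ := by
    have hX : 0 < δl ^ 2 + M l ^ 2 := by positivity
    have hY : 0 < δ ^ 2 + n₂ ^ 2 := by
      have : 0 < δ := by linarith
      positivity
    rw [hq₂, ← div_eq_mul_inv, le_div_iff₀ hX, ← div_eq_inv_mul, div_le_iff₀ hY]
    have h1 : M l ^ 2 ≤ (B * n₂) ^ 2 := pow_le_pow_left₀ (hM0 l) hndl 2
    have h2 : δl ^ 2 ≤ δ ^ 2 := by gcongr
    have h3 : δ ^ 2 ≤ B ^ 2 * δ ^ 2 := by
      have : 1 ≤ B ^ 2 := by nlinarith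
      nlinarith [sq_nonneg δ]
    rw [mul_add, ← mul_pow B n₂]
    linarith
  have hq20 : 0 ≤ q₂ := by rw [hq₂]; positivity
  have hxs : x ^ (2 * σ) ≤ x * ((6 * Real.pi / w₁) ^ (2 * σ - 1) * (l : ℝ) ^ (2 * σ - 1)) := by
    have h1 : x ^ (2 * σ) = x * x ^ (2 * σ - 1) := by
      rw [mul_comm x, ← Real.rpow_add_one hx.ne']
      congr 1; ring
    rw [h1, ← Real.mul_rpow (by positivity) hl0.le]
    have h2 : x ^ (2 * σ - 1) ≤ (6 * Real.pi / w₁ * l) ^ (2 * σ - 1) :=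
      Real.rpow_le_rpow hx.le hxu (by linarith)
    gcongr
  calc q₁ ^ (r - 1) * q₂ * x ^ (2 * σ)
      ≤ ((δl ^ (2 * (r - 2)))⁻¹ * h) * (B ^ 2 * (δl ^ 2 + M l ^ 2)⁻¹) *
        (x * ((6 * Real.pi / w₁) ^ (2 * σ - 1) * (l : ℝ) ^ (2 * σ - 1))) := by
        gcongr
    _ = _ := by
        have e1 : (δl ^ (2 * (r - 2)))⁻¹ = ((Real.pi / w₁) ^ (2 * (r - 2)))⁻¹ * (T / l) ^ (2 * (r - 2)) := by
          rw [hδl, ← inv_pow, ← inv_pow, ← mul_pow]
          congr 1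
          field_simp
        rw [e1]
        unfold ar
        rw [← hδl]
        ring

end Pool.Agent.K6.H31.BR
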