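import Pool.Agent.K6.H31.BR.Up

set_option autoImplicit false

/-!
# The upper bound for the square integral of the Barnes kernel on rotated rays
-/

namespace Pool.Agent.K6.H31.BR

open Finset Filter Topology MeasureTheory Complex Set
open Pool.Agent.H131R5.BZ Pool.Agent.Y930.Bz Pool.Agent.Y616.BM

variable {r : ℕ} {a : ℝ} {w : Fin r → ℝ}

lemma ray_eq (u η : ℝ) : cexp (-(u : ℂ) + ((Real.pi / 2 - η : ℝ) : ℂ) * I) = zx (Real.exp (-u)) η := by
  unfold zx
  rw [Complex.exp_add]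
  push_cast
  rfl

/-- the part of the ray beyond `T` -/
lemma far (ha : 0 < a) (hw : ∀ j, 0 < w j) {σ : ℝ} (hσ : 0 < σ) : ∃ C : ℝ, 0 ≤ C ∧ ∀ T : ℝ, 1 ≤ T →
    ∫⁻ u in Iic (-Real.log T), ‖KK a w (cexp (-(u : ℂ) + ((Real.pi / 2 - 1 / T : ℝ) : ℂ) * I))‖ₑ ^ 2 *
      ENNReal.ofReal (Real.exp (-(2 * σ) * u)) ≤ ENNReal.ofReal (C * T ^ (2 * σ)) := by
  obtain ⟨C, hC, hK⟩ := KK_le (a := a) hw (x := 1 / 2) (by norm_num)
  obtain ⟨G, hG0, hG⟩ := gf_lint_scale (σ := 2 * σ) (c := a) (by positivity) ha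
  refine ⟨C ^ 2 * G, by positivity, fun T hT => ?_⟩
  have hT0 : 0 < T := by linarith
  have hη0 : 0 < 1 / T := by positivity
  have hη1 : 1 / T ≤ 1 := by rw [div_le_one hT0]; exact hT
  have hpt : ∀ u ∈ Iic (-Real.log T),
      ‖KK a w (cexp (-(u : ℂ) + ((Real.pi / 2 - 1 / T : ℝ) : ℂ) * I))‖ₑ ^ 2 *
      ENNReal.ofReal (Real.exp (-(2 * σ) * u)) ≤
      ENNReal.ofReal (C ^ 2) * ENNReal.ofReal (gf (2 * σ) (a * (1 / T)) u) := by
    intro u hu
    have hxT : T ≤ Real.exp (-u) := by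
      calc T = Real.exp (Real.log T) := (Real.exp_log hT0).symm
        _ ≤ Real.exp (-u) := by
            apply Real.exp_le_exp.2
            have : u ≤ -Real.log T := hu
            linarith
    set x := Real.exp (-u) with hx
    have hx0 : 0 < x := Real.exp_pos _
    have hs := sin_ge hη0.le hη1
    have hre : 1 / 2 ≤ (zx x (1 / T)).re := by
      rw [zx_re]
      have h1 : 1 / 2 = T * (1 / T / 2) := by field_simp
      rw [h1]
      gcongr
    rw [ray_eq]
    have h1 := hK _ hre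
    have h2 : Real.exp (-a * (zx x (1 / T)).re) ≤ Real.exp (-(a * (1 / T)) * x / 2) := by
      apply Real.exp_le_exp.2
      rw [zx_re]
      have h3 : x * (1 / T / 2) ≤ x * Real.sin (1 / T) := by gcongr
      nlinarith
    have h3 : ‖KK a w (zx x (1 / T))‖ ^ 2 * Real.exp (-(2 * σ) * u) ≤
        C ^ 2 * gf (2 * σ) (a * (1 / T)) u := by
      have h4 : ‖KK a w (zx x (1 / T))‖ ^ 2 ≤ (C * Real.exp (-(a * (1 / T)) * x / 2)) ^ 2 := by
        apply pow_le_pow_left₀ (norm_nonneg _)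
        exact h1.trans (by gcongr)
      have h5 : (C * Real.exp (-(a * (1 / T)) * x / 2)) ^ 2 = C ^ 2 * Real.exp (-(a * (1 / T)) * x) := by
        rw [mul_pow, ← Real.exp_nat_mul]
        congr 2
        push_cast; ring
      rw [h5] at h4
      unfold gf
      calc _ ≤ C ^ 2 * Real.exp (-(a * (1 / T)) * x) * Real.exp (-(2 * σ) * u) := by gcongr
        _ = _ := by rw [hx]; ring
    rw [← ofReal_norm, ← ENNReal.ofReal_pow (norm_nonneg _), ← ENNReal.ofReal_mul (by positivity),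
      ← ENNReal.ofReal_mul (by positivity)]
    exact ENNReal.ofReal_le_ofReal h3
  calc _ ≤ ∫⁻ u in Iic (-Real.log T), ENNReal.ofReal (C ^ 2) *
        ENNReal.ofReal (gf (2 * σ) (a * (1 / T)) u) := setLIntegral_mono' measurableSet_Iic hpt
    _ ≤ ∫⁻ u, ENNReal.ofReal (C ^ 2) * ENNReal.ofReal (gf (2 * σ) (a * (1 / T)) u) :=
        setLIntegral_le_lintegral _ _
    _ = _ := by
        rw [lintegral_const_mul' _ _ ENNReal.ofReal_ne_top, hG _ hη0,
          ← ENNReal.ofReal_mul (by positivity)]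
        congr 1
        rw [one_div, Real.inv_rpow hT0.le, ← Real.rpow_neg hT0.le, neg_neg]
        ring

/-- the constant part -/
lemma near_const {σ K : ℝ} (hσ : 0 < σ) (hK : 0 ≤ K) : ∃ C : ℝ, 0 ≤ C ∧ ∀ T : ℝ, 1 ≤ T →
    ∫⁻ u in Ici (-Real.log T), ENNReal.ofReal (K * Real.exp (-(2 * σ) * u)) ≤
      ENNReal.ofReal (C * T ^ (2 * σ)) := by
  obtain ⟨G, hG0, hG⟩ := gf_lint_scale (σ := 2 * σ) (c := 1) (by positivity) one_pos
  refine ⟨K * Real.exp 1 * G, by positivity, fun T hT => ?_⟩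
  have hT0 : 0 < T := by linarith
  have hη0 : 0 < 1 / T := by positivity
  have hpt : ∀ u ∈ Ici (-Real.log T), ENNReal.ofReal (K * Real.exp (-(2 * σ) * u)) ≤
      ENNReal.ofReal (K * Real.exp 1) * ENNReal.ofReal (gf (2 * σ) (1 * (1 / T)) u) := by
    intro u hu
    rw [← ENNReal.ofReal_mul (by positivity)]
    apply ENNReal.ofReal_le_ofReal
    have hxT : Real.exp (-u) ≤ T := by
      calc Real.exp (-u) ≤ Real.exp (Real.log T) := by
            apply Real.exp_le_exp.2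
            have : -Real.log T ≤ u := hu
            linarith
        _ = T := Real.exp_log hT0
    unfold gf
    have h1 : 1 ≤ Real.exp 1 * Real.exp (-(1 * (1 / T)) * Real.exp (-u)) := by
      rw [← Real.exp_add]
      apply Real.one_le_exp
      have h2 : 1 / T * Real.exp (-u) ≤ 1 := by
        rw [one_div_mul_eq_div, div_le_one hT0]
        exact hxT
      linarith
    have h2 : 0 ≤ K * Real.exp (-(2 * σ) * u) := by positivity
    calc K * Real.exp (-(2 * σ) * u) = K * Real.exp (-(2 * σ) * u) * 1 := (mul_one _).symm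
      _ ≤ K * Real.exp (-(2 * σ) * u) * (Real.exp 1 * Real.exp (-(1 * (1 / T)) * Real.exp (-u))) := by
          gcongr
      _ = _ := by ring
  calc _ ≤ ∫⁻ u in Ici (-Real.log T), ENNReal.ofReal (K * Real.exp 1) *
        ENNReal.ofReal (gf (2 * σ) (1 * (1 / T)) u) := setLIntegral_mono' measurableSet_Ici hpt
    _ ≤ ∫⁻ u, ENNReal.ofReal (K * Real.exp 1) * ENNReal.ofReal (gf (2 * σ) (1 * (1 / T)) u) :=
        setLIntegral_le_lintegral _ _
    _ = _ := by
        rw [lintegral_const_mul' _ _ ENNReal.ofReal_ne_top, hG _ hη0,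
          ← ENNReal.ofReal_mul (by positivity)]
        congr 1
        rw [one_div, Real.inv_rpow hT0.le, ← Real.rpow_neg hT0.le, neg_neg]
        ring

/-- the constant of a pair -/
noncomputable def kp (r : ℕ) (σ w₁ B : ℝ) : ℝ :=
  ((Real.pi / w₁) ^ (2 * (r - 2)))⁻¹ * B ^ 2 * (6 * Real.pi / w₁) ^ (2 * σ - 1)

/-- the sum of the distances at the multiples of the period of the `j`-th factor -/
noncomputable def MM (w : Fin r → ℝ) (j : Fin r) (l : ℕ) : ℝ := ∑ i, nd (l * (w i / w j))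

lemma MM_gauge (w : Fin r → ℝ) (j : Fin r) : Gauge (MM w j) where
  nonneg l := Finset.sum_nonneg fun i _ => nd_nonneg _
  bdd := ⟨r * (1 / 2), fun l => by
    unfold MM
    calc _ ≤ ∑ _i : Fin r, (1 / 2 : ℝ) := Finset.sum_le_sum fun i _ => nd_le_half _
      _ = _ := by simp⟩
  sub l l' hll := by
    unfold MM
    rw [← Finset.sum_add_distrib]
    refine Finset.sum_le_sum fun i _ => ?_
    rw [Nat.cast_sub hll.le, sub_mul, add_comm]
    exact nd_sub_le _ _

/-- the constant of the comparison -/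
noncomputable def BB (w : Fin r → ℝ) (j : Fin r) : ℝ := ∑ i, (1 + w i / w j)

lemma BB_one (hw : ∀ j, 0 < w j) (j : Fin r) : 1 ≤ BB w j := by
  have h1 : ∀ i, 0 ≤ 1 + w i / w j := fun i => by
    have := hw i
    have := hw j
    positivity
  have h2 := Finset.single_le_sum (f := fun i => 1 + w i / w j) (fun i _ => h1 i) (Finset.mem_univ j)
  refine le_trans ?_ h2
  have := hw j
  have : 0 ≤ w j / w j := by positivity
  linarith

lemma MM_le (hw : ∀ j, 0 < w j) {j₁ j₂ : Fin r} {y : ℝ} (h1 : ∀ j, nd (w j₁ * y) ≤ nd (w j * y))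
    (h2 : ∀ j, nd (w j * y) ≤ nd (w j₂ * y)) (l : ℕ) (hl : (round (w j₁ * y) : ℝ) = l) :
    MM w j₁ l ≤ BB w j₁ * nd (w j₂ * y) := by
  unfold MM BB
  rw [Finset.sum_mul]
  refine Finset.sum_le_sum fun i _ => ?_
  have hw1 := hw j₁
  have hwi := hw i
  have hx : 0 < w i / w j₁ := by positivity
  have h3 := nd_le_nd_add (l * (w i / w j₁)) (w i * y)
  have h4 : |(l : ℝ) * (w i / w j₁) - w i * y| = (w i / w j₁) * nd (w j₁ * y) := by
    have e1 : (l : ℝ) * (w i / w j₁) - w i * y = -((w i / w j₁) * (w j₁ * y - l)) := by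
      field_simp
      ring
    rw [e1, abs_neg, abs_mul, abs_of_pos hx]
    unfold nd
    rw [hl]
  rw [h4] at h3
  have h5 := h2 i
  have h6 := h2 j₁
  nlinarith [mul_le_mul_of_nonneg_left h6 hx.le]

/-- the integral of the majorant of a pair -/
lemma pair_int {w₁ : ℝ} (hw₁ : 0 < w₁) {M : ℕ → ℝ} (hM : Gauge M) {c θ : ℝ} (hθ : 0 ≤ θ)
    (hθ2 : θ < 2) (hc : 0 < c)
    (H : ∀ l : ℕ, 1 ≤ l → c ≤ l * M l ^ θ) {Λ : ℝ} (hΛ : 0 ≤ Λ)
    (hΛθ : Λ * θ ≤ 2 - θ) (hr : 2 ≤ r) {σ C₁ : ℝ} (hC₁ : 0 < C₁)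
    (hg : 0 < 2 * σ - (2 * r - 1 - θ) + Λ * (1 + θ)) (K : ℝ) (hK : 0 ≤ K) :
    ∃ C : ℝ, 0 ≤ C ∧ ∀ (T : ℝ) (L : ℕ), 1 ≤ T → (L : ℝ) ≤ C₁ * T →
      ∑ l ∈ Finset.Icc 1 L, ∫⁻ u : ℝ, ENNReal.ofReal (K * ar r σ T (Real.pi / w₁) M l) *
        (ENNReal.ofReal (Real.exp (-u)) * ENNReal.ofReal (((Real.pi / w₁ * l / T) ^ 2 +
        (w₁ * Real.cos (1 / T) / (2 * Real.pi) * Real.exp (-u) - l) ^ 2)⁻¹)) ≤
        ENNReal.ofReal (C * T ^ (2 * σ + Λ)) := by
  have hpi := Real.pi_pos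
  obtain ⟨C, hC, h⟩ := sum_block hM hθ hθ2 hc H hΛ hΛθ (c₂ := Real.pi / w₁) (C₁ := C₁) (s := 2 * σ)
    (by positivity) hC₁ (2 * (r - 2) + 1) (by
      push_cast
      rw [Nat.cast_sub hr]
      push_cast
      linarith)
  refine ⟨K * (4 * Real.pi) * C, by positivity, fun T L hT hL => ?_⟩
  have hT0 : 0 < T := by linarith
  have hη0 : 0 < 1 / T := by positivity
  have hη1 : 1 / T ≤ 1 := by rw [div_le_one hT0]; exact hT
  have hcos1 : 1 / 2 ≤ Real.cos (1 / T) := by
    have := Real.one_sub_sq_div_two_le_cos (x := 1 / T)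
    nlinarith
  have hcos0 : 0 < Real.cos (1 / T) := by linarith
  set γ : ℝ := w₁ * Real.cos (1 / T) / (2 * Real.pi) with hγ
  have hγ0 : 0 < γ := by positivity
  have hγ2 : w₁ / (4 * Real.pi) ≤ γ := by
    rw [hγ, div_le_div_iff₀ (by positivity) (by positivity)]
    nlinarith [mul_pos hw₁ hpi]
  have hterm : ∀ l ∈ Finset.Icc 1 L, ∫⁻ u : ℝ, ENNReal.ofReal (K * ar r σ T (Real.pi / w₁) M l) *
        (ENNReal.ofReal (Real.exp (-u)) * ENNReal.ofReal (((Real.pi / w₁ * l / T) ^ 2 +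
        (γ * Real.exp (-u) - l) ^ 2)⁻¹)) ≤
      ENNReal.ofReal (K * (4 * Real.pi) * ((l : ℝ) ^ (2 * σ - 1) * ((T / l) ^ (2 * (r - 2) + 1) *
        ((Real.pi / w₁ * l / T) ^ 2 + M l ^ 2)⁻¹))) := by
    intro l hl
    rw [Finset.mem_Icc] at hl
    have hl0 : (0 : ℝ) < l := by exact_mod_cast hl.1
    set δl : ℝ := Real.pi / w₁ * l / T with hδl
    have hδl0 : 0 < δl := by positivity
    have har : 0 ≤ ar r σ T (Real.pi / w₁) M l := by
      unfold ar
      positivity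
    rw [lintegral_const_mul' _ _ ENNReal.ofReal_ne_top]
    have h1 := lint_cv hγ0 l (fun t => ENNReal.ofReal ((δl ^ 2 + t ^ 2)⁻¹))
    rw [lint_cauchy hδl0, ← ENNReal.ofReal_mul (by positivity)] at h1
    calc _ ≤ ENNReal.ofReal (K * ar r σ T (Real.pi / w₁) M l) *
          ENNReal.ofReal (1 / γ * (Real.pi / δl)) := by gcongr
      _ = ENNReal.ofReal (K * ar r σ T (Real.pi / w₁) M l * (1 / γ * (Real.pi / δl))) := by
          rw [← ENNReal.ofReal_mul (by positivity)]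
      _ ≤ _ := by
          apply ENNReal.ofReal_le_ofReal
          have h2 : 1 / γ ≤ 4 * Real.pi / w₁ := by
            rw [div_le_div_iff₀ hγ0 hw₁]
            rw [div_le_iff₀ (by positivity)] at hγ2
            linarith
          have h3 : Real.pi / δl = w₁ * (T / l) := by
            rw [hδl]; field_simp
          have h4 : 1 / γ * (Real.pi / δl) ≤ 4 * Real.pi * (T / l) := by
            rw [h3]
            calc 1 / γ * (w₁ * (T / l)) ≤ 4 * Real.pi / w₁ * (w₁ * (T / l)) := by gcongr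
              _ = _ := by field_simp
          calc _ ≤ K * ar r σ T (Real.pi / w₁) M l * (4 * Real.pi * (T / l)) := by gcongr
            _ = _ := by
                unfold ar
                rw [← hδl, pow_succ]
                ring
  have hnn : ∀ l ∈ Finset.Icc 1 L, 0 ≤ K * (4 * Real.pi) * ((l : ℝ) ^ (2 * σ - 1) *
      ((T / l) ^ (2 * (r - 2) + 1) *
        ((Real.pi / w₁ * l / T) ^ 2 + M l ^ 2)⁻¹)) := fun l _ => by positivity
  calc _ ≤ ∑ l ∈ Finset.Icc 1 L, ENNReal.ofReal (K * (4 * Real.pi) * ((l : ℝ) ^ (2 * σ - 1) *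
        ((T / l) ^ (2 * (r - 2) + 1) *
        ((Real.pi / w₁ * l / T) ^ 2 + M l ^ 2)⁻¹))) := Finset.sum_le_sum hterm
    _ = ENNReal.ofReal (∑ l ∈ Finset.Icc 1 L, K * (4 * Real.pi) * ((l : ℝ) ^ (2 * σ - 1) *
        ((T / l) ^ (2 * (r - 2) + 1) *
        ((Real.pi / w₁ * l / T) ^ 2 + M l ^ 2)⁻¹))) :=
        (ENNReal.ofReal_sum_of_nonneg hnn).symm
    _ ≤ _ := by
        apply ENNReal.ofReal_le_ofReal
        rw [← Finset.mul_sum, mul_assoc (K * (4 * Real.pi))]
        gcongr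
        exact h T L hT hL

/-- the square integral of the kernel on the rotated ray -/
theorem JJ_upper (hr : 2 ≤ r) (ha : 0 < a) (hw : ∀ j, 0 < w j) {θ : ℝ} (hθ : 0 ≤ θ) (hθ2 : θ < 2)
    (hH : ∀ j, ∃ c : ℝ, 0 < c ∧ ∀ l : ℕ, 1 ≤ l → c ≤ l * MM w j l ^ θ)
    {Λ : ℝ} (hΛ : 0 ≤ Λ) (hΛθ : Λ * θ ≤ 2 - θ)
    {σ : ℝ} (hσ : 1 / 2 ≤ σ) (hg : 0 < 2 * σ - (2 * r - 1 - θ) + Λ * (1 + θ)) (U : ℝ) :
    ∃ C : ℝ, 0 ≤ C ∧ ∀ T : ℝ, 1 ≤ T →
      JJ a w σ U (1 / T) ≤ ENNReal.ofReal (C * T ^ (2 * σ + Λ)) := by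
  classical
  have hpi := Real.pi_pos
  have hσ0 : 0 < σ := by linarith
  obtain ⟨Cf, hCf, hfar⟩ := far ha hw hσ0
  obtain ⟨CK, hCK, hKK⟩ := KK_sq_le ha hw
  obtain ⟨j₀, -, hj₀⟩ := Finset.exists_min_image (Finset.univ : Finset (Fin r)) w
    ⟨⟨0, by omega⟩, Finset.mem_univ _⟩
  set m : ℝ := w j₀ with hm
  have hm0 : 0 < m := hw j₀
  set c₅ : ℝ := m / (4 * Real.pi) * Real.exp (-U) with hc₅
  have hc₅0 : 0 < c₅ := by positivity
  set K₀ : ℝ := CK * ((c₅ ^ 2)⁻¹) ^ r with hK₀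
  have hK₀0 : 0 ≤ K₀ := by positivity
  obtain ⟨Cn, hCn, hnear⟩ := near_const hσ0 hK₀0
  set W : ℝ := ∑ j, w j with hW
  have hWj : ∀ j, w j ≤ W := fun j =>
    Finset.single_le_sum (f := w) (fun j _ => (hw j).le) (Finset.mem_univ j)
  have hW0 : 0 < W := lt_of_lt_of_le hm0 (hWj j₀)
  have hkp : ∀ j, 0 ≤ kp r σ (w j) (BB w j) := by
    intro j
    have h1 := hw j
    unfold kp
    positivity
  have hp : ∀ p : Fin r, ∃ C : ℝ, 0 ≤ C ∧ ∀ (T : ℝ) (L : ℕ), 1 ≤ T →
      (L : ℝ) ≤ (W + 1) * T →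
      ∑ l ∈ Finset.Icc 1 L, ∫⁻ u : ℝ, ENNReal.ofReal (CK * kp r σ (w p) (BB w p) *
        ar r σ T (Real.pi / w p) (MM w p) l) *
        (ENNReal.ofReal (Real.exp (-u)) * ENNReal.ofReal (((Real.pi / w p * l / T) ^ 2 +
        (w p * Real.cos (1 / T) / (2 * Real.pi) * Real.exp (-u) - l) ^ 2)⁻¹)) ≤
        ENNReal.ofReal (C * T ^ (2 * σ + Λ)) := by
    intro p
    obtain ⟨c, hc, H⟩ := hH p
    exact pair_int (r := r) (σ := σ) (hw p) (MM_gauge w p) hθ hθ2 hc H hΛ hΛθ hr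
      (show 0 < W + 1 by linarith) hg (CK * kp r σ (w p) (BB w p))
      (mul_nonneg hCK.le (hkp _))
  choose Cp hCp0 hCp using hp
  set S : Finset (Fin r) := Finset.univ with hS
  refine ⟨Cf + (Cn + ∑ p ∈ S, Cp p), by
    have : 0 ≤ ∑ p ∈ S, Cp p := Finset.sum_nonneg fun p _ => hCp0 p
    positivity, fun T hT => ?_⟩
  have hT0 : 0 < T := by linarith
  have hη0 : 0 < 1 / T := by positivity
  have hη1 : 1 / T ≤ 1 := by rw [div_le_one hT0]; exact hT
  have hcos1 : 1 / 2 ≤ Real.cos (1 / T) := by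
    have := Real.one_sub_sq_div_two_le_cos (x := 1 / T)
    nlinarith
  set L : ℕ := ⌊(W + 1) * T⌋₊ with hL
  have hLle : (L : ℝ) ≤ (W + 1) * T := Nat.floor_le (by positivity)
  set F : ℝ → ENNReal := fun u => ‖KK a w (cexp (-(u : ℂ) + ((Real.pi / 2 - 1 / T : ℝ) : ℂ) * I))‖ₑ ^ 2 *
      ENNReal.ofReal (Real.exp (-(2 * σ) * u)) with hF
  set hpl : Fin r → ℕ → ℝ → ENNReal := fun p l u =>
    ENNReal.ofReal (CK * kp r σ (w p) (BB w p) *
        ar r σ T (Real.pi / w p) (MM w p) l) *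
        (ENNReal.ofReal (Real.exp (-u)) * ENNReal.ofReal (((Real.pi / w p * l / T) ^ 2 +
        (w p * Real.cos (1 / T) / (2 * Real.pi) * Real.exp (-u) - l) ^ 2)⁻¹)) with hhpl
  have hmeas : ∀ p l, Measurable (hpl p l) := by
    intro p l
    simp only [hhpl]
    fun_prop
  have hpt : ∀ u ∈ Icc (-Real.log T) U, F u ≤ ENNReal.ofReal (K₀ * Real.exp (-(2 * σ) * u)) +
      ∑ p ∈ S, ∑ l ∈ Finset.Icc 1 L, hpl p l u := by
    intro u hu
    set x := Real.exp (-u) with hx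
    have hx0 : 0 < x := Real.exp_pos _
    have hxT : x ≤ T := by
      calc x ≤ Real.exp (Real.log T) := by
            apply Real.exp_le_exp.2
            linarith [hu.1]
        _ = T := Real.exp_log hT0
    have hxU : Real.exp (-U) ≤ x := Real.exp_le_exp.2 (by linarith [hu.2])
    have hxs : Real.exp (-(2 * σ) * u) = x ^ (2 * σ) := by
      rw [hx, ← Real.exp_mul]
      congr 1; ring
    have hFu : F u = ENNReal.ofReal (‖KK a w (zx x (1 / T))‖ ^ 2 * x ^ (2 * σ)) := by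
      simp only [hF]
      rw [ray_eq, ← ofReal_norm, ← ENNReal.ofReal_pow (norm_nonneg _),
        ← ENNReal.ofReal_mul (by positivity), hxs]
    have hxη : x * (1 / T) ≤ 1 := by rw [mul_one_div, div_le_one hT0]; exact hxT
    have h1 := hKK x (1 / T) hx0 hη0 hη1 hxη
    obtain ⟨j₁, j₂, h4, h3, h5⟩ := minmax_bound (w := w) hx0 hη0 (show 1 ≤ r by omega)
    have hxs0 : 0 ≤ x ^ (2 * σ) := by positivity
    rcases le_or_gt (round (w j₁ * (x * Real.cos (1 / T) / (2 * Real.pi)))) 0 with h6 | h6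
    · -- near zero
      refine le_trans ?_ le_self_add
      rw [hFu, hxs]
      apply ENNReal.ofReal_le_ofReal
      have h7 : ∀ j, c₅ ≤ nd (w j * (x * Real.cos (1 / T) / (2 * Real.pi))) := by
        intro j
        refine le_trans ?_ (h4 j)
        have h8 : w j₁ * (x * Real.cos (1 / T) / (2 * Real.pi)) ≤
            nd (w j₁ * (x * Real.cos (1 / T) / (2 * Real.pi))) := by
          unfold nd
          have h9 : (round (w j₁ * (x * Real.cos (1 / T) / (2 * Real.pi))) : ℝ) ≤ 0 := by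
            exact_mod_cast h6
          refine le_trans ?_ (le_abs_self _)
          linarith
        refine le_trans ?_ h8
        have h10 : m ≤ w j₁ := hj₀ j₁ (Finset.mem_univ _)
        have hwj1 := (hw j₁).le
        have h11 : m * (Real.exp (-U) * (1 / 2) / (2 * Real.pi)) ≤
            w j₁ * (x * Real.cos (1 / T) / (2 * Real.pi)) := by gcongr
        refine le_trans (le_of_eq ?_) h11
        rw [hc₅]; ring
      have h8 : ∏ j, qf w x (1 / T) j ≤ ((c₅ ^ 2)⁻¹) ^ r := by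
        calc ∏ j, qf w x (1 / T) j ≤ ∏ _j : Fin r, (c₅ ^ 2)⁻¹ := by
              refine Finset.prod_le_prod (fun j _ => (qf_pos hx0 hη0 j).le) fun j _ => ?_
              unfold qf
              apply inv_anti₀ (by positivity)
              have := pow_le_pow_left₀ hc₅0.le (h7 j) 2
              nlinarith [sq_nonneg (x * (1 / T))]
          _ = _ := by rw [Finset.prod_const, Finset.card_univ, Fintype.card_fin]
      calc ‖KK a w (zx x (1 / T))‖ ^ 2 * x ^ (2 * σ) ≤ (CK * ((c₅ ^ 2)⁻¹) ^ r) * x ^ (2 * σ) := by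
            gcongr
            exact h1.trans (by gcongr)
        _ = _ := rfl
    · -- a pair
      obtain ⟨l, hl1, hl2, hl3⟩ := pair_main hr (hw j₁) hσ hT hx0 hxT (MM_gauge w j₁).nonneg
        (BB_one hw j₁) (w₂ := w j₂) (fun l hl => MM_le hw h4 h3 l hl) (q₁ := qf w x (1 / T) j₁)
        (q₂ := qf w x (1 / T) j₂) rfl rfl h6
      have hpS : j₁ ∈ S := Finset.mem_univ _
      have hlL : l ∈ Finset.Icc 1 L := by
        rw [Finset.mem_Icc]
        refine ⟨hl1, Nat.le_floor (hl2.trans ?_)⟩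
        have := hWj j₁
        gcongr
      have hsing : hpl j₁ l u ≤ ∑ p ∈ S, ∑ l ∈ Finset.Icc 1 L, hpl p l u :=
        (Finset.single_le_sum (f := fun l => hpl j₁ l u) (fun _ _ => bot_le) hlL).trans
          (Finset.single_le_sum (f := fun p => ∑ l ∈ Finset.Icc 1 L, hpl p l u) (fun _ _ => bot_le) hpS)
      refine le_trans ?_ (hsing.trans le_add_self)
      have har : 0 ≤ ar r σ T (Real.pi / w j₁) (MM w j₁) l := by
        have := hw j₁
        unfold ar
        positivity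
      have e1 : hpl j₁ l u = ENNReal.ofReal (CK * kp r σ (w j₁) (BB w j₁) *
          ar r σ T (Real.pi / w j₁) (MM w j₁) l * (x * ((Real.pi / w j₁ * l / T) ^ 2 +
          (w j₁ * Real.cos (1 / T) / (2 * Real.pi) * x - l) ^ 2)⁻¹)) := by
        simp only [hhpl]
        rw [← ENNReal.ofReal_mul (Real.exp_pos _).le, ← ENNReal.ofReal_mul (by
          exact mul_nonneg (mul_nonneg hCK.le (hkp _)) har)]
      rw [hFu, e1]
      apply ENNReal.ofReal_le_ofReal
      have h7 : ‖KK a w (zx x (1 / T))‖ ^ 2 ≤ CK * (qf w x (1 / T) j₁ ^ (r - 1) * qf w x (1 / T) j₂) :=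
        h1.trans (by gcongr)
      calc ‖KK a w (zx x (1 / T))‖ ^ 2 * x ^ (2 * σ)
          ≤ CK * (qf w x (1 / T) j₁ ^ (r - 1) * qf w x (1 / T) j₂) * x ^ (2 * σ) := by gcongr
        _ = CK * (qf w x (1 / T) j₁ ^ (r - 1) * qf w x (1 / T) j₂ * x ^ (2 * σ)) := by ring
        _ ≤ CK * (kp r σ (w j₁) (BB w j₁) * (ar r σ T (Real.pi / w j₁) (MM w j₁) l *
            (x * ((Real.pi / w j₁ * l / T) ^ 2 +
            (w j₁ * Real.cos (1 / T) / (2 * Real.pi) * x - l) ^ 2)⁻¹))) := by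
            refine mul_le_mul_of_nonneg_left ?_ hCK.le
            unfold kp
            exact hl3
        _ = _ := by ring
  have hcov : Iic U ⊆ Iic (-Real.log T) ∪ Icc (-Real.log T) U := by
    intro u hu
    rcases le_total u (-Real.log T) with h | h
    · exact Or.inl h
    · exact Or.inr ⟨h, hu⟩
  have hTT : T ^ (2 * σ) ≤ T ^ (2 * σ + Λ) := Real.rpow_le_rpow_of_exponent_le hT (by linarith)
  have hnearI : ∫⁻ u in Icc (-Real.log T) U, F u ≤
      ENNReal.ofReal ((Cn + ∑ p ∈ S, Cp p) * T ^ (2 * σ + Λ)) := by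
    calc _ ≤ ∫⁻ u in Icc (-Real.log T) U, (ENNReal.ofReal (K₀ * Real.exp (-(2 * σ) * u)) +
          ∑ p ∈ S, ∑ l ∈ Finset.Icc 1 L, hpl p l u) := setLIntegral_mono' measurableSet_Icc hpt
      _ = (∫⁻ u in Icc (-Real.log T) U, ENNReal.ofReal (K₀ * Real.exp (-(2 * σ) * u))) +
          ∑ p ∈ S, ∑ l ∈ Finset.Icc 1 L, ∫⁻ u in Icc (-Real.log T) U, hpl p l u := by
          rw [lintegral_add_left (by fun_prop), lintegral_finsetSum _ (fun p _ =>
            Finset.measurable_sum _ fun l _ => hmeas p l)]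
          congr 1
          refine Finset.sum_congr rfl fun p _ => ?_
          rw [lintegral_finsetSum _ (fun l _ => hmeas p l)]
      _ ≤ ENNReal.ofReal (Cn * T ^ (2 * σ + Λ)) + ∑ p ∈ S, ENNReal.ofReal (Cp p * T ^ (2 * σ + Λ)) := by
          refine add_le_add ?_ (Finset.sum_le_sum fun p hpS => ?_)
          · refine ((lintegral_mono_set Set.Icc_subset_Ici_self).trans (hnear T hT)).trans ?_
            apply ENNReal.ofReal_le_ofReal
            gcongr
          · refine le_trans (Finset.sum_le_sum fun l _ => ?_) (hCp p T L hT hLle)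
            exact setLIntegral_le_lintegral _ _
      _ = _ := by
          rw [← ENNReal.ofReal_sum_of_nonneg (fun p _ => by
            have := hCp0 p
            positivity), ← ENNReal.ofReal_add (by positivity) (Finset.sum_nonneg fun p _ => by
            have := hCp0 p
            positivity), ← Finset.sum_mul]
          congr 1
          ring
  unfold JJ
  calc _ ≤ ∫⁻ u in Iic (-Real.log T) ∪ Icc (-Real.log T) U, F u := lintegral_mono_set hcov
    _ ≤ (∫⁻ u in Iic (-Real.log T), F u) + ∫⁻ u in Icc (-Real.log T) U, F u :=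
        lintegral_union_le _ _ _
    _ ≤ ENNReal.ofReal (Cf * T ^ (2 * σ + Λ)) +
        ENNReal.ofReal ((Cn + ∑ p ∈ S, Cp p) * T ^ (2 * σ + Λ)) := by
        refine add_le_add ((hfar T hT).trans ?_) hnearI
        apply ENNReal.ofReal_le_ofReal
        gcongr
    _ = _ := by
        have : 0 ≤ ∑ p ∈ S, Cp p := Finset.sum_nonneg fun p _ => hCp0 p
        rw [← ENNReal.ofReal_add (by positivity) (by positivity)]
        congr 1
        ring

end Pool.Agent.K6.H31.BR
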